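import Pool.Agent.Q235.SZ.Pos

/-!
Project SZ: the space of smooth two-forms with the C^∞ topology.
-/

set_option autoImplicit false

open Set Filter Topology MeasureTheory
open scoped Manifold ContDiff

noncomputable section

namespace Pool.Agent.Q235.SZ

open Pool.Agent.Y501.SYP

section

variable {V : Type} [NormedAddCommGroup V] [NormedSpace ℝ V]
  {X : Type} [TopologicalSpace X] [ChartedSpace V X]

theorem continuous_jet [IsManifold 𝓘(ℝ, V) ∞ X] (x₀ : X) (k : ℕ) :
    Continuous (jet (V := V) (X := X) x₀ k) := by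
  exact continuous_iff_le_induced.2 ((iInf_le _ x₀).trans (iInf_le _ k))

theorem continuous_to [IsManifold 𝓘(ℝ, V) ∞ X] {B : Type} [TopologicalSpace B]
    {f : B → SForm V X} (h : ∀ x₀ k, Continuous fun b => jet x₀ k (f b)) : Continuous f :=
  continuous_iInf_rng.2 fun x₀ => continuous_iInf_rng.2 fun k => continuous_induced_rng.2 (h x₀ k)

theorem continuousOn_to [IsManifold 𝓘(ℝ, V) ∞ X] {B : Type} [TopologicalSpace B]
    {f : B → SForm V X} {S : Set B} (h : ∀ x₀ k, ContinuousOn (fun b => jet x₀ k (f b)) S) :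
    ContinuousOn f S := by
  rw [continuousOn_iff_continuous_domRestrict]
  exact continuous_to fun x₀ k => continuousOn_iff_continuous_domRestrict.1 (h x₀ k)

theorem iter_add {W : Type} [NormedAddCommGroup W] [NormedSpace ℝ W] (k : ℕ) (f g : V → W)
    (t : ℝ) (p : V) (hf : ContDiffAt ℝ k f p) (hg : ContDiffAt ℝ k g p) :
    iteratedFDeriv ℝ k (fun q => f q + t • g q) p =
      iteratedFDeriv ℝ k f p + t • iteratedFDeriv ℝ k g p := by
  have h1 : (fun q => f q + t • g q) = f + t • g := rfl
  have h2 : ContDiffAt ℝ k (t • g) p := hg.const_smul t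
  rw [h1, iteratedFDeriv_add_apply hf h2, iteratedFDeriv_const_smul_apply hg]

theorem jet_addS [IsManifold 𝓘(ℝ, V) ∞ X] (x₀ : X) (k : ℕ) (σ : SForm V X) (t : ℝ)
    (η : SForm V X) : jet x₀ k (addS σ t η) = jet x₀ k σ + t • jet x₀ k η := by
  ext1 p
  have hp := p.2
  have h1 : ContDiffAt ℝ k (pb (chartAt V x₀).symm σ.1) p :=
    ((smooth_chart σ x₀).contDiffAt ((chartAt V x₀).open_target.mem_nhds hp)).of_le
      (by exact_mod_cast le_top)
  have h2 : ContDiffAt ℝ k (pb (chartAt V x₀).symm η.1) p :=
    ((smooth_chart η x₀).contDiffAt ((chartAt V x₀).open_target.mem_nhds hp)).of_le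
      (by exact_mod_cast le_top)
  exact iter_add k (pb (chartAt V x₀).symm σ.1) (pb (chartAt V x₀).symm η.1) t p h1 h2

theorem addS_continuous [IsManifold 𝓘(ℝ, V) ∞ X] {B : Type} [TopologicalSpace B]
    {f g : B → SForm V X} {c : B → ℝ} (hf : Continuous f) (hc : Continuous c)
    (hg : Continuous g) : Continuous fun b => addS (f b) (c b) (g b) := by
  refine continuous_to fun x₀ k => ?_
  have h1 := (continuous_jet x₀ k).comp hf
  have h2 := (continuous_jet x₀ k).comp hg
  have h3 : (fun b => jet x₀ k (addS (f b) (c b) (g b))) =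
      fun b => jet x₀ k (f b) + c b • jet x₀ k (g b) := by
    funext b
    exact jet_addS x₀ k _ _ _
  rw [h3]
  exact h1.add (hc.smul h2)

/-- a continuous map to the space of forms is jointly continuous in the charts -/
theorem joint [IsManifold 𝓘(ℝ, V) ∞ X] [LocallyCompactSpace V] {B : Type} [TopologicalSpace B]
    {f : B → SForm V X} (hf : Continuous f) (x₀ : X) :
    ContinuousOn (fun q : B × V => pb (chartAt V x₀).symm (f q.1).1 q.2)
      (univ ×ˢ (chartAt V x₀).target) := by
  have h1 : Continuous fun b => jet x₀ 0 (f b) := (continuous_jet x₀ 0).comp hf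
  have hlc : LocallyCompactSpace (chartAt V x₀).target :=
    (chartAt V x₀).open_target.locallyCompactSpace
  have h2 : Continuous fun q : B × (chartAt V x₀).target => jet x₀ 0 (f q.1) q.2 :=
    continuous_eval.comp ((h1.comp continuous_fst).prodMk continuous_snd)
  have h3 : Continuous fun q : B × (chartAt V x₀).target =>
      pb (chartAt V x₀).symm (f q.1).1 q.2 := by
    have h4 : (fun q : B × (chartAt V x₀).target => pb (chartAt V x₀).symm (f q.1).1 q.2) =
        fun q => (continuousMultilinearCurryFin0 ℝ V (V [⋀^Fin 2]→L[ℝ] ℝ))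
          (jet x₀ 0 (f q.1) q.2) := by
      funext q
      change _ = iteratedFDeriv ℝ 0 (pb (chartAt V x₀).symm (f q.1).1) q.2 0
      rw [iteratedFDeriv_zero_apply]
    rw [h4]
    exact (continuousMultilinearCurryFin0 ℝ V (V [⋀^Fin 2]→L[ℝ] ℝ)).continuous.comp h2
  rw [continuousOn_iff_continuous_domRestrict]
  have h5 : Continuous fun q : ((univ : Set B) ×ˢ (chartAt V x₀).target : Set (B × V)) =>
      ((q.1.1, ⟨q.1.2, q.2.2⟩) : B × (chartAt V x₀).target) := by
    exact (continuous_fst.comp continuous_subtype_val).prodMk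
      ((continuous_snd.comp continuous_subtype_val).subtype_mk _)
  exact h3.comp h5

end

end Pool.Agent.Q235.SZ
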