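import Pool.Agent.Q235.SZ.Push

/-!
Project SZ: compact sets of thinly degenerate forms can be pushed into the symplectic forms.
-/

set_option autoImplicit false

open Set Filter Topology MeasureTheory
open scoped Manifold ContDiff

noncomputable section

namespace Pool.Agent.Q235.SZ

open Pool.Agent.Y501.SYP

section gen

variable {V : Type} [NormedAddCommGroup V] [NormedSpace ℝ V]
  {X : Type} [TopologicalSpace X] [ChartedSpace V X] [IsManifold 𝓘(ℝ, V) ∞ X]

theorem pb_inj (σ σ' : Form V X 2) (x₀ : X) {p : V} (hp : p ∈ (chartAt V x₀).target)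
    (h : pb (chartAt V x₀).symm σ p = pb (chartAt V x₀).symm σ' p) :
    σ ((chartAt V x₀).symm p) = σ' ((chartAt V x₀).symm p) := by
  have hcd : (chartAt V x₀).MDifferentiable 𝓘(ℝ, V) 𝓘(ℝ, V) :=
    mdifferentiable_chart (I := 𝓘(ℝ, V)) x₀
  let A := hcd.symm.mfderiv hp
  ext m
  have h1 : pb (chartAt V x₀).symm σ p (fun i => A.symm (m i)) =
      pb (chartAt V x₀).symm σ' p (fun i => A.symm (m i)) :=
    congrArg (fun a : V [⋀^Fin 2]→L[ℝ] ℝ => a (fun i => A.symm (m i))) h
  have h2 : (fun i => A (A.symm (m i))) = m := by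
    funext i
    exact A.apply_symm_apply _
  change σ ((chartAt V x₀).symm p) (fun i => A (A.symm (m i))) =
    σ' ((chartAt V x₀).symm p) (fun i => A (A.symm (m i))) at h1
  rwa [h2] at h1

instance : T2Space (SForm V X) := by
  refine T2Space.of_injective_continuous
    (f := fun (σ : SForm V X) (x₀ : X) => jet x₀ 0 σ) ?_
    (continuous_pi fun x₀ => continuous_jet x₀ 0)
  intro σ σ' h
  refine Subtype.ext (funext fun x => ?_)
  have hp : chartAt V x x ∈ (chartAt V x).target := mem_chart_target V x
  have h1 := congrArg (fun f => f ⟨chartAt V x x, hp⟩) (congrFun h x)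
  have h2 : pb (chartAt V x).symm σ.1 (chartAt V x x) = pb (chartAt V x).symm σ'.1 (chartAt V x x) := by
    have h3 := congrArg (fun a => a 0) h1
    change iteratedFDeriv ℝ 0 (pb (chartAt V x).symm σ.1) (chartAt V x x) 0 =
      iteratedFDeriv ℝ 0 (pb (chartAt V x).symm σ'.1) (chartAt V x x) 0 at h3
    rwa [iteratedFDeriv_zero_apply, iteratedFDeriv_zero_apply] at h3
  have h4 := pb_inj σ.1 σ'.1 x hp h2
  rwa [(chartAt V x).left_inv (mem_chart_source V x)] at h4

end gen

section

variable {X : Type} [TopologicalSpace X] [ChartedSpace (ES 4) X] [IsManifold 𝓘(ℝ, ES 4) ∞ X]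

theorem sqr_eq (σ : Form (ES 4) X 2) (x : X) (v : Fin 4 → ES 4) :
    sqr σ x v = wed (V := ES 4) (σ x) (σ x) v := by
  unfold sqr wed
  have key : ∀ (p q r s t u : ℝ), 2 * (p * q - r * s + t * u) =
      p * q - r * s + t * u + u * t - s * r + q * p := by
    intro p q r s t u; ring
  exact key _ _ _ _ _ _

theorem joint4 {B : Type} [TopologicalSpace B] {f : B → SForm (ES 4) X} (hf : Continuous f) :
    JC (fun b => (f b).1) := by
  have hfd : FiniteDimensional ℝ (ES 4) := e4.finiteDimensional_of_finite
  have hpr : ProperSpace (ES 4) := FiniteDimensional.proper ℝ (ES 4)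
  exact fun x₀ => joint hf x₀

theorem rat_add (τ σ η θ : Form (ES 4) X 2) (t : ℝ) (x : X) :
    rat τ σ (fun x => η x + t • θ x) x = rat τ σ η x + t * rat τ σ θ x := by
  have h : wed (V := ES 4) (σ x) (η x + t • θ x) e4 =
      wed (V := ES 4) (σ x) (η x) e4 + t * wed (V := ES 4) (σ x) (θ x) e4 := by
    have h1 := wed_add_right (V := ES 4) (σ x) (η x) (t • θ x) e4
    have h2 := wed_smul_right (V := ES 4) (σ x) (θ x) t e4
    exact h1.trans (congrArg (fun r => wed (V := ES 4) (σ x) (η x) e4 + r) h2)
  refine (congrArg (fun r => r / wed (V := ES 4) (τ x) (τ x) e4) h).trans ?_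
  rw [add_div, mul_div_assoc]
  rfl

theorem rat_sq (τ σ η : Form (ES 4) X 2) (t : ℝ) (x : X) :
    rat τ (fun x => σ x + t • η x) (fun x => σ x + t • η x) x =
      rat τ σ σ x + 2 * t * rat τ σ η x + t ^ 2 * rat τ η η x := by
  have h := wed_sq (V := ES 4) (σ x) (η x) t e4
  refine (congrArg (fun r => r / wed (V := ES 4) (τ x) (τ x) e4) h).trans ?_
  rw [add_div, add_div, mul_div_assoc, mul_div_assoc]
  rfl

theorem compact_pos {Y : Type} [TopologicalSpace Y] [CompactSpace Y] {a b c : Y → ℝ}
    (ha : Continuous a) (hb : Continuous b) (hc : Continuous c) (h0 : ∀ y, 0 ≤ a y)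
    (h1 : ∀ y, a y = 0 → 0 < b y) :
    ∃ ε : ℝ, 0 < ε ∧ ∀ y, ∀ t : ℝ, 0 < t → t ≤ ε → 0 < a y + 2 * t * b y + t ^ 2 * c y := by
  obtain ⟨ε, hε, h⟩ := Pool.Agent.Y501.SY.unif (isCompact_univ : IsCompact (univ : Set Y))
    (fun ε y => ∀ t : ℝ, 0 < t → t ≤ ε → 0 < a y + 2 * t * b y + t ^ 2 * c y)
    (fun ε ε' y hle hp t ht ht' => hp t ht (ht'.trans hle)) (by
      intro y _
      by_cases hby : 0 < b y
      · refine ⟨b y / (2 * (|c y| + 1)), by positivity, ?_⟩
        have e1 : ∀ᶠ z in 𝓝 y, b y / 2 < b z :=
          hb.continuousAt.eventually (lt_mem_nhds (by linarith))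
        have e2 : ∀ᶠ z in 𝓝 y, |c z| < |c y| + 1 :=
          hc.abs.continuousAt.eventually (gt_mem_nhds (by linarith))
        filter_upwards [e1, e2] with z hz1 hz2 t ht ht'
        have h2 : t * (|c y| + 1) ≤ b y / 2 := by
          have := mul_le_mul_of_nonneg_right ht' (by positivity : 0 ≤ |c y| + 1)
          have h3 : b y / (2 * (|c y| + 1)) * (|c y| + 1) = b y / 2 := by field_simp
          linarith
        have h3 : - (t * (|c y| + 1)) ≤ t * c z := by
          have := neg_abs_le (c z)
          nlinarith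
        have h4 : 0 < t * (2 * b z + t * c z) := mul_pos ht (by linarith)
        have := h0 z
        nlinarith
      · have hay : 0 < a y := by
          rcases lt_or_eq_of_le (h0 y) with h | h
          · exact h
          · exact absurd (h1 y h.symm) hby
        set M := |b y| + |c y| + 1 with hM
        refine ⟨min 1 (a y / (8 * M)), lt_min one_pos (by positivity), ?_⟩
        have e0 : ∀ᶠ z in 𝓝 y, a y / 2 < a z :=
          ha.continuousAt.eventually (lt_mem_nhds (by linarith))
        have e1 : ∀ᶠ z in 𝓝 y, |b z| < |b y| + 1 :=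
          hb.abs.continuousAt.eventually (gt_mem_nhds (by linarith))
        have e2 : ∀ᶠ z in 𝓝 y, |c z| < |c y| + 1 :=
          hc.abs.continuousAt.eventually (gt_mem_nhds (by linarith))
        filter_upwards [e0, e1, e2] with z hz0 hz1 hz2 t ht ht'
        have t1 : t ≤ 1 := ht'.trans (min_le_left _ _)
        have t2 : t ≤ a y / (8 * M) := ht'.trans (min_le_right _ _)
        have hM0 : 0 < M := by positivity
        have t3 : t * M ≤ a y / 8 := by
          have := mul_le_mul_of_nonneg_right t2 hM0.le
          have h3 : a y / (8 * M) * M = a y / 8 := by field_simp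
          linarith
        have hbM : |b z| ≤ M := by rw [hM]; have := abs_nonneg (c y); linarith
        have hcM : |c z| ≤ M := by rw [hM]; have := abs_nonneg (b y); linarith
        have b1 : -(t * M) ≤ t * b z := by
          have := neg_abs_le (b z)
          nlinarith
        have c1 : -(t * M) ≤ t * c z := by
          have := neg_abs_le (c z)
          nlinarith
        have c2 : -(t * M) ≤ t ^ 2 * c z := by
          have h5 : t ^ 2 * c z = t * (t * c z) := by ring
          rw [h5]
          by_cases hneg : t * c z < 0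
          · nlinarith
          · have : 0 ≤ t * (t * c z) := mul_nonneg ht.le (not_lt.1 hneg)
            have : 0 ≤ t * M := by positivity
            linarith
        nlinarith)
  exact ⟨ε, hε, fun y => h y (mem_univ y)⟩

end

end Pool.Agent.Q235.SZ
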