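import Pool.Agent.Y501.SY.PubT

/-!
Isolated singularities of order less than two: the definitions used in the statement.
-/

set_option autoImplicit false

open Set Filter Topology MeasureTheory
open scoped Manifold ContDiff

noncomputable section

namespace Pool.Agent.Q235.SZP

open Pool.Agent.Y501.SYP

variable {V : Type} [NormedAddCommGroup V] [NormedSpace ℝ V]
  {X : Type} [TopologicalSpace X] [ChartedSpace V X]

/-- The singularity of `σ` at `x` is of order less than two: in the chart at `x`, the product of
the square of the distance from `x` and of the norm of `σ` tends to zero at `x`, on the complement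
of `K`. -/
def OrderLtTwo (σ : Form V X 2) (K : Set X) (x : X) : Prop :=
  ∀ e : ℝ, 0 < e → ∀ᶠ p in 𝓝 (chartAt V x x), (chartAt V x).symm p ∉ K →
    ‖p - chartAt V x x‖ ^ 2 * ‖pb (chartAt V x).symm σ p‖ ≤ e

/-- `J` is Hölder continuous at the point `x`, with some positive exponent, in the chart at
`x`. -/
def HolderAt (J : End V X) (x : X) : Prop :=
  ∃ a L : ℝ, 0 < a ∧ ∀ᶠ p in 𝓝 (chartAt V x x), ∀ v : V,
    ‖inChart J x p v - inChart J x (chartAt V x x) v‖ ≤ L * ‖p - chartAt V x x‖ ^ a * ‖v‖

end Pool.Agent.Q235.SZP
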