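import Pool.Agent.Q235.SZ.Iter
import Pool.Agent.Q235.SZ.PubI

/-!
Isolated singularities of order less than two: comparison of the definitions.
-/

set_option autoImplicit false

open Set Filter Topology MeasureTheory
open scoped Manifold ContDiff

noncomputable section

namespace Pool.Agent.Q235.SZ

open Pool.Agent.Y501.SY

theorem conv0 {d : ℕ} {X : Type} [TopologicalSpace X] [ChartedSpace (E d) X]
    [IsManifold (𝓡 d) ∞ X] {J : End d X} (hJ : IsAlmostComplex J) (K : Set X)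
    {σ : Form d X 2} (hσ : IsSmooth σ) (ht : ∀ x, TamesAt σ J x) :
    (∀ x, BddAt σ K x) ∧ (∀ x, LitAt σ K x) ∧ ∀ x, UTAt σ J K x := by
  have hball : ∀ x : X, ∃ r : ℝ, 0 < r ∧
      Metric.closedBall (chartAt (E d) x x) r ⊆ (chartAt (E d) x).target := by
    intro x
    obtain ⟨r, hr, h⟩ := Metric.nhds_basis_closedBall.mem_iff.1
      ((chartAt (E d) x).open_target.mem_nhds (mem_chart_target (E d) x))
    exact ⟨r, hr, h⟩
  have hbd : ∀ x : X, ∃ C : ℝ, 0 < C ∧ ∀ᶠ p in 𝓝 (chartAt (E d) x x),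
      ‖pb (chartAt (E d) x).symm σ p‖ ≤ C := by
    intro x
    obtain ⟨r, hr, hb⟩ := hball x
    obtain ⟨⟨C, hC, hq⟩, -⟩ := Pool.Agent.Y44.SY.t_QB d X J hJ σ hσ x _
      (isCompact_closedBall (chartAt (E d) x x) r) hb
    refine ⟨C, hC, ?_⟩
    filter_upwards [Metric.closedBall_mem_nhds _ hr] with p hp
    exact (hq p hp).1
  refine ⟨?_, ?_, ?_⟩
  · intro x
    obtain ⟨C, -, h⟩ := hbd x
    exact ⟨C, h.mono fun p hp _ => hp⟩
  · intro x e he
    obtain ⟨C, hC, h⟩ := hbd x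
    have h1 : ∀ᶠ p in 𝓝 (chartAt (E d) x x), ‖p - chartAt (E d) x x‖ ^ 2 * C < e := by
      have h2 : ContinuousAt (fun p => ‖p - chartAt (E d) x x‖ ^ 2 * C)
          (chartAt (E d) x x) := by fun_prop
      refine h2.eventually_lt_const ?_
      dsimp only
      rw [sub_self, norm_zero]
      simp only [ne_eq, OfNat.ofNat_ne_zero, not_false_eq_true, zero_pow, zero_mul]
      exact he
    filter_upwards [h, h1] with p hp hp2 _
    exact (mul_le_mul_of_nonneg_left hp (sq_nonneg _)).trans hp2.le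
  · intro x
    obtain ⟨r, hr, hb⟩ := hball x
    obtain ⟨-, hlow⟩ := Pool.Agent.Y44.SY.t_QB d X J hJ σ hσ x _
      (isCompact_closedBall (chartAt (E d) x x) r) hb
    obtain ⟨c, hc, hlow⟩ := hlow fun p _ => ht _
    refine ⟨c, hc, ?_⟩
    filter_upwards [Metric.closedBall_mem_nhds _ hr] with p hp _ v
    exact hlow p hp v

end Pool.Agent.Q235.SZ

namespace Pool.Agent.Q235.SZP

open Pool.Agent.Y501.SYP

attribute [local instance] cs mf

section

variable {d : ℕ} {X : Type} [TopologicalSpace X] [ChartedSpace (ES d) X]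

theorem hol_of {J : End (ES d) X} {x : X} (h : HolderAt J x) :
    SZ.HolAt (d := d) (X := X) J x := by
  obtain ⟨a, L, ha, h⟩ := h
  refine ⟨a, |L|, ha, abs_nonneg _, ?_⟩
  filter_upwards [h] with p hp v
  have key : ∀ A B : ℝ, 0 ≤ A → 0 ≤ B → L * A * B ≤ |L| * A * B := fun A B hA hB =>
    mul_le_mul_of_nonneg_right (mul_le_mul_of_nonneg_right (le_abs_self L) hA) hB
  exact (hp v).trans (key _ _ (Real.rpow_nonneg (norm_nonneg _) _) (norm_nonneg _))

variable [IsManifold 𝓘(ℝ, ES d) ∞ X]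

theorem isolated [CompactSpace X] [T2Space X] (hd : 4 ≤ d)
    (J : End (ES d) X) (hJ : IsAlmostComplex J) (K : Set X) (hK : IsClosed K)
    (hH : ∀ x₀ : X, μH[(d : ℝ) - 1] (chartAt (ES d) x₀ '' (K ∩ (chartAt (ES d) x₀).source)) = 0)
    (T : Set X) (hT : T.Finite) (hTK : T ⊆ K) (hol : ∀ x ∈ T, HolderAt J x)
    (σ : Form (ES d) X 2) (hσ : ClosedOff σ K) (hb : ∀ x ∈ K, x ∉ T → BddNear σ K x)
    (ho : ∀ x ∈ T, OrderLtTwo σ K x)
    (hpos : ∀ x, x ∉ K → ∀ v : TangentSpace 𝓘(ℝ, ES d) x, 0 ≤ qd σ J x v)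
    (hsmall : ∀ z ∈ Crit σ J K, SmallAll J (connectedComponentIn (Crit σ J K) z) z)
    (U : Set X) (hU : IsOpen U) (hKU : K ⊆ U) :
    ∃ (α : Form (ES d) X 1) (η w : Form (ES d) X 2), IsSmooth α ∧ IsSmooth η ∧ IsD α η ∧
      IsTamingSymplectic w J ∧ ∀ x, x ∉ U → w x = addF σ η x := by
  obtain ⟨α, η, w, h1, h2, h3, h4, h5, h6, h7⟩ := SZ.isoMain (d := d) (X := X) hd
    (J := J) (ac_of J hJ) (K := K) hK hH hT hTK (fun x hx => hol_of (hol x hx)) (σ := σ)
    (fun V φ hV hφ hp => (hσ V φ ⟨hV, hφ⟩ hp).1)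
    (fun V φ hV hφ hp p hpV => (hσ V φ ⟨hV, hφ⟩ hp).2 p hpV)
    (fun x hxT => by
      by_cases hx : x ∈ K
      · exact hb x hx hxT
      · exact bdd_off hK hσ hx)
    ho hpos (fun z hz => smallAll_of hJ (hsmall z hz)) hU hKU
  exact ⟨α, η, w, (smooth_iff α).2 h1, (smooth_iff η).2 h2, (isD_iff α η).2 h3,
    symp_of ((smooth_iff w).2 h4) ((closed_iff w).2 h5) h6, h7⟩

/-- a taming symplectic form is closed off every set, bounded, and uniformly taming -/
theorem conv_iso (J : End (ES d) X) (hJ : IsAlmostComplex J) (K : Set X)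
    (σ : Form (ES d) X 2) (hσ : IsTamingSymplectic σ J) :
    ClosedOff σ K ∧ (∀ x, BddNear σ K x) ∧ (∀ x, OrderLtTwo σ K x) ∧
      (∀ (x : X) (v : TangentSpace 𝓘(ℝ, ES d) x), 0 ≤ qd σ J x v) ∧ Crit σ J K = ∅ := by
  obtain ⟨h1, h2, h3⟩ := SZ.conv0 (d := d) (X := X) (ac_of J hJ) K (σ := σ)
    ((smooth_iff σ).1 hσ.smooth) hσ.tames
  refine ⟨?_, h1, h2, ?_, ?_⟩
  · intro V φ hφ _
    exact ⟨hσ.smooth V φ hφ, hσ.closed V φ hφ⟩
  · intro x v
    by_cases hv : v = 0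
    · subst hv
      unfold qd
      rw [map_zero]
      have h3 : (![0, 0] : Fin 2 → TangentSpace 𝓘(ℝ, ES d) x) = 0 := by
        funext i; fin_cases i <;> rfl
      rw [h3]
      exact ((σ x).map_zero).ge
    · exact (hσ.tames x v hv).le
  · rw [eq_empty_iff_forall_notMem]
    intro x hx
    exact hx (h3 x)

end

end Pool.Agent.Q235.SZP
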