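import Pool.Agent.Q235.SZ.Loc
import Pool.Agent.Y501.SY.Step
import Pool.Agent.Y929.SY.Glob
import Pool.Agent.Y407.SY.Cap
import Pool.Agent.Y949.SY.Patch2
import Pool.Agent.Y44.SY.QB
import Pool.Agent.Y44.SY.Imm

/-!
# Removing an isolated singularity of order less than two: one step on a manifold
-/

set_option autoImplicit false

open Set Filter Topology MeasureTheory
open scoped Manifold ContDiff Pointwise

noncomputable section

namespace Pool.Agent.Q235.SZ

open Pool.Agent.Y501.SY Pool.Agent.Y455.SY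

section

variable {d : ℕ} {X : Type} [TopologicalSpace X] [ChartedSpace (E d) X]

/-- the product of the square of the distance from `x` and of the norm of `σ` tends to zero -/
def LitAt (σ : Form d X 2) (K : Set X) (x : X) : Prop :=
  ∀ e : ℝ, 0 < e → ∀ᶠ p in 𝓝 (chartAt (E d) x x), (chartAt (E d) x).symm p ∉ K →
    ‖p - chartAt (E d) x x‖ ^ 2 * ‖pb (chartAt (E d) x).symm σ p‖ ≤ e

/-- `J` is Hölder continuous at the point `x`. -/
def HolAt (J : End d X) (x : X) : Prop :=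
  ∃ a L : ℝ, 0 < a ∧ 0 ≤ L ∧ ∀ᶠ p in 𝓝 (chartAt (E d) x x), ∀ v : E d,
    ‖inChart J x p v - inChart J x (chartAt (E d) x x) v‖ ≤
      L * ‖p - chartAt (E d) x x‖ ^ a * ‖v‖

/-- a uniform lower bound off `K` -/
def LBd {m : ℕ} (F : X → E m) (J : End d X) (w : Form d X 2) (K : Set X) : Prop :=
  ∃ c : ℝ, 0 < c ∧ ∀ x, x ∉ K → ∀ v : TangentSpace (𝓡 d) x, c * nm F x v ^ 2 ≤ w x ![v, J x v]

variable [IsManifold (𝓡 d) ∞ X]

theorem inChart_sq {J : End d X} (hJ : IsAlmostComplex J) (x : X) {p : E d}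
    (hp : p ∈ (chartAt (E d) x).target) (v : E d) :
    inChart J x p (inChart J x p v) = -v := by
  have h1 : (A x p) (inChart J x p v) = J ((chartAt (E d) x).symm p) (A x p v) := AB x hp _
  have h2 : inChart J x p (inChart J x p v) =
      B x p (J ((chartAt (E d) x).symm p) (A x p (inChart J x p v))) := rfl
  rw [h2, h1]
  have h3 : J ((chartAt (E d) x).symm p) (J ((chartAt (E d) x).symm p) (A x p v)) =
      -(A x p v) := hJ.sq _ _
  rw [h3]
  have h4 : B x p (-(A x p v)) = -(B x p (A x p v)) := map_neg _ _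
  rw [h4, BA x hp]

theorem pstep (hd : 4 ≤ d) [CompactSpace X] [T2Space X] {m : ℕ} {F : X → E m}
    (hF : ContMDiff (𝓡 d) (𝓡 m) ∞ F)
    (hFi : ∀ x, Function.Injective (mfderiv (𝓡 d) (𝓡 m) F x)) {J : End d X}
    (hJ : IsAlmostComplex J) {A' : Set X} (hA : IsOpen A') {z : X} (hz : z ∈ A')
    (hol : HolAt J z) {K : Set X} (hK : IsClosed K) (hzK : z ∈ K)
    (hH : ∀ x₀ : X, μH[(d : ℝ) - 1] (chartAt (E d) x₀ '' (K ∩ (chartAt (E d) x₀).source)) = 0)
    {w : Form d X 2} (hws : SmoothOff w K) (hwcl : IsDOff w 0 K) (hpos : LBd F J w K)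
    (hlit : LitAt w K z) :
    ∃ (O K' N : Set X) (w' : Form d X 2), IsOpen O ∧ z ∈ O ∧ O ⊆ A' ∧ IsClosed N ∧ N ⊆ O ∧
      IsClosed K' ∧ K' ⊆ K ∧ K ⊆ K' ∪ N ∧ SmoothOff w' K' ∧ IsDOff w' 0 K' ∧ LBd F J w' K' ∧
      (∀ x, x ∉ N → w' x = w x) ∧
      ∃ B : ℝ, 0 < B ∧ ∀ x ∈ O, x ∉ K' → ∀ v u : TangentSpace (𝓡 d) x,
        |w' x ![v, u]| ≤ B * nm F x v * nm F x u := by
  obtain ⟨c₁, hc₁, hwc⟩ := hpos
  obtain ⟨a₀, L, ha₀, hL, hol⟩ := hol
  -- the ball
  obtain ⟨r, hr, hr1, hball⟩ : ∃ r : ℝ, 0 < r ∧ r ≤ 1 ∧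
      ∀ p ∈ Metric.closedBall (chartAt (E d) z z) r,
      p ∈ (chartAt (E d) z).target ∧ (chartAt (E d) z).symm p ∈ A' ∧
        (∀ v : E d, ‖inChart J z p v - inChart J z (chartAt (E d) z z) v‖ ≤
          L * ‖p - chartAt (E d) z z‖ ^ a₀ * ‖v‖) ∧
        ((chartAt (E d) z).symm p ∉ K →
          ‖p - chartAt (E d) z z‖ ^ 2 * ‖pb (chartAt (E d) z).symm w p‖ ≤ 1) := by
    have h1 : ContinuousAt (chartAt (E d) z).symm (chartAt (E d) z z) :=
      (chartAt (E d) z).continuousAt_symm (mem_chart_target (E d) z)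
    have h2 : (chartAt (E d) z).symm (chartAt (E d) z z) = z :=
      (chartAt (E d) z).left_inv (mem_chart_source (E d) z)
    have h3 : ∀ᶠ x in 𝓝 ((chartAt (E d) z).symm (chartAt (E d) z z)), x ∈ A' := by
      rw [h2]
      exact hA.mem_nhds hz
    have h4 := h1.eventually h3
    have h5 : ∀ᶠ p in 𝓝 (chartAt (E d) z z), p ∈ (chartAt (E d) z).target :=
      (chartAt (E d) z).open_target.mem_nhds (mem_chart_target (E d) z)
    obtain ⟨r, hr, h6⟩ := Metric.nhds_basis_closedBall.mem_iff.1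
      (h5.and (h4.and (hol.and (hlit 1 one_pos))))
    refine ⟨min r 1, by positivity, min_le_right _ _, fun p hp => ?_⟩
    exact h6 (Metric.closedBall_subset_closedBall (min_le_left _ _) hp)
  obtain ⟨p₀, hp₀⟩ : ∃ p₀, p₀ = chartAt (E d) z z := ⟨_, rfl⟩
  have hlit' := hlit
  unfold LitAt at hlit'
  rw [← hp₀] at hball hlit'
  obtain ⟨e, he⟩ : ∃ e, e = chartAt (E d) z := ⟨_, rfl⟩
  have hzs : z ∈ e.source := by rw [he]; exact mem_chart_source (E d) z
  have hez : e z = p₀ := by rw [he, hp₀]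
  have hVt : Metric.closedBall p₀ r ⊆ e.target := fun p hp => by
    rw [he]; exact (hball p hp).1
  have hV : Metric.ball p₀ r ⊆ e.target := Metric.ball_subset_closedBall.trans hVt
  have hp₀b : p₀ ∈ Metric.ball p₀ r := Metric.mem_ball_self hr
  have hN : IsCompact (Metric.closedBall p₀ r) := isCompact_closedBall p₀ r
  obtain ⟨ci, Ci, hci, hCi, hnm⟩ := Pool.Agent.Y44.SY.t_IMM d m X F hF hFi z
    (Metric.closedBall p₀ r) hN (by rw [← he]; exact hVt)
  have hO : IsOpen (e.source ∩ e ⁻¹' Metric.ball p₀ r) :=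
    e.isOpen_inter_preimage Metric.isOpen_ball
  obtain ⟨O, hOd⟩ : ∃ O, O = e.source ∩ e ⁻¹' Metric.ball p₀ r := ⟨_, rfl⟩
  rw [← hOd] at hO
  have heO : e '' O = Metric.ball p₀ r := by
    apply Subset.antisymm
    · rintro _ ⟨x, hx, rfl⟩
      rw [hOd] at hx
      exact hx.2
    · intro p hp
      refine ⟨e.symm p, ?_, e.right_inv (hV hp)⟩
      rw [hOd]
      refine ⟨e.map_target (hV hp), ?_⟩
      rw [mem_preimage, e.right_inv (hV hp)]
      exact hp
  have hOs : O ⊆ e.source := by rw [hOd]; exact inter_subset_left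
  have hzO : z ∈ O := by
    rw [hOd]
    exact ⟨hzs, by rw [mem_preimage, hez]; exact hp₀b⟩
  have hOA : O ⊆ A' := by
    intro x hx
    have h1 : e x ∈ Metric.ball p₀ r := by rw [hOd] at hx; exact hx.2
    have h2 := (hball (e x) (Metric.ball_subset_closedBall h1)).2.1
    rw [← he, e.left_inv (hOs hx)] at h2
    exact h2
  -- the local data
  obtain ⟨k, hk⟩ : ∃ k, k = Metric.ball p₀ r ∩ e.symm ⁻¹' K := ⟨_, rfl⟩
  have hVk : Metric.ball p₀ r \ k = Metric.ball p₀ r ∩ e.symm ⁻¹' Kᶜ := by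
    rw [hk]
    ext p
    simp only [Set.mem_sdiff, mem_inter_iff, mem_preimage, mem_compl_iff]
    tauto
  have hVko : IsOpen (Metric.ball p₀ r \ k) := by
    rw [hVk]
    have h1 : IsOpen (e.target ∩ e.symm ⁻¹' Kᶜ) := e.isOpen_inter_preimage_symm hK.isOpen_compl
    have h2 : Metric.ball p₀ r ∩ e.symm ⁻¹' Kᶜ = Metric.ball p₀ r ∩ (e.target ∩ e.symm ⁻¹' Kᶜ) := by
      rw [← inter_assoc, inter_eq_left.2 hV]
    rw [h2]
    exact Metric.isOpen_ball.inter h1
  have hsK : ∀ p ∈ Metric.ball p₀ r \ k, e.symm p ∉ K := by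
    intro p hp
    rw [hVk] at hp
    exact hp.2
  have hcapk : ∀ Q : Set (E d), IsCompact Q → Q ⊆ Metric.ball p₀ r → Cap (k ∩ Q) := by
    intro Q hQc hQV
    have h1 : k ∩ Q = Q ∩ e.symm ⁻¹' K := by
      rw [hk]
      ext p
      simp only [mem_inter_iff, mem_preimage]
      exact ⟨fun h => ⟨h.2, h.1.2⟩, fun h => ⟨⟨hQV h.1, h.2⟩, h.1⟩⟩
    have h2 : IsClosed (Q ∩ e.symm ⁻¹' K) :=
      (e.continuousOn_symm.mono (hQV.trans hV)).preimage_isClosed_of_isClosed hQc.isClosed hK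
    rw [h1]
    refine Pool.Agent.Y501.SY.t_CAP d (by omega) _
      (hQc.of_isClosed_subset h2 inter_subset_left) ?_
    refine measure_mono_null ?_ (hH z)
    rintro p ⟨hp, hpK⟩
    rw [← he]
    exact ⟨e.symm p, ⟨hpK, e.map_target (hV (hQV hp))⟩, e.right_inv (hV (hQV hp))⟩
  have hsymm : ContMDiffOn (𝓡 d) (𝓡 d) ∞ (chartAt (E d) z).symm (Metric.ball p₀ r) :=
    contMDiffOn_chart_symm.mono (by rw [← he]; exact hV)
  have hs1 : ContDiffOn ℝ ∞ (pb (chartAt (E d) z).symm w) (Metric.ball p₀ r \ k) :=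
    hws _ _ hVko (hsymm.mono sdiff_subset) (by rw [← he]; exact hsK)
  have hs2 : ∀ p ∈ Metric.ball p₀ r \ k, extDeriv (pb (chartAt (E d) z).symm w) p = 0 := by
    intro p hp
    have h1 := hwcl _ _ hVko (hsymm.mono sdiff_subset) (by rw [← he]; exact hsK) p hp
    rw [h1, pb_zero]
    rfl
  have hsing : Sing p₀ r k (pb (chartAt (E d) z).symm w) := by
    refine ⟨by rw [hk]; exact inter_subset_left, ?_, hVko, hcapk, hs1, hs2, fun p hp => ?_⟩
    · rw [hk]
      refine ⟨hp₀b, ?_⟩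
      rw [mem_preimage, ← hez, e.left_inv hzs]
      exact hzK
    · exact (hball p (Metric.ball_subset_closedBall hp.1)).2.2.2 (by
        have := hsK p hp
        rwa [he] at this)
  have hlits : ∀ e' : ℝ, 0 < e' → ∃ ρ : ℝ, 0 < ρ ∧ ∀ p ∈ Metric.ball p₀ r \ k, ‖p - p₀‖ ≤ ρ →
      ‖p - p₀‖ ^ 2 * ‖pb (chartAt (E d) z).symm w p‖ ≤ e' := by
    intro e' he'
    obtain ⟨ρ, hρ, h1⟩ := Metric.nhds_basis_closedBall.mem_iff.1 (hlit' e' he')
    refine ⟨ρ, hρ, fun p hp hp2 => ?_⟩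
    have h2 : p ∈ Metric.closedBall p₀ ρ := by
      rw [Metric.mem_closedBall, dist_eq_norm]
      exact hp2
    exact h1 h2 (by
      have := hsK p hp
      rwa [he] at this)
  obtain ⟨J₀, hJ₀⟩ : ∃ J₀, J₀ = inChart J z p₀ := ⟨_, rfl⟩
  have hJsq : ∀ v, J₀ (J₀ v) = -v := by
    intro v
    rw [hJ₀]
    exact inChart_sq hJ z (by rw [← he]; exact hV hp₀b) v
  have hJs : ∀ x ∈ Metric.ball p₀ r, ‖inChart J z x - J₀‖ ≤ L * ‖x - p₀‖ ^ (min a₀ 1) := by
    intro x hx
    have h1 := (hball x (Metric.ball_subset_closedBall hx)).2.2.1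
    have h2 : ‖x - p₀‖ < r := by rwa [Metric.mem_ball, dist_eq_norm] at hx
    have h3 : ‖x - p₀‖ ^ a₀ ≤ ‖x - p₀‖ ^ (min a₀ 1) := by
      by_cases h0 : ‖x - p₀‖ = 0
      · rw [h0, Real.zero_rpow ha₀.ne', Real.zero_rpow (lt_min ha₀ one_pos).ne']
      · exact Real.rpow_le_rpow_of_exponent_ge (lt_of_le_of_ne (norm_nonneg _) (Ne.symm h0))
          (by linarith) (min_le_left _ _)
    refine ContinuousLinearMap.opNorm_le_bound _ (by positivity) fun v => ?_
    have h4 := h1 v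
    rw [hJ₀]
    refine h4.trans ?_
    gcongr
  have hs4 : ∀ p ∈ Metric.ball p₀ r \ k, ∀ v : E d, c₁ * ci ^ 2 * ‖v‖ ^ 2 ≤
      pb (chartAt (E d) z).symm w p ![v, inChart J z p v] := by
    intro p hp v
    have hpc : p ∈ Metric.closedBall p₀ r := Metric.ball_subset_closedBall hp.1
    have h0 := Q_eq w J z (p := p) (by rw [← he]; exact hV hp.1) v
    unfold Q at h0
    rw [h0]
    have h1 := hwc ((chartAt (E d) z).symm p) (by rw [← he]; exact hsK p hp)
      (Pool.Agent.Y455.SY.A z p v)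
    refine le_trans ?_ h1
    have h2 := (hnm p hpc v).1
    have h3 : (ci * ‖v‖) ^ 2 ≤ nm F ((chartAt (E d) z).symm p)
        (Pool.Agent.Y455.SY.A z p v) ^ 2 := by
      have : 0 ≤ ci * ‖v‖ := by positivity
      exact pow_le_pow_left₀ this h2 2
    calc _ = c₁ * (ci * ‖v‖) ^ 2 := by ring
      _ ≤ _ := by gcongr
  obtain ⟨s', r₀, B', c', hr₀, hr₀r, hc', g1, g2, g4, g5, g3⟩ := loc_form hd hsing hlits hJsq
    (inChart J z) hL (lt_min ha₀ one_pos) (min_le_right _ _) hJs (c₀ := c₁ * ci ^ 2)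
    (by positivity) hs4
  -- the new singular set
  obtain ⟨W, hWd⟩ : ∃ W, W = e.source ∩ e ⁻¹' Metric.ball p₀ r₀ := ⟨_, rfl⟩
  have hW : IsOpen W := by rw [hWd]; exact e.isOpen_inter_preimage Metric.isOpen_ball
  have hr₀r' : r₀ < r := by linarith
  have hWO : W ⊆ O := by
    rw [hWd, hOd]
    exact inter_subset_inter_right _ (preimage_mono (Metric.ball_subset_ball hr₀r'.le))
  have hWs : ∀ p ∈ Metric.ball p₀ r, e.symm p ∈ W ↔ p ∈ Metric.ball p₀ r₀ := by
    intro p hp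
    rw [hWd]
    constructor
    · rintro ⟨_, h⟩
      rwa [mem_preimage, e.right_inv (hV hp)] at h
    · intro h
      refine ⟨e.map_target (hV hp), ?_⟩
      rwa [mem_preimage, e.right_inv (hV hp)]
  have hKW : IsClosed (K \ W) := by
    rw [sdiff_eq]
    exact hK.inter hW.isClosed_compl
  have hset : (chartAt (E d) z '' O) \ (chartAt (E d) z '' ((K \ W) ∩ O)) =
      Metric.ball p₀ r \ (k \ Metric.ball p₀ r₀) := by
    rw [← he, heO]
    ext p
    constructor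
    · rintro ⟨hp, hn⟩
      refine ⟨hp, ?_⟩
      rintro ⟨h1, h2⟩
      apply hn
      rw [hk] at h1
      refine ⟨e.symm p, ⟨⟨h1.2, ?_⟩, ?_⟩, e.right_inv (hV hp)⟩
      · rw [hWs p hp]
        exact h2
      · rw [hOd]
        refine ⟨e.map_target (hV hp), ?_⟩
        rwa [mem_preimage, e.right_inv (hV hp)]
    · rintro ⟨hp, hn⟩
      refine ⟨hp, ?_⟩
      rintro ⟨x, ⟨⟨hxK, hxW⟩, hxO⟩, rfl⟩
      apply hn
      have hxs := hOs hxO
      refine ⟨?_, ?_⟩
      · rw [hk]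
        refine ⟨hp, ?_⟩
        change e.symm (e x) ∈ K
        rwa [e.left_inv hxs]
      · rw [← hWs _ hp, e.left_inv hxs]
        exact hxW
  have hcb : Metric.closedBall p₀ (r / 2) ⊆ Metric.ball p₀ r :=
    Metric.closedBall_subset_ball (by linarith)
  obtain ⟨f1, f2, f3, f4⟩ := Pool.Agent.Y949.SY.t_PATCH2 d X z O K (K \ W)
    (Metric.closedBall p₀ (r / 2)) s' w hO
    (by rw [← he]; exact hOs) hKW sdiff_subset (isCompact_closedBall _ _)
    (by rw [← he, heO]; exact hcb)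
    (by
      intro x hx hx2
      have hxW : x ∈ W := by
        by_contra h
        exact hx2 ⟨hx, h⟩
      refine ⟨hWO hxW, ?_⟩
      rw [← he]
      rw [hWd] at hxW
      have h1 : e x ∈ Metric.ball p₀ r₀ := hxW.2
      rw [Metric.mem_ball] at h1
      rw [Metric.mem_closedBall]
      linarith)
    (by rw [hset]; exact g1) (by rw [hset]; exact g2)
    (by
      intro p hp
      apply g4
      have h1 := hp.2
      rw [Metric.mem_closedBall, dist_eq_norm, not_le] at h1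
      exact h1.le)
    hws hwcl
  have hout : ∀ x, x ∉ O → patch z O s' w x = w x := fun x hx => f3 x (Or.inl hx)
  have hin : ∀ x ∈ O, x ∉ K \ W → ∃ p ∈ Metric.ball p₀ r \ (k \ Metric.ball p₀ r₀),
      e.symm p = x := by
    intro x hx hx2
    refine ⟨e x, ?_, e.left_inv (hOs hx)⟩
    rw [← hset, ← he]
    refine ⟨⟨x, hx, rfl⟩, ?_⟩
    rintro ⟨y, hy, hyx⟩
    have : y = x := e.injOn (hOs hy.2) (hOs hx) hyx
    rw [this] at hy
    exact hx2 hy.1
  obtain ⟨N, hNd⟩ : ∃ N, N = e.symm '' Metric.closedBall p₀ (r / 2) := ⟨_, rfl⟩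
  have hcbt : Metric.closedBall p₀ (r / 2) ⊆ e.target := hcb.trans hV
  have hNc : IsClosed N := by
    rw [hNd]
    exact ((isCompact_closedBall p₀ (r / 2)).image_of_continuousOn
      (e.continuousOn_symm.mono hcbt)).isClosed
  have hNO : N ⊆ O := by
    rw [hNd]
    rintro _ ⟨p, hp, rfl⟩
    rw [hOd]
    refine ⟨e.map_target (hcbt hp), ?_⟩
    rw [mem_preimage, e.right_inv (hcbt hp)]
    exact hcb hp
  have hxN : ∀ x ∈ O, e x ∈ Metric.closedBall p₀ (r / 2) → x ∈ N := by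
    intro x hx hx2
    rw [hNd]
    exact ⟨e x, hx2, e.left_inv (hOs hx)⟩
  refine ⟨O, K \ W, N, patch z O s' w, hO, hzO, hOA, hNc, hNO, hKW, sdiff_subset, ?_, f1, f2,
    ?_, ?_, ?_⟩
  · intro x hx
    by_cases hxW : x ∈ W
    · refine Or.inr (hxN x (hWO hxW) ?_)
      rw [hWd] at hxW
      have h1 : e x ∈ Metric.ball p₀ r₀ := hxW.2
      rw [Metric.mem_ball] at h1
      rw [Metric.mem_closedBall]
      linarith
    · exact Or.inl ⟨hx, hxW⟩
  · refine ⟨min c₁ (c' * (Ci⁻¹) ^ 2), lt_min hc₁ (by positivity), ?_⟩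
    intro x hx v
    by_cases hxO : x ∈ O
    · obtain ⟨p, hp, rfl⟩ := hin x hxO hx
      have hpc : p ∈ Metric.closedBall p₀ r := Metric.ball_subset_closedBall hp.1
      have hpt : p ∈ (chartAt (E d) z).target := by rw [← he]; exact hV hp.1
      subst he
      have hv := AB z hpt v
      obtain ⟨v', hv'⟩ : ∃ v', v' = Pool.Agent.Y455.SY.B z p v := ⟨_, rfl⟩
      rw [← hv'] at hv
      have h0 := Q_eq (patch z O s' w) J z hpt v'
      unfold Q at h0
      rw [hv, f4 p (by rw [heO]; exact hp.1)] at h0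
      rw [← h0]
      refine le_trans ?_ (g5 p hp v')
      have h4 := (hnm p hpc v').2
      change nm F ((chartAt (E d) z).symm p) (Pool.Agent.Y455.SY.A z p v') ≤ Ci * ‖v'‖ at h4
      rw [hv] at h4
      have n1 : 0 ≤ nm F ((chartAt (E d) z).symm p) v := norm_nonneg _
      have h6 : Ci⁻¹ * nm F ((chartAt (E d) z).symm p) v ≤ ‖v'‖ := by
        rw [inv_mul_eq_div, div_le_iff₀ hCi, mul_comm]
        exact h4
      have h7 : (Ci⁻¹ * nm F ((chartAt (E d) z).symm p) v) ^ 2 ≤ ‖v'‖ ^ 2 :=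
        pow_le_pow_left₀ (by positivity) h6 2
      calc min c₁ (c' * (Ci⁻¹) ^ 2) * nm F ((chartAt (E d) z).symm p) v ^ 2
          ≤ (c' * (Ci⁻¹) ^ 2) * nm F ((chartAt (E d) z).symm p) v ^ 2 := by
            have := min_le_right c₁ (c' * (Ci⁻¹) ^ 2)
            gcongr
        _ = c' * (Ci⁻¹ * nm F ((chartAt (E d) z).symm p) v) ^ 2 := by ring
        _ ≤ c' * ‖v'‖ ^ 2 := by gcongr
    · rw [hout x hxO]
      have hxK : x ∉ K := fun h => hx ⟨h, fun h' => hxO (hWO h')⟩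
      refine le_trans ?_ (hwc x hxK v)
      have := min_le_left c₁ (c' * (Ci⁻¹) ^ 2)
      gcongr
  · intro x hx
    by_cases hxO : x ∈ O
    · refine f3 x (Or.inr fun h => hx (hxN x hxO ?_))
      rw [he]
      exact h
    · exact hout x hxO
  · refine ⟨|B'| * ci⁻¹ * ci⁻¹ + 1, by positivity, ?_⟩
    intro x hxO hx v u
    obtain ⟨p, hp, rfl⟩ := hin x hxO hx
    have hpc : p ∈ Metric.closedBall p₀ r := Metric.ball_subset_closedBall hp.1
    have hpt : p ∈ (chartAt (E d) z).target := by rw [← he]; exact hV hp.1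
    subst he
    have hv := AB z hpt v
    have hu := AB z hpt u
    obtain ⟨v', hv'⟩ : ∃ v', v' = Pool.Agent.Y455.SY.B z p v := ⟨_, rfl⟩
    obtain ⟨u', hu'⟩ : ∃ u', u' = Pool.Agent.Y455.SY.B z p u := ⟨_, rfl⟩
    rw [← hv'] at hv
    rw [← hu'] at hu
    have h1 : patch z O s' w ((chartAt (E d) z).symm p) ![v, u] = s' p ![v', u'] := by
      have h2 := f4 p (by rw [heO]; exact hp.1)
      rw [← h2, pb_app2]
      change _ = patch z O s' w ((chartAt (E d) z).symm p) ![Pool.Agent.Y455.SY.A z p v',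
        Pool.Agent.Y455.SY.A z p u']
      rw [hv, hu]
    rw [h1]
    have h3 := le_norm2 (s' p) v' u'
    have h4 := (hnm p hpc v').1
    have h5 := (hnm p hpc u').1
    change ci * ‖v'‖ ≤ nm F ((chartAt (E d) z).symm p) (Pool.Agent.Y455.SY.A z p v') at h4
    change ci * ‖u'‖ ≤ nm F ((chartAt (E d) z).symm p) (Pool.Agent.Y455.SY.A z p u') at h5
    rw [hv] at h4
    rw [hu] at h5
    have h6 : ‖v'‖ ≤ ci⁻¹ * nm F ((chartAt (E d) z).symm p) v := by
      rw [inv_mul_eq_div, le_div_iff₀ hci, mul_comm]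
      exact h4
    have h7 : ‖u'‖ ≤ ci⁻¹ * nm F ((chartAt (E d) z).symm p) u := by
      rw [inv_mul_eq_div, le_div_iff₀ hci, mul_comm]
      exact h5
    have h8 : ‖s' p‖ ≤ |B'| := (g3 p hp).trans (le_abs_self _)
    have n1 : 0 ≤ nm F ((chartAt (E d) z).symm p) v := norm_nonneg _
    have n2 : 0 ≤ nm F ((chartAt (E d) z).symm p) u := norm_nonneg _
    calc |s' p ![v', u']| ≤ ‖s' p‖ * ‖v'‖ * ‖u'‖ := h3
      _ ≤ |B'| * (ci⁻¹ * nm F ((chartAt (E d) z).symm p) v) *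
          (ci⁻¹ * nm F ((chartAt (E d) z).symm p) u) := by gcongr
      _ = (|B'| * ci⁻¹ * ci⁻¹) * nm F ((chartAt (E d) z).symm p) v *
          nm F ((chartAt (E d) z).symm p) u := by ring
      _ ≤ _ := by
        have : |B'| * ci⁻¹ * ci⁻¹ ≤ |B'| * ci⁻¹ * ci⁻¹ + 1 := by linarith
        gcongr

end

end Pool.Agent.Q235.SZ
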