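import Pool.Agent.Q235.SZ.PStep
import Pool.Agent.Y501.SY.FinalT

/-!
# Removing finitely many isolated singularities of order less than two
-/

set_option autoImplicit false

open Set Filter Topology MeasureTheory
open scoped Manifold ContDiff Pointwise

noncomputable section

namespace Pool.Agent.Q235.SZ

open Pool.Agent.Y501.SY Pool.Agent.Y455.SY

section

variable {d : ℕ} {X : Type} [TopologicalSpace X] [ChartedSpace (E d) X]

/-- boundedness off `K` near `x` with respect to the metric induced by `F` -/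
def BdF {m : ℕ} (F : X → E m) (w : Form d X 2) (K : Set X) (x : X) : Prop :=
  ∃ ε : ℝ, 0 < ε ∧ ∀ᶠ y in 𝓝 x, y ∉ K → ∀ v u : TangentSpace (𝓡 d) y,
    ε * |w y ![v, u]| ≤ nm F y v * nm F y u

theorem pb_congr {k : ℕ} {w w' : Form d X k} {φ : E d → X} {p : E d} (h : w' (φ p) = w (φ p)) :
    pb φ w' p = pb φ w p := by
  unfold pb
  rw [h]

variable [IsManifold (𝓡 d) ∞ X]

theorem BdF_of (hI : S_IMM) {m : ℕ} {F : X → E m} (hF : ContMDiff (𝓡 d) (𝓡 m) ∞ F)
    (hFi : ∀ x, Function.Injective (mfderiv (𝓡 d) (𝓡 m) F x)) {J : End d X}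
    (hJ : IsAlmostComplex J) {w η : Form d X 2} (hη : IsSmooth η) (s : ℝ) {K : Set X} {x : X}
    (h : BddAt w K x) : BdF F (w + s • η) K x :=
  Pool.Agent.Y929.SY.bdd_near hI Pool.Agent.Y44.SY.t_QB F hF hFi J hJ w η K hη s x h

theorem LitAt_add {w η : Form d X 2} (hη : IsSmooth η) (s : ℝ) {K : Set X} {x : X}
    (h : LitAt w K x) : LitAt (w + s • η) K x := by
  intro e he
  have h1 : ContinuousAt (pb (chartAt (E d) x).symm η) (chartAt (E d) x x) := by
    have h2 := hη _ (chartAt (E d) x).symm (chartAt (E d) x).open_target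
      (contMDiffOn_chart_symm (I := 𝓡 d))
    exact h2.continuousOn.continuousAt ((chartAt (E d) x).open_target.mem_nhds
      (mem_chart_target (E d) x))
  have h3 : ContinuousAt (fun p => ‖p - chartAt (E d) x x‖ ^ 2 *
      ‖s • pb (chartAt (E d) x).symm η p‖) (chartAt (E d) x x) :=
    ((continuousAt_id.sub continuousAt_const).norm.pow 2).mul (h1.const_smul s).norm
  have h4 : ∀ᶠ p in 𝓝 (chartAt (E d) x x), ‖p - chartAt (E d) x x‖ ^ 2 *
      ‖s • pb (chartAt (E d) x).symm η p‖ < e / 2 := by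
    refine h3.eventually_lt_const ?_
    dsimp only
    rw [sub_self, norm_zero]
    simp only [ne_eq, OfNat.ofNat_ne_zero, not_false_eq_true, zero_pow, zero_mul]
    positivity
  filter_upwards [h (e / 2) (by positivity), h4] with p hp hp2 hpK
  have h5 : pb (chartAt (E d) x).symm (w + s • η) p = pb (chartAt (E d) x).symm w p +
      s • pb (chartAt (E d) x).symm η p := rfl
  rw [h5]
  have h6 := norm_add_le (pb (chartAt (E d) x).symm w p) (s • pb (chartAt (E d) x).symm η p)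
  have h7 := mul_le_mul_of_nonneg_left h6 (sq_nonneg ‖p - chartAt (E d) x x‖)
  have h8 := hp hpK
  rw [mul_add] at h7
  linarith

/-- the induction over the singular points -/
theorem iter (hd : 4 ≤ d) [CompactSpace X] [T2Space X] {m : ℕ} {F : X → E m}
    (hF : ContMDiff (𝓡 d) (𝓡 m) ∞ F)
    (hFi : ∀ x, Function.Injective (mfderiv (𝓡 d) (𝓡 m) F x)) {J : End d X}
    (hJ : IsAlmostComplex J) {U : Set X} (hU : IsOpen U) (t : Finset X) :
    ∀ (K : Set X) (w : Form d X 2), (∀ x ∈ t, HolAt J x) → IsClosed K → K ⊆ U →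
    (∀ x₀ : X, μH[(d : ℝ) - 1] (chartAt (E d) x₀ '' (K ∩ (chartAt (E d) x₀).source)) = 0) →
    SmoothOff w K → IsDOff w 0 K → LBd F J w K → (∀ x ∈ t, x ∈ K ∧ LitAt w K x) →
    (∀ x, x ∉ t → BdF F w K x) →
    ∃ (K' : Set X) (w' : Form d X 2), IsClosed K' ∧ K' ⊆ K ∧ SmoothOff w' K' ∧ IsDOff w' 0 K' ∧
      LBd F J w' K' ∧ (∀ x, BdF F w' K' x) ∧ ∀ x, x ∉ U → w' x = w x := by
  classical
  induction t using Finset.induction_on with
  | empty =>
    intro K w _ hK _ _ h1 h2 h3 _ h5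
    exact ⟨K, w, hK, Subset.rfl, h1, h2, h3, fun x => h5 x (Finset.notMem_empty x), fun _ _ => rfl⟩
  | insert a t ha ih =>
    intro K w hol hK hKU hH h1 h2 h3 h4 h5
    obtain ⟨haK, hal⟩ := h4 a (Finset.mem_insert_self a t)
    have hto : IsOpen ((t : Set X)ᶜ) := t.finite_toSet.isClosed.isOpen_compl
    obtain ⟨O, K', N, w', hO, haO, hOA, hN, hNO, hK', hK'K, hKN, g1, g2, g3, g4, B, hB, g5⟩ :=
      pstep hd hF hFi hJ (hU.inter hto) ⟨hKU haK, fun h => ha (by exact_mod_cast h)⟩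
        (hol a (Finset.mem_insert_self a t)) hK haK hH h1 h2 h3 hal
    -- transfer near the points outside `N`
    have htr : ∀ x, x ∉ N → ∀ᶠ y in 𝓝 x, w' y = w y ∧ (y ∉ K' → y ∉ K) := by
      intro x hx
      filter_upwards [hN.isOpen_compl.mem_nhds hx] with y hy
      refine ⟨g4 y hy, fun h6 h7 => ?_⟩
      rcases hKN h7 with h8 | h8
      · exact h6 h8
      · exact hy h8
    obtain ⟨K'', w'', e1, e2, e3, e4, e5, e6, e7⟩ := ih K' w'
      (fun x hx => hol x (Finset.mem_insert_of_mem hx)) hK' (hK'K.trans hKU)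
      (fun x₀ => measure_mono_null (image_mono (inter_subset_inter_left _ hK'K)) (hH x₀))
      g1 g2 g3 (by
        intro x hx
        obtain ⟨hxK, hxl⟩ := h4 x (Finset.mem_insert_of_mem hx)
        have hxN : x ∉ N := fun h6 => (hOA (hNO h6)).2 (by exact_mod_cast hx)
        refine ⟨?_, ?_⟩
        · rcases hKN hxK with h7 | h7
          · exact h7
          · exact absurd h7 hxN
        · intro e he
          have h8 := (ev_chart (d := d) x (fun y => w' y = w y ∧ (y ∉ K' → y ∉ K))).2 (htr x hxN)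
          filter_upwards [hxl e he, h8] with p hp hp2 hpK
          rw [pb_congr hp2.1]
          exact hp (hp2.2 hpK)) (by
        intro x hx
        by_cases hxO : x ∈ O
        · refine ⟨1 / B, by positivity, ?_⟩
          filter_upwards [hO.mem_nhds hxO] with y hy hyK v u
          have h6 := g5 y hy hyK v u
          rw [one_div, ← div_eq_inv_mul, div_le_iff₀ hB]
          linarith
        · have hxN : x ∉ N := fun h6 => hxO (hNO h6)
          have hxt : x ∉ insert a t := by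
            rw [Finset.mem_insert, not_or]
            exact ⟨fun h6 => hxO (h6 ▸ haO), hx⟩
          obtain ⟨ε, hε, h6⟩ := h5 x hxt
          refine ⟨ε, hε, ?_⟩
          filter_upwards [h6, htr x hxN] with y hy hy2 hyK v u
          rw [hy2.1]
          exact hy (hy2.2 hyK) v u)
    refine ⟨K'', w'', e1, e2.trans hK'K, e3, e4, e5, e6, fun x hx => ?_⟩
    rw [e7 x hx]
    exact g4 x fun h6 => hx (hOA (hNO h6)).1

/-- the final smoothing -/
theorem finish (hd : 1 ≤ d) [CompactSpace X] [T2Space X] {m : ℕ} {F : X → E m}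
    (hF : ContMDiff (𝓡 d) (𝓡 m) ∞ F)
    (hFi : ∀ x, Function.Injective (mfderiv (𝓡 d) (𝓡 m) F x)) {J : End d X}
    (hJ : IsAlmostComplex J) {K : Set X} (hK : IsClosed K)
    (hH : ∀ x₀ : X, μH[(d : ℝ) - 1] (chartAt (E d) x₀ '' (K ∩ (chartAt (E d) x₀).source)) = 0)
    {U : Set X} (hU : IsOpen U) (hKU : K ⊆ U) {w₀ : Form d X 2} (hUT : UT F J w₀ K) :
    ∃ w : Form d X 2, IsSmooth w ∧ IsClosedForm w ∧ (∀ x, TamesAt w J x) ∧
      ∀ x, x ∉ U → w x = w₀ x := by
  classical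
  choose! W hWo hWz hW using fun z (hz : z ∈ K) =>
    Pool.Agent.Y501.SYP.t_STEP d m X F hF hFi J hJ hd U hU z (hKU hz)
  have hfin : ∀ t : Finset X, (∀ z ∈ t, z ∈ K) → ∃ w : Form d X 2,
      UT F J w (K \ ⋃ z ∈ t, W z) ∧ ∀ x, x ∉ U → w x = w₀ x := by
    intro t
    induction t using Finset.induction_on with
    | empty =>
      intro _
      refine ⟨w₀, ?_, fun x _ => rfl⟩
      have : K \ ⋃ z ∈ (∅ : Finset X), W z = K := by simp
      rw [this]
      exact hUT
    | insert a t ha ih =>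
      intro ht
      obtain ⟨w, hw, hwU⟩ := ih fun z hz => ht z (Finset.mem_insert_of_mem hz)
      have hop : IsOpen (⋃ z ∈ t, W z) :=
        isOpen_biUnion fun z hz => hWo z (ht z (Finset.mem_insert_of_mem hz))
      have hcl : IsClosed (K \ ⋃ z ∈ t, W z) := by
        rw [sdiff_eq]
        exact hK.inter hop.isClosed_compl
      obtain ⟨w', hw', hwU'⟩ := hW a (ht a (Finset.mem_insert_self a t)) _ w hcl
        (fun x₀ => measure_mono_null (image_mono (inter_subset_inter_left _ sdiff_subset))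
          (hH x₀)) hw
      refine ⟨w', ?_, fun x hx => (hwU' x hx).trans (hwU x hx)⟩
      have h1 : K \ ⋃ z ∈ insert a t, W z = (K \ ⋃ z ∈ t, W z) \ W a := by
        rw [Finset.set_biUnion_insert, union_comm, sdiff_sdiff_left]
        rfl
      rw [h1]
      exact hw'
  obtain ⟨t, htK, htc⟩ := hK.isCompact.elim_nhds_subcover W
    (fun z hz => (hWo z hz).mem_nhds (hWz z hz))
  obtain ⟨w, hw, hwU⟩ := hfin t htK
  have hempty : K \ ⋃ z ∈ t, W z = ∅ := by
    rw [sdiff_eq_empty]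
    exact htc
  rw [hempty] at hw
  obtain ⟨c, hc, hwc⟩ := hw.pos
  refine ⟨w, fun V φ hV hφ => hw.smooth V φ hV hφ fun p _ => notMem_empty _,
    fun V φ hV hφ => hw.closed V φ hV hφ fun p _ => notMem_empty _, fun x v hv => ?_, hwU⟩
  refine lt_of_lt_of_le ?_ (hwc x (notMem_empty _) v)
  have h1 : 0 < nm F x v := by
    refine lt_of_le_of_ne (norm_nonneg _) fun h => hv ?_
    have h2 : (mfderiv (𝓡 d) (𝓡 m) F x v : E m) = 0 := norm_eq_zero.1 h.symm
    apply hFi x
    rw [map_zero]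
    exact h2
  positivity

theorem isoMain (hd : 4 ≤ d) [CompactSpace X] [T2Space X] {J : End d X}
    (hJ : IsAlmostComplex J) {K : Set X} (hK : IsClosed K)
    (hH : ∀ x₀ : X, μH[(d : ℝ) - 1] (chartAt (E d) x₀ '' (K ∩ (chartAt (E d) x₀).source)) = 0)
    {T : Set X} (hT : T.Finite) (hTK : T ⊆ K) (hol : ∀ x ∈ T, HolAt J x)
    {σ : Form d X 2} (hσ : SmoothOff σ K) (hσc : IsDOff σ 0 K) (hb : ∀ x, x ∉ T → BddAt σ K x)
    (hlit : ∀ x ∈ T, LitAt σ K x)
    (hpos : ∀ x, x ∉ K → ∀ v : TangentSpace (𝓡 d) x, 0 ≤ σ x ![v, J x v])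
    (hthin : ∀ z, ¬ UTAt σ J K z →
      ThinAt2 0 0 J (connectedComponentIn {x | ¬ UTAt σ J K x} z) z)
    {U : Set X} (hU : IsOpen U) (hKU : K ⊆ U) :
    ∃ (α : Form d X 1) (η w : Form d X 2), IsSmooth α ∧ IsSmooth η ∧ IsD α η ∧ IsSmooth w ∧
      IsClosedForm w ∧ (∀ x, TamesAt w J x) ∧ ∀ x, x ∉ U → w x = (σ + η) x := by
  classical
  have hI := Pool.Agent.Y44.SY.t_IMM
  obtain ⟨m, F, hF, -, hFi⟩ := exists_embedding_euclidean_of_compact (I := 𝓡 d) (M := X)
  have hFc : IsClosed {x | ¬ UTAt σ J K x} :=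
    (isOpen_UTAt hI hF hFi σ J K).isClosed_compl
  have hne : ∃ v : E d, v ≠ 0 := by
    have : Nontrivial (E d) := by
      have : Nonempty (Fin d) := ⟨⟨0, by omega⟩⟩
      infer_instance
    exact exists_ne 0
  have hD2 : D2 (0 : Form d X 2) 0 J {x | ¬ UTAt σ J K x} = {x | ¬ UTAt σ J K x} := by
    apply Subset.antisymm
    · exact fun x hx => hx.1
    · intro x hx
      obtain ⟨v, hv⟩ := hne
      exact ⟨hx, v, hv, rfl, rfl⟩
  obtain ⟨α, η, hpair, hη⟩ := level2 Pool.Agent.Y484.SY.t_GEN Pool.Agent.Y108.SY.t_PERT2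
    Pool.Agent.Y925.SY.t_PLANAR hJ (σ := 0) (θ := 0) IsSmooth.zero IsSmooth.zero hFc (by
      rw [hD2]
      exact hthin)
  obtain ⟨hα, hηs, hαη, hηc⟩ := hpair.props Pool.Agent.Y484.SY.t_GEN
  obtain ⟨ε, hε, hposε⟩ := unif (isCompact_univ (X := X))
    (fun ε y => ∀ s : ℝ, 0 < s → s ≤ ε → y ∉ K →
      ∀ v : TangentSpace (𝓡 d) y, ε * s * nm F y v ^ 2 ≤ (σ + s • η) y ![v, J y v])
    (fun ε ε' y hle hp s hs hsε hy v => by
      refine le_trans ?_ (hp s hs (hsε.trans hle) hy v)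
      exact mul_le_mul_of_nonneg_right (mul_le_mul_of_nonneg_right hle hs.le) (sq_nonneg _))
    (fun x _ => Pool.Agent.Y929.SY.pos_near hI Pool.Agent.Y44.SY.t_QB F hF hFi J hJ σ η K hηs
      hpos x (by
        by_cases h : UTAt σ J K x
        · exact Or.inl h
        · exact Or.inr fun v hv => hη x h v hv rfl rfl))
  have h1 : SmoothOff (σ + ε • η) K := by
    intro V φ hV hφ hVK
    rw [pb_add, pb_smul]
    exact (hσ V φ hV hφ hVK).add (contDiffOn_const.smul (hηs V φ hV hφ))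
  have h2 : IsDOff (σ + ε • η) 0 K := by
    intro V φ hV hφ hVK p hp
    have h1 : DifferentiableAt ℝ (pb φ σ) p :=
      ((hσ V φ hV hφ hVK).contDiffAt (hV.mem_nhds hp)).differentiableAt (by simp)
    have h2 : DifferentiableAt ℝ (pb φ (ε • η)) p := (hηs.smul ε).diffAt hV hφ hp
    rw [pb_add, extDeriv_add h1 h2, hσc V φ hV hφ hVK p hp, pb_smul, extDeriv_smul,
      hηc V φ hV hφ p hp, pb_zero]
    simp
  have h3 : LBd F J (σ + ε • η) K :=
    ⟨ε * ε, by positivity, fun x hx v => hposε x (mem_univ x) ε hε le_rfl hx v⟩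
  obtain ⟨K', w', g1, g2, g3, g4, g5, g6, g7⟩ := iter hd hF hFi hJ hU hT.toFinset K (σ + ε • η)
    (fun x hx => hol x (hT.mem_toFinset.1 hx)) hK hKU hH h1 h2 h3
    (fun x hx => ⟨hTK (hT.mem_toFinset.1 hx),
      LitAt_add hηs ε (hlit x (hT.mem_toFinset.1 hx))⟩)
    (fun x hx => BdF_of hI hF hFi hJ hηs ε (hb x fun h => hx (hT.mem_toFinset.2 h)))
  obtain ⟨δ, hδ, hbd⟩ := unif (isCompact_univ (X := X))
    (fun δ y => y ∉ K' → ∀ v u : TangentSpace (𝓡 d) y,
      δ * |w' y ![v, u]| ≤ nm F y v * nm F y u)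
    (fun ε ε' y hle hp hy v u => by
      refine le_trans ?_ (hp hy v u)
      exact mul_le_mul_of_nonneg_right hle (abs_nonneg _))
    (fun x _ => g6 x)
  have hUT : UT F J w' K' := by
    refine ⟨g3, g4, ⟨1 / δ, by positivity, fun x hx v u => ?_⟩, g5⟩
    have h4 := hbd x (mem_univ x) hx v u
    rw [mul_assoc, one_div, ← div_eq_inv_mul, le_div_iff₀ hδ]
    linarith
  obtain ⟨w, e1, e2, e3, e4⟩ := finish (by omega) hF hFi hJ g1
    (fun x₀ => measure_mono_null (image_mono (inter_subset_inter_left _ g2)) (hH x₀)) hU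
    (g2.trans hKU) hUT
  exact ⟨ε • α, ε • η, w, hα.smul ε, hηs.smul ε, hαη.smul ε, e1, e2, e3, fun x hx =>
    (e4 x hx).trans (g7 x hx)⟩

end

end Pool.Agent.Q235.SZ
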