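import Pool.Agent.Q235.SZ.Psh2

/-!
# An exact form with logarithmic potential
-/

set_option autoImplicit false

open Set Filter Topology MeasureTheory
open scoped Manifold ContDiff Pointwise

noncomputable section

namespace Pool.Agent.Q235.SZ

open Pool.Agent.Y501.SY Pool.Agent.Y515.SY

variable {d : ℕ}

theorem G_comp_smooth (J : E d →L[ℝ] E d) (c : E d) (A b : ℝ) {s : ℝ} (hs : 0 < s) :
    ContDiff ℝ ∞ (fun x => G A b (N J (x - c) + s)) := by
  have h1 : ContDiff ℝ ∞ (fun x => N J (x - c) + s) := (N_smooth J c).add contDiff_const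
  have h2 : ∀ x, N J (x - c) + s ≠ 0 := fun x => by
    have := N_ge J (x - c)
    have h3 : 0 ≤ ‖x - c‖ ^ 2 := by positivity
    linarith
  unfold G
  exact (h1.inv h2).add (contDiff_const.mul (h1.rpow_const_of_ne h2))

theorem G_comp_deriv (J : E d →L[ℝ] E d) (c : E d) (A b : ℝ) {s : ℝ} (hs : 0 < s) (x : E d) :
    HasFDerivAt (fun x => G A b (N J (x - c) + s))
      (G' A b (N J (x - c) + s) • fderiv ℝ (fun x => N J (x - c)) x) x := by
  have h0 : 0 < N J (x - c) + s := by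
    have := N_ge J (x - c)
    have h3 : 0 ≤ ‖x - c‖ ^ 2 := by positivity
    linarith
  have h1 : HasFDerivAt (fun x => N J (x - c) + s) (fderiv ℝ (fun x => N J (x - c)) x) x :=
    ((N_smooth J c).differentiable (by simp) x).hasFDerivAt.add_const s
  exact (G_deriv h0).comp_hasFDerivAt x h1

theorem DN_norm (J : E d →L[ℝ] E d) (c x : E d) :
    ‖fderiv ℝ (fun x => N J (x - c)) x‖ ≤ 2 * (1 + ‖J‖) ^ 2 * ‖x - c‖ := by
  refine ContinuousLinearMap.opNorm_le_bound _ (by positivity) fun u => ?_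
  rw [N_fderiv, Real.norm_eq_abs, abs_mul, abs_two]
  have := BB_le J (x - c) u
  calc 2 * |BB J (x - c) u| ≤ 2 * ((1 + ‖J‖) ^ 2 * (‖x - c‖ * ‖u‖)) := by gcongr
    _ = _ := by ring

theorem psh_form {J : E d →L[ℝ] E d} (hJ : ∀ v, J (J v) = -v) (c : E d)
    (Js : E d → E d →L[ℝ] E d) {R₁ L a : ℝ} (hR₁ : 0 < R₁) (hL : 0 ≤ L) (ha : 0 < a)
    (ha1 : a ≤ 1) (hJs : ∀ x, ‖x - c‖ ≤ R₁ → ‖Js x - J‖ ≤ L * ‖x - c‖ ^ a) :
    ∃ R C c₁ : ℝ, 0 < R ∧ 2 * R ≤ R₁ ∧ 0 < c₁ ∧ 0 ≤ C ∧ ∀ r : ℝ, 0 < r → 4 * r ≤ R →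
      ∃ τ : E d → Al d 2, ContDiff ℝ ∞ τ ∧ (∀ x, extDeriv τ x = 0) ∧
        (∀ x, ‖x - c‖ < R → ∀ u, 0 ≤ τ x ![u, Js x u]) ∧
        (∀ x, ‖x - c‖ ≤ 2 * r → ∀ u, c₁ / r ^ 2 * ‖u‖ ^ 2 ≤ τ x ![u, Js x u]) ∧
        (∀ x, R ≤ ‖x - c‖ → ‖τ x‖ ≤ C) ∧ ∀ x, 2 * R ≤ ‖x - c‖ → τ x = 0 := by
  obtain ⟨K, hK⟩ : ∃ K, K = 1 + ‖J‖ := ⟨_, rfl⟩
  have hK1 : 1 ≤ K := by rw [hK]; linarith [norm_nonneg J]
  obtain ⟨b, hb⟩ : ∃ b, b = a / 2 := ⟨_, rfl⟩
  have hb0 : 0 < b := by rw [hb]; positivity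
  have hb1 : b < 1 := by rw [hb]; linarith
  obtain ⟨C2, hC2⟩ : ∃ C2, C2 = 12 * K ^ 3 * (L + 1) := ⟨_, rfl⟩
  have hC20 : 0 < C2 := by rw [hC2]; positivity
  obtain ⟨A, hA⟩ : ∃ A, A = C2 / b := ⟨_, rfl⟩
  have hA0 : 0 < A := by rw [hA]; positivity
  obtain ⟨Q₀, hQ0, hQ₀⟩ : ∃ Q₀ : ℝ, 0 < Q₀ ∧ A * Q₀ ^ b = 1 := by
    refine ⟨(A⁻¹) ^ b⁻¹, by positivity, ?_⟩
    rw [← Real.rpow_mul (by positivity), inv_mul_cancel₀ hb0.ne', Real.rpow_one,
      mul_inv_cancel₀ hA0.ne']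
  obtain ⟨R, hR, hR1, hR2⟩ : ∃ R : ℝ, 0 < R ∧ 2 * R ≤ R₁ ∧ (K ^ 2 + 1) * R ^ 2 ≤ Q₀ := by
    refine ⟨min (R₁ / 2) (Real.sqrt (Q₀ / (K ^ 2 + 1))), lt_min (by positivity) (by positivity),
      ?_, ?_⟩
    · have := min_le_left (R₁ / 2) (Real.sqrt (Q₀ / (K ^ 2 + 1)))
      linarith
    · have h1 := min_le_right (R₁ / 2) (Real.sqrt (Q₀ / (K ^ 2 + 1)))
      have h2 : 0 ≤ min (R₁ / 2) (Real.sqrt (Q₀ / (K ^ 2 + 1))) := by positivity
      have h3 := pow_le_pow_left₀ h2 h1 2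
      rw [Real.sq_sqrt (by positivity), le_div_iff₀ (by positivity)] at h3
      linarith
  obtain ⟨D, hD, hSB⟩ := exists_SB d
  obtain ⟨Θ, hΘ⟩ := hSB c R hR
  obtain ⟨G0, hG0⟩ : ∃ G0, G0 = (R ^ 2)⁻¹ + A * (R ^ 2) ^ (b - 1) := ⟨_, rfl⟩
  have hG00 : 0 < G0 := by rw [hG0]; positivity
  refine ⟨R, 4 * K * (2 * K ^ 2 + 2 * D + 1) * G0, 2 / (4 * K ^ 2 + 1) ^ 2, hR, hR1,
    by positivity, by positivity, ?_⟩
  intro r hr hrR
  have hs : 0 < r ^ 2 := by positivity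
  have hrR' : r ^ 2 ≤ R ^ 2 := pow_le_pow_left₀ hr.le (by linarith) 2
  obtain ⟨h, hh⟩ : ∃ h : E d → ℝ, h = fun x => Θ x * G A b (N J (x - c) + r ^ 2) := ⟨_, rfl⟩
  have hsm : ContDiff ℝ ∞ h := by
    rw [hh]
    exact hΘ.smooth.mul (G_comp_smooth J c A b hs)
  have hq0 : ∀ x, 0 ≤ N J (x - c) := fun x => (sq_nonneg ‖x - c‖).trans (N_ge J (x - c))
  have hGp : ∀ x, 0 < G A b (N J (x - c) + r ^ 2) := fun x =>
    G_pos hA0.le (by have := hq0 x; linarith)
  have hfd : ∀ x, fderiv ℝ h x = Θ x • (G' A b (N J (x - c) + r ^ 2) •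
      fderiv ℝ (fun x => N J (x - c)) x) + G A b (N J (x - c) + r ^ 2) • fderiv ℝ Θ x := by
    intro x
    have h1 : HasFDerivAt Θ (fderiv ℝ Θ x) x :=
      (hΘ.smooth.differentiable (by simp) x).hasFDerivAt
    rw [hh]
    exact (h1.mul (G_comp_deriv J c A b hs x)).fderiv
  have hGy : ∀ x, |G' A b (N J (x - c) + r ^ 2)| * ‖x - c‖ ^ 2 ≤ G A b (N J (x - c) + r ^ 2) :=
    fun x => (mul_le_mul_of_nonneg_left (N_ge J (x - c)) (abs_nonneg _)).trans
      (G'_le hA0.le hb0.le hb1 (hq0 x) hs)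
  have hDN := DN_norm J c
  rw [← hK] at hDN
  refine ⟨tau J c h, tau_smooth hsm, tau_closed hsm, ?_⟩
  -- the main estimate
  have key : ∀ x, ‖x - c‖ < R → ∀ u, 2 * (r ^ 2 * ((N J (x - c) + r ^ 2)⁻¹ *
      (N J (x - c) + r ^ 2)⁻¹)) * ‖u‖ ^ 2 ≤ tau J c h x ![u, Js x u] := by
    intro x hx u
    have hfdx : fderiv ℝ h x = G' A b (N J (x - c) + r ^ 2) •
      fderiv ℝ (fun x => N J (x - c)) x := by
      rw [hfd x, hΘ.one x hx.le, one_smul, hΘ.fd_zero hx, smul_zero, add_zero]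
    have hhx : h x = G A b (N J (x - c) + r ^ 2) := by
      rw [hh]
      dsimp only
      rw [hΘ.one x hx.le, one_mul]
    have hfu : ∀ u, fderiv ℝ h x u = G' A b (N J (x - c) + r ^ 2) * (2 * BB J (x - c) u) := by
      intro u
      rw [hfdx]
      change G' A b (N J (x - c) + r ^ 2) * fderiv ℝ (fun x => N J (x - c)) x u = _
      rw [N_fderiv]
    have hq := hq0 x
    have hGx := hGp x
    have hGyx := hGy x
    have hP := P_ge (b := b) hA0.le hb1 hq hs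
    have hG'x : G' A b (N J (x - c) + r ^ 2) ≤ 0 := G'_neg hA0.le hb1 (by linarith)
    have hQ : A * (N J (x - c) + r ^ 2) ^ b ≤ 1 := by
      rw [← hQ₀]
      refine mul_le_mul_of_nonneg_left (Real.rpow_le_rpow (by positivity) ?_ hb0.le) hA0.le
      refine le_trans ?_ hR2
      have h1 := N_le J (x - c)
      rw [← hK] at h1
      have h2 : ‖x - c‖ ^ 2 ≤ R ^ 2 := pow_le_pow_left₀ (norm_nonneg _) hx.le 2
      have h3 := mul_le_mul_of_nonneg_left h2 (sq_nonneg K)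
      linarith
    have hE := err_le hb0 hq hs hQ hA0.le
    generalize hg1 : G A b (N J (x - c) + r ^ 2) = g at *
    generalize hg2 : G' A b (N J (x - c) + r ^ 2) = g' at *
    generalize hg3 : (N J (x - c) + r ^ 2)⁻¹ * (N J (x - c) + r ^ 2)⁻¹ = X at *
    generalize hg4 : (N J (x - c) + r ^ 2) ^ (b - 1) = Y at *
    have hY0 : 0 < Y := by rw [← hg4]; positivity
    -- the value for `J`
    have main : 2 * (r ^ 2 * X + A * b * Y) * ‖u‖ ^ 2 ≤ tau J c h x ![u, J u] := by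
      have e1 : tau J c h x ![u, J u] =
          2 * g' * (BB J (x - c) u ^ 2 + W J (x - c) u ^ 2) + 2 * g * N J u := by
        rw [tau_apply hsm, hfu, hfu, W_J hJ, BB_J hJ, W_self hJ, hhx]
        ring
      rw [e1]
      have h1 := bessel hJ (x - c) u
      have h2 : g' * (N J (x - c) * N J u) ≤ g' * (BB J (x - c) u ^ 2 + W J (x - c) u ^ 2) :=
        mul_le_mul_of_nonpos_left h1 hG'x
      have h3 : (r ^ 2 * X + A * b * Y) * N J u ≤ (g' * N J (x - c) + g) * N J u :=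
        mul_le_mul_of_nonneg_right hP ((sq_nonneg ‖u‖).trans (N_ge J u))
      have hX0 : 0 ≤ X := by rw [← hg3]; positivity
      have h4 : (r ^ 2 * X + A * b * Y) * ‖u‖ ^ 2 ≤ (r ^ 2 * X + A * b * Y) * N J u :=
        mul_le_mul_of_nonneg_left (N_ge J u) (by positivity)
      nlinarith
    -- the error
    have err : |tau J c h x ![u, (Js x - J) u]| ≤ 2 * (A * b * Y) * ‖u‖ ^ 2 := by
      have h1 := tau_bound (J := J) (c := c) hsm x u ((Js x - J) u)
      rw [← hK, hhx, abs_of_pos hGx] at h1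
      have h2 : ‖fderiv ℝ h x‖ * ‖x - c‖ ≤ 2 * K ^ 2 * g := by
        rw [hfdx, norm_smul, Real.norm_eq_abs]
        have h3 := mul_le_mul_of_nonneg_left (hDN x) (abs_nonneg g')
        have h4 := mul_le_mul_of_nonneg_right h3 (norm_nonneg (x - c))
        refine h4.trans ?_
        have h5 := mul_le_mul_of_nonneg_left hGyx (by positivity : 0 ≤ 2 * K ^ 2)
        calc |g'| * (2 * K ^ 2 * ‖x - c‖) * ‖x - c‖ = 2 * K ^ 2 * (|g'| * ‖x - c‖ ^ 2) := by ring
          _ ≤ _ := h5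
      have h6 : ‖(Js x - J) u‖ ≤ (L + 1) * N J (x - c) ^ b * ‖u‖ := by
        refine ((Js x - J).le_opNorm u).trans (mul_le_mul_of_nonneg_right ?_ (norm_nonneg _))
        refine (hJs x (by linarith)).trans ?_
        have h7 : ‖x - c‖ ^ a ≤ N J (x - c) ^ b := by
          have h8 : ‖x - c‖ ^ a = (‖x - c‖ ^ 2) ^ b := by
            rw [← Real.rpow_natCast, ← Real.rpow_mul (norm_nonneg _)]
            congr 1
            rw [hb]
            push_cast
            ring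
          rw [h8]
          exact Real.rpow_le_rpow (sq_nonneg _) (N_ge J _) hb0.le
        have h9 : 0 ≤ ‖x - c‖ ^ a := by positivity
        have h10 : 0 ≤ N J (x - c) ^ b := by positivity
        calc L * ‖x - c‖ ^ a ≤ L * N J (x - c) ^ b := by gcongr
          _ ≤ (L + 1) * N J (x - c) ^ b := by gcongr; linarith
      have h11 : 4 * K * (‖fderiv ℝ h x‖ * ‖x - c‖ + g) ≤ 12 * K ^ 3 * g := by
        have h12 : 4 * K * (‖fderiv ℝ h x‖ * ‖x - c‖ + g) ≤ 4 * K * (2 * K ^ 2 * g + g) := by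
          gcongr
        have h13 : K ≤ K ^ 3 := by
          have : K * 1 ≤ K * K ^ 2 := mul_le_mul_of_nonneg_left (one_le_pow₀ hK1) (by linarith)
          calc K = K * 1 := by ring
            _ ≤ K * K ^ 2 := this
            _ = K ^ 3 := by ring
        have h14 := mul_le_mul_of_nonneg_right h13 hGx.le
        calc _ ≤ 4 * K * (2 * K ^ 2 * g + g) := h12
          _ = 8 * K ^ 3 * g + 4 * (K * g) := by ring
          _ ≤ 8 * K ^ 3 * g + 4 * (K ^ 3 * g) := by linarith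
          _ = _ := by ring
      have h15 : ‖u‖ * ‖(Js x - J) u‖ ≤ (L + 1) * N J (x - c) ^ b * ‖u‖ ^ 2 := by
        calc ‖u‖ * ‖(Js x - J) u‖ ≤ ‖u‖ * ((L + 1) * N J (x - c) ^ b * ‖u‖) := by gcongr
          _ = _ := by ring
      have h16 : 4 * K * (‖fderiv ℝ h x‖ * ‖x - c‖ + g) * (‖u‖ * ‖(Js x - J) u‖) ≤
          12 * K ^ 3 * g * ((L + 1) * N J (x - c) ^ b * ‖u‖ ^ 2) :=
        mul_le_mul h11 h15 (by positivity) (by positivity)
      have h17 : A * b = C2 := by rw [hA, div_mul_cancel₀ _ hb0.ne']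
      refine h1.trans (h16.trans ?_)
      have h18 : 12 * K ^ 3 * g * ((L + 1) * N J (x - c) ^ b * ‖u‖ ^ 2) =
          C2 * (g * N J (x - c) ^ b) * ‖u‖ ^ 2 := by rw [hC2]; ring
      rw [h18, h17]
      calc C2 * (g * N J (x - c) ^ b) * ‖u‖ ^ 2 ≤ C2 * (2 * Y) * ‖u‖ ^ 2 := by gcongr
        _ = _ := by ring
    have hsum : tau J c h x ![u, Js x u] =
        tau J c h x ![u, J u] + tau J c h x ![u, (Js x - J) u] := by
      rw [← lR_apply, ← lR_apply, ← lR_apply, ← map_add]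
      congr 1
      change Js x u = J u + (Js x u - J u)
      abel
    rw [hsum]
    have h19 := (abs_le.1 err).1
    have h20 : 2 * (r ^ 2 * X + A * b * Y) * ‖u‖ ^ 2 =
      2 * (r ^ 2 * X) * ‖u‖ ^ 2 + 2 * (A * b * Y) * ‖u‖ ^ 2 := by ring
    linarith
  refine ⟨?_, ?_, ?_, ?_⟩
  · intro x hx u
    refine le_trans ?_ (key x hx u)
    have := hq0 x
    positivity
  · intro x hx u
    refine le_trans ?_ (key x (by linarith) u)
    refine mul_le_mul_of_nonneg_right ?_ (sq_nonneg _)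
    have h1 : N J (x - c) + r ^ 2 ≤ (4 * K ^ 2 + 1) * r ^ 2 := by
      have h2 := N_le J (x - c)
      rw [← hK] at h2
      have h3 : ‖x - c‖ ^ 2 ≤ (2 * r) ^ 2 := pow_le_pow_left₀ (norm_nonneg _) hx 2
      have h4 := mul_le_mul_of_nonneg_left h3 (sq_nonneg K)
      nlinarith
    have h5 : 0 < N J (x - c) + r ^ 2 := by have := hq0 x; linarith
    have h6 : ((4 * K ^ 2 + 1) * r ^ 2)⁻¹ ≤ (N J (x - c) + r ^ 2)⁻¹ := inv_anti₀ h5 h1
    have h7 : ((4 * K ^ 2 + 1) * r ^ 2)⁻¹ * ((4 * K ^ 2 + 1) * r ^ 2)⁻¹ ≤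
        (N J (x - c) + r ^ 2)⁻¹ * (N J (x - c) + r ^ 2)⁻¹ :=
      mul_le_mul h6 h6 (by positivity) (by positivity)
    have h8 := mul_le_mul_of_nonneg_left h7 (by positivity : 0 ≤ 2 * r ^ 2)
    calc 2 / (4 * K ^ 2 + 1) ^ 2 / r ^ 2 =
        2 * r ^ 2 * (((4 * K ^ 2 + 1) * r ^ 2)⁻¹ * ((4 * K ^ 2 + 1) * r ^ 2)⁻¹) := by
          field_simp
      _ ≤ _ := h8
      _ = _ := by ring
  · intro x hx
    by_cases h2 : 2 * R ≤ ‖x - c‖
    · refine (tau_norm (J := J) (c := c) hsm x).trans ?_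
      have e1 : fderiv ℝ h x = 0 := by
        rw [hfd x, hΘ.zero x h2, hΘ.fd_out h2, zero_smul, smul_zero, add_zero]
      have e2 : h x = 0 := by
        rw [hh]
        dsimp only
        rw [hΘ.zero x h2, zero_mul]
      rw [e1, e2, norm_zero, zero_mul, abs_zero, add_zero, mul_zero]
      positivity
    · rw [not_le] at h2
      refine (tau_norm (J := J) (c := c) hsm x).trans ?_
      rw [← hK]
      have hGx := hGp x
      have hGyx := hGy x
      have hle : G A b (N J (x - c) + r ^ 2) ≤ G0 := by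
        have h3 : R ^ 2 ≤ N J (x - c) + r ^ 2 := by
          have h4 := N_ge J (x - c)
          have h5 : R ^ 2 ≤ ‖x - c‖ ^ 2 := pow_le_pow_left₀ hR.le hx 2
          linarith
        rw [hG0]
        unfold G
        have h6 : (N J (x - c) + r ^ 2)⁻¹ ≤ (R ^ 2)⁻¹ := inv_anti₀ (by positivity) h3
        have h7 : (N J (x - c) + r ^ 2) ^ (b - 1) ≤ (R ^ 2) ^ (b - 1) :=
          Real.rpow_le_rpow_of_nonpos (by positivity) h3 (by linarith)
        have h8 := mul_le_mul_of_nonneg_left h7 hA0.le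
        linarith
      have hΘ0 := hΘ.nonneg x
      have hΘ1 := hΘ.le_one x
      have e2 : |h x| ≤ G A b (N J (x - c) + r ^ 2) := by
        rw [hh]
        dsimp only
        rw [abs_of_nonneg (mul_nonneg hΘ0 hGx.le)]
        exact mul_le_of_le_one_left hGx.le hΘ1
      have e3 : ‖fderiv ℝ h x‖ * ‖x - c‖ ≤
          (2 * K ^ 2 + 2 * D) * G A b (N J (x - c) + r ^ 2) := by
        have h9 : ‖fderiv ℝ h x‖ ≤ |G' A b (N J (x - c) + r ^ 2)| * (2 * K ^ 2 * ‖x - c‖) +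
            G A b (N J (x - c) + r ^ 2) * (D / R) := by
          rw [hfd x]
          refine (norm_add_le _ _).trans (add_le_add ?_ ?_)
          · rw [norm_smul, norm_smul, Real.norm_of_nonneg hΘ0, Real.norm_eq_abs]
            refine (mul_le_of_le_one_left (by positivity) hΘ1).trans ?_
            exact mul_le_mul_of_nonneg_left (hDN x) (abs_nonneg _)
          · rw [norm_smul, Real.norm_of_nonneg hGx.le]
            exact mul_le_mul_of_nonneg_left (hΘ.fd x) hGx.le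
        generalize G A b (N J (x - c) + r ^ 2) = g at *
        generalize G' A b (N J (x - c) + r ^ 2) = g' at *
        have h10 := mul_le_mul_of_nonneg_right h9 (norm_nonneg (x - c))
        refine h10.trans ?_
        have h11 : g * (D / R) * ‖x - c‖ ≤ g * (D / R) * (2 * R) := by gcongr
        have h12 : g * (D / R) * (2 * R) = 2 * D * g := by field_simp
        have h13 := mul_le_mul_of_nonneg_left hGyx (by positivity : 0 ≤ 2 * K ^ 2)
        calc (|g'| * (2 * K ^ 2 * ‖x - c‖) + g * (D / R)) * ‖x - c‖ =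
            2 * K ^ 2 * (|g'| * ‖x - c‖ ^ 2) + g * (D / R) * ‖x - c‖ := by ring
          _ ≤ 2 * K ^ 2 * g + 2 * D * g := by linarith
          _ = _ := by ring
      calc 4 * K * (‖fderiv ℝ h x‖ * ‖x - c‖ + |h x|) ≤
          4 * K * ((2 * K ^ 2 + 2 * D) * G A b (N J (x - c) + r ^ 2) +
            G A b (N J (x - c) + r ^ 2)) := by gcongr
        _ = 4 * K * (2 * K ^ 2 + 2 * D + 1) * G A b (N J (x - c) + r ^ 2) := by ring
        _ ≤ _ := by gcongr
  · intro x h2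
    have e1 : fderiv ℝ h x = 0 := by
      rw [hfd x, hΘ.zero x h2, hΘ.fd_out h2, zero_smul, smul_zero, add_zero]
    have e2 : h x = 0 := by
      rw [hh]
      dsimp only
      rw [hΘ.zero x h2, zero_mul]
    have h3 := tau_norm (J := J) (c := c) hsm x
    rw [e1, e2, norm_zero, zero_mul, abs_zero, add_zero, mul_zero] at h3
    exact norm_le_zero_iff.1 h3

end Pool.Agent.Q235.SZ
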