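import Pool.Agent.Q235.SZ.Ext2
import Pool.Agent.Q235.SZ.Psh3

/-!
# Removing an isolated singularity of order less than two: the local construction
-/

set_option autoImplicit false

open Set Filter Topology MeasureTheory
open scoped Manifold ContDiff Pointwise

noncomputable section

namespace Pool.Agent.Q235.SZ

open Pool.Agent.Y501.SY Pool.Agent.Y515.SY

variable {d : ℕ}

theorem pair_le (η : Al d 2) (T : E d →L[ℝ] E d) (v : E d) {S b : ℝ} (hS : ‖T‖ ≤ S)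
    (hb : ‖η‖ ≤ b) : |η ![v, T v]| ≤ b * S * ‖v‖ ^ 2 := by
  have hb0 : 0 ≤ b := (norm_nonneg _).trans hb
  have hS0 : 0 ≤ S := (norm_nonneg _).trans hS
  have h1 := two_bound η v (T v)
  have h2 : ‖T v‖ ≤ S * ‖v‖ := (T.le_opNorm v).trans (mul_le_mul_of_nonneg_right hS (norm_nonneg _))
  calc |η ![v, T v]| ≤ ‖η‖ * (‖v‖ * ‖T v‖) := h1
    _ ≤ b * (‖v‖ * (S * ‖v‖)) := by gcongr
    _ = _ := by ring

theorem loc_form (hd : 4 ≤ d) {c : E d} {R₀ : ℝ} {k : Set (E d)} {s : E d → Al d 2}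
    (h : Sing c R₀ k s)
    (hlit : ∀ e : ℝ, 0 < e → ∃ ρ : ℝ, 0 < ρ ∧ ∀ p ∈ Metric.ball c R₀ \ k, ‖p - c‖ ≤ ρ →
      ‖p - c‖ ^ 2 * ‖s p‖ ≤ e)
    {J : E d →L[ℝ] E d} (hJ : ∀ v, J (J v) = -v) (Js : E d → E d →L[ℝ] E d) {L a : ℝ}
    (hL : 0 ≤ L) (ha : 0 < a) (ha1 : a ≤ 1)
    (hJs : ∀ x ∈ Metric.ball c R₀, ‖Js x - J‖ ≤ L * ‖x - c‖ ^ a) {c₀ : ℝ} (hc₀ : 0 < c₀)
    (hpos : ∀ p ∈ Metric.ball c R₀ \ k, ∀ v : E d, c₀ * ‖v‖ ^ 2 ≤ s p ![v, Js p v]) :
    ∃ (s' : E d → Al d 2) (r₀ B' c' : ℝ), 0 < r₀ ∧ r₀ ≤ R₀ / 2 ∧ 0 < c' ∧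
      ContDiffOn ℝ ∞ s' (Metric.ball c R₀ \ (k \ Metric.ball c r₀)) ∧
      (∀ p ∈ Metric.ball c R₀ \ (k \ Metric.ball c r₀), extDeriv s' p = 0) ∧
      (∀ p, R₀ / 2 ≤ ‖p - c‖ → s' p = s p) ∧
      (∀ p ∈ Metric.ball c R₀ \ (k \ Metric.ball c r₀), ∀ v : E d,
        c' * ‖v‖ ^ 2 ≤ s' p ![v, Js p v]) ∧
      ∀ p ∈ Metric.ball c R₀ \ (k \ Metric.ball c r₀), ‖s' p‖ ≤ B' := by
  have hR0 : 0 < R₀ := by
    have h1 := h.sub h.mem
    rw [Metric.mem_ball, dist_self] at h1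
    exact h1
  have hmb : ∀ (p : E d) (t : ℝ), p ∈ Metric.ball c t ↔ ‖p - c‖ < t := fun p t => by
    rw [Metric.mem_ball, dist_eq_norm]
  obtain ⟨R₁, hR₁⟩ : ∃ R₁, R₁ = R₀ / 2 := ⟨_, rfl⟩
  have hR10 : 0 < R₁ := by rw [hR₁]; positivity
  have hin : ∀ x, ‖x - c‖ ≤ R₁ → x ∈ Metric.ball c R₀ := fun x hx => by
    rw [hmb]
    linarith
  obtain ⟨R, C, c₁, hR, hRR, hc₁, hC, hpsh⟩ := psh_form hJ c Js hR10 hL ha ha1
    fun x hx => hJs x (hin x hx)
  obtain ⟨M, hM, hext⟩ := ext_form d hd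
  obtain ⟨S, hS⟩ : ∃ S, S = ‖J‖ + L * R₁ ^ a := ⟨_, rfl⟩
  have hS0 : 0 ≤ S := by rw [hS]; positivity
  have hSb : ∀ x, ‖x - c‖ ≤ R₁ → ‖Js x‖ ≤ S := by
    intro x hx
    have h1 : ‖Js x‖ ≤ ‖J‖ + ‖Js x - J‖ := by
      have := norm_add_le J (Js x - J)
      rwa [add_sub_cancel] at this
    have h2 := hJs x (hin x hx)
    have h3 : ‖x - c‖ ^ a ≤ R₁ ^ a := Real.rpow_le_rpow (norm_nonneg _) hx ha.le
    have h4 := mul_le_mul_of_nonneg_left h3 hL
    rw [hS]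
    linarith
  obtain ⟨H, hH⟩ : ∃ H, H = M * S / c₁ + 1 := ⟨_, rfl⟩
  have hH0 : 0 < H := by rw [hH]; positivity
  obtain ⟨e, he, heC⟩ : ∃ e : ℝ, 0 < e ∧ e * (H * C * S) ≤ c₀ / 2 := by
    refine ⟨c₀ / (2 * (H * C * S + 1)), by positivity, ?_⟩
    rw [div_mul_eq_mul_div, div_le_div_iff₀ (by positivity) two_pos]
    have : 0 ≤ H * C * S := by positivity
    nlinarith
  obtain ⟨ρ, hρ, hse⟩ := hlit e he
  obtain ⟨r, hr, hr1, hr2, hr3⟩ : ∃ r : ℝ, 0 < r ∧ 4 * r ≤ R ∧ 4 * r ≤ ρ ∧ 4 * r < R₀ := by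
    refine ⟨min (R / 4) (min (ρ / 4) (R₀ / 8)), by positivity, ?_, ?_, ?_⟩
    · have := min_le_left (R / 4) (min (ρ / 4) (R₀ / 8))
      linarith
    · have := (min_le_right (R / 4) (min (ρ / 4) (R₀ / 8))).trans (min_le_left _ _)
      linarith
    · have := (min_le_right (R / 4) (min (ρ / 4) (R₀ / 8))).trans (min_le_right _ _)
      linarith
  obtain ⟨w, w1, w2, w3, w4⟩ := hext c R₀ k s r e h hr hr3 he.le
    fun p hp hp2 => hse p hp (hp2.trans hr2)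
  obtain ⟨τ, t1, t2, t3, t4, t5, t6⟩ := hpsh r hr hr1
  have hdτ : ∀ p, DifferentiableAt ℝ τ p := fun p => t1.differentiable (by simp) p
  have hΩo : IsOpen (Metric.ball c R₀ \ (k \ Metric.ball c (2 * r))) := by
    have h1 : Metric.ball c R₀ \ (k \ Metric.ball c (2 * r)) =
        (Metric.ball c R₀ \ k) ∪ Metric.ball c (2 * r) := by
      ext p
      constructor
      · intro hp
        by_cases hk : p ∈ k
        · refine Or.inr ?_
          by_contra hn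
          exact hp.2 ⟨hk, hn⟩
        · exact Or.inl ⟨hp.1, hk⟩
      · rintro (h1 | h1)
        · exact ⟨h1.1, fun h' => h1.2 h'.1⟩
        · exact ⟨Metric.ball_subset_ball (by linarith) h1, fun h' => h'.2 h1⟩
    rw [h1]
    exact h.op.union Metric.isOpen_ball
  have hdw : ∀ p ∈ Metric.ball c R₀ \ (k \ Metric.ball c (2 * r)), DifferentiableAt ℝ w p :=
    fun p hp => (w1.contDiffAt (hΩo.mem_nhds hp)).differentiableAt (by simp)
  have hnk : ∀ p ∈ Metric.ball c R₀ \ (k \ Metric.ball c (2 * r)), 2 * r ≤ ‖p - c‖ →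
      p ∈ Metric.ball c R₀ \ k := fun p hp h1 =>
    ⟨hp.1, fun hk => hp.2 ⟨hk, fun h2 => by rw [hmb] at h2; linarith⟩⟩
  refine ⟨w + (H * e) • τ, 2 * r,
    max (M * (e / r ^ 2)) (1 / (4 * r ^ 2)) + H * e * (sSup ((fun p => ‖τ p‖) ''
      Metric.closedBall c R₀)),
    min (c₀ / 2) (c₁ * (e / r ^ 2)), by positivity, by linarith, by positivity, ?_, ?_, ?_, ?_, ?_⟩
  · exact w1.add (t1.contDiffOn.const_smul (H * e))
  · intro p hp
    rw [extDeriv_add (hdw p hp) ((hdτ p).const_smul _), w2 p hp, extDeriv_smul, t2 p, smul_zero,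
      add_zero]
  · intro p hp
    change w p + (H * e) • τ p = s p
    rw [w3 p (by linarith), t6 p (by linarith), smul_zero, add_zero]
  · intro p hp v
    have hsum : (w p + (H * e) • τ p) ![v, Js p v] =
        w p ![v, Js p v] + H * e * τ p ![v, Js p v] := rfl
    change _ ≤ (w p + (H * e) • τ p) ![v, Js p v]
    rw [hsum]
    have hv2 : 0 ≤ ‖v‖ ^ 2 := sq_nonneg _
    have hHe : 0 ≤ H * e := by positivity
    by_cases h1 : ‖p - c‖ < 2 * r
    · have h2 := t4 p h1.le v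
      have h3 := pair_le (w p) (Js p) v (hSb p (by linarith)) (w4 p h1)
      have h4 := (abs_le.1 h3).1
      have h5 := mul_le_mul_of_nonneg_left h2 hHe
      have h6 : H * e * (c₁ / r ^ 2 * ‖v‖ ^ 2) =
          M * (e / r ^ 2) * S * ‖v‖ ^ 2 + c₁ * (e / r ^ 2) * ‖v‖ ^ 2 := by
        rw [hH]
        field_simp
      have h7 : min (c₀ / 2) (c₁ * (e / r ^ 2)) * ‖v‖ ^ 2 ≤ c₁ * (e / r ^ 2) * ‖v‖ ^ 2 :=
        mul_le_mul_of_nonneg_right (min_le_right _ _) hv2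
      linarith
    · rw [not_lt] at h1
      rw [w3 p h1]
      have h2 := hpos p (hnk p hp h1) v
      have h7 : min (c₀ / 2) (c₁ * (e / r ^ 2)) * ‖v‖ ^ 2 ≤ c₀ / 2 * ‖v‖ ^ 2 :=
        mul_le_mul_of_nonneg_right (min_le_left _ _) hv2
      by_cases h3 : ‖p - c‖ < R
      · have h4 := mul_nonneg hHe (t3 p h3 v)
        have h5 : 0 ≤ c₀ / 2 * ‖v‖ ^ 2 := by positivity
        linarith
      · rw [not_lt] at h3
        by_cases h4 : 2 * R ≤ ‖p - c‖
        · rw [t6 p h4]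
          have h5 : (0 : Al d 2) ![v, Js p v] = 0 := rfl
          have h6 : 0 ≤ c₀ / 2 * ‖v‖ ^ 2 := by positivity
          rw [h5, mul_zero, add_zero]
          linarith
        · rw [not_le] at h4
          have h5 := pair_le (τ p) (Js p) v (hSb p (by linarith)) (t5 p h3)
          have h6 := mul_le_mul_of_nonneg_left (abs_le.1 h5).1 hHe
          have h8 := mul_le_mul_of_nonneg_right heC hv2
          have h9 : H * e * -(C * S * ‖v‖ ^ 2) = -(e * (H * C * S) * ‖v‖ ^ 2) := by ring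
          linarith
  · intro p hp
    have hbd : BddAbove ((fun p => ‖τ p‖) '' Metric.closedBall c R₀) :=
      (isCompact_closedBall c _).bddAbove_image t1.continuous.norm.continuousOn
    have h1 : ‖τ p‖ ≤ sSup ((fun p => ‖τ p‖) '' Metric.closedBall c R₀) :=
      le_csSup hbd ⟨p, Metric.ball_subset_closedBall hp.1, rfl⟩
    have h2 : ‖w p‖ ≤ max (M * (e / r ^ 2)) (1 / (4 * r ^ 2)) := by
      by_cases h3 : ‖p - c‖ < 2 * r
      · exact (w4 p h3).trans (le_max_left _ _)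
      · rw [not_lt] at h3
        refine le_trans ?_ (le_max_right _ _)
        rw [w3 p h3, le_div_iff₀ (by positivity), mul_comm]
        refine le_trans ?_ (h.bd p (hnk p hp h3))
        refine mul_le_mul_of_nonneg_right ?_ (norm_nonneg _)
        calc 4 * r ^ 2 = (2 * r) ^ 2 := by ring
          _ ≤ _ := pow_le_pow_left₀ (by positivity) h3 2
    have hHe : 0 ≤ H * e := by positivity
    refine (norm_add_le (w p) ((H * e) • τ p)).trans (add_le_add h2 ?_)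
    rw [norm_smul, Real.norm_of_nonneg hHe]
    exact mul_le_mul_of_nonneg_left h1 hHe

end Pool.Agent.Q235.SZ
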