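import Pool.Agent.Q235.SZ.Ker
import Pool.Agent.Y515.SY.RG

/-!
# Averages of an integrable two-form
-/

set_option autoImplicit false

open Set Filter Topology MeasureTheory
open scoped Manifold ContDiff

noncomputable section

namespace Pool.Agent.Q235.SZ

open Pool.Agent.Y501.SY Pool.Agent.Y515.SY

variable {d : ℕ}

theorem aff_int {F : Type*} [NormedAddCommGroup F] {Φ : E d → F} (h : Integrable Φ)
    (p : E d) {c : ℝ} (hc : c ≠ 0) : Integrable (fun y : E d => Φ (p + c • y)) := by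
  have h1 : Integrable (fun y : E d => Φ (p + y)) := h.comp_add_left p
  exact h1.comp_smul hc

theorem IIi_int {χ g f : E d → ℝ} (hg : Continuous g) (hgc : HasCompactSupport g)
    (hf : Integrable f) (p : E d) :
    Integrable (fun y => g y * f (p + χ p • y)) := by
  by_cases h0 : χ p = 0
  · rw [h0]
    simp only [zero_smul, add_zero]
    exact (hg.integrable_of_hasCompactSupport hgc).mul_const _
  · obtain ⟨C, hC⟩ := hg.bounded_above_of_compact_support hgc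
    exact (aff_int hf p h0).bdd_mul hg.aestronglyMeasurable (Eventually.of_forall hC)

theorem JJi_int {ρ χ : E d → ℝ} (hg : Continuous ρ) (hgc : HasCompactSupport ρ)
    {Φ : E d → Al d 2} (hf : Integrable Φ) (p : E d) :
    Integrable (fun y => ρ y •
      (Φ (p + χ p • y)).compContinuousLinearMap (LL (fderiv ℝ χ p) y)) := by
  have hc : Continuous (fun y : E d => LL (fderiv ℝ χ p) y) := by
    unfold LL
    exact continuous_const.add
      ((ContinuousLinearMap.smulRightL ℝ (E d) (E d) (fderiv ℝ χ p)).continuous)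
  by_cases h0 : χ p = 0
  · rw [h0]
    simp only [zero_smul, add_zero]
    refine Continuous.integrable_of_hasCompactSupport ?_ ?_
    · exact hg.smul (comp_cont.comp (continuous_const.prodMk hc))
    · exact hgc.smul_right
  · have hw : Continuous (fun y => ‖ρ y‖ * (1 + ‖fderiv ℝ χ p‖ * ‖y‖) ^ 2) := by fun_prop
    have hwc : HasCompactSupport (fun y => ‖ρ y‖ * (1 + ‖fderiv ℝ χ p‖ * ‖y‖) ^ 2) :=
      hgc.norm.mul_right
    obtain ⟨C, hC⟩ := hw.bounded_above_of_compact_support hwc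
    have h2 := aff_int hf p h0
    refine (h2.norm.const_mul C).mono' ?_ (Eventually.of_forall fun y => ?_)
    · exact hg.aestronglyMeasurable.smul (comp_cont.comp_aestronglyMeasurable
        (h2.aestronglyMeasurable.prodMk hc.aestronglyMeasurable))
    · rw [norm_smul]
      have h3 := comp_norm (Φ (p + χ p • y)) (LL (fderiv ℝ χ p) y)
      have h4 := LL_norm (fderiv ℝ χ p) y
      have h5 : ‖LL (fderiv ℝ χ p) y‖ ^ 2 ≤ (1 + ‖fderiv ℝ χ p‖ * ‖y‖) ^ 2 :=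
        pow_le_pow_left₀ (norm_nonneg _) h4 2
      have h6 := (le_abs_self _).trans (hC y)
      calc ‖ρ y‖ * ‖(Φ (p + χ p • y)).compContinuousLinearMap (LL (fderiv ℝ χ p) y)‖
          ≤ ‖ρ y‖ * (‖Φ (p + χ p • y)‖ * (1 + ‖fderiv ℝ χ p‖ * ‖y‖) ^ 2) := by
            refine mul_le_mul_of_nonneg_left (h3.trans ?_) (norm_nonneg _)
            exact mul_le_mul_of_nonneg_left h5 (norm_nonneg _)
        _ = (‖ρ y‖ * (1 + ‖fderiv ℝ χ p‖ * ‖y‖) ^ 2) * ‖Φ (p + χ p • y)‖ := by ring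
        _ ≤ C * ‖Φ (p + χ p • y)‖ := mul_le_mul_of_nonneg_right h6 (norm_nonneg _)

theorem JJi_apply {ρ χ : E d → ℝ} (hg : Continuous ρ) (hgc : HasCompactSupport ρ)
    {Φ : E d → Al d 2} (hf : Integrable Φ) (p v w : E d) :
    JJ ρ χ Φ p ![v, w] = ∫ y, ρ y *
      Φ (p + χ p • y) ![v + fderiv ℝ χ p v • y, w + fderiv ℝ χ p w • y] := by
  unfold JJ
  let L : (Al d 2) →L[ℝ] ℝ := ContinuousAlternatingMap.apply ℝ (E d) ℝ ![v, w]
  have hL : ∀ η : Al d 2, L η = η ![v, w] := fun η => rfl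
  rw [← hL, ← L.integral_comp_comm (JJi_int hg hgc hf p)]
  refine integral_congr_ae (Eventually.of_forall fun y => ?_)
  dsimp only
  rw [hL]
  change ρ y * ((Φ (p + χ p • y)).compContinuousLinearMap (LL (fderiv ℝ χ p) y)) ![v, w] = _
  rw [comp_pair]
  rfl

theorem JJi_add {ρ χ : E d → ℝ} (hg : Continuous ρ) (hgc : HasCompactSupport ρ)
    {Φ Ψ : E d → Al d 2} (hf : Integrable Φ) (hf' : Integrable Ψ) (p : E d) :
    JJ ρ χ (fun q => Φ q + Ψ q) p = JJ ρ χ Φ p + JJ ρ χ Ψ p := by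
  unfold JJ
  rw [← integral_add (JJi_int hg hgc hf p) (JJi_int hg hgc hf' p)]
  refine integral_congr_ae (Eventually.of_forall fun y => ?_)
  dsimp only
  rw [← smul_add]
  rfl

theorem ev_int {Φ : E d → Al d 2} (hf : Integrable Φ) (v w : E d) :
    Integrable (fun q => Φ q ![v, w]) :=
  (ContinuousAlternatingMap.apply ℝ (E d) ℝ ![v, w]).integrable_comp hf

theorem JJi_expand {ρ χ : E d → ℝ} (hg : Continuous ρ) (hgc : HasCompactSupport ρ)
    {Φ : E d → Al d 2} (hf : Integrable Φ) (p v w : E d) :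
    JJ ρ χ Φ p ![v, w] = II χ ρ (fun q => Φ q ![v, w]) p +
      fderiv ℝ χ p w * ∑ i, II χ (fun y => ρ y * y i) (fun q => Φ q ![v, bs i]) p +
      fderiv ℝ χ p v * ∑ i, II χ (fun y => ρ y * y i) (fun q => Φ q ![bs i, w]) p := by
  rw [JJi_apply hg hgc hf]
  have hgi : ∀ i : Fin d, Continuous (fun y : E d => ρ y * y i) := fun i =>
    hg.mul (EuclideanSpace.proj (𝕜 := ℝ) i).continuous
  have hgci : ∀ i : Fin d, HasCompactSupport (fun y : E d => ρ y * y i) := fun i =>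
    hgc.mul_right
  have i0 := IIi_int (χ := χ) hg hgc (ev_int hf v w) p
  have i1 := fun i => IIi_int (χ := χ) (hgi i) (hgci i) (ev_int hf v (bs i)) p
  have i2 := fun i => IIi_int (χ := χ) (hgi i) (hgci i) (ev_int hf (bs i) w) p
  have j1 : Integrable (fun y => fderiv ℝ χ p w *
      ∑ i, ρ y * y i * Φ (p + χ p • y) ![v, bs i]) :=
    (integrable_finsetSum _ (fun i _ => i1 i)).const_mul _
  have j2 : Integrable (fun y => fderiv ℝ χ p v *
      ∑ i, ρ y * y i * Φ (p + χ p • y) ![bs i, w]) :=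
    (integrable_finsetSum _ (fun i _ => i2 i)).const_mul _
  have j3 : Integrable (fun y => ρ y * Φ (p + χ p • y) ![v, w] + fderiv ℝ χ p w *
      ∑ i, ρ y * y i * Φ (p + χ p • y) ![v, bs i]) := i0.add j1
  unfold II
  rw [← integral_finsetSum _ (fun i _ => i1 i), ← integral_finsetSum _ (fun i _ => i2 i),
    ← integral_const_mul, ← integral_const_mul, ← integral_add i0 j1, ← integral_add j3 j2]
  refine integral_congr_ae (Eventually.of_forall fun y => ?_)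
  dsimp only
  rw [expand2, right_sum (Φ (p + χ p • y)) v y, left_sum (Φ (p + χ p • y)) y w]
  simp only [Finset.mul_sum, mul_add]
  congr 1
  · congr 1
    refine Finset.sum_congr rfl fun i _ => ?_
    ring
  · refine Finset.sum_congr rfl fun i _ => ?_
    ring

theorem IIi_smooth {χ : E d → ℝ} (hχ : ContDiff ℝ ∞ χ) {p₀ : E d} (hp : 0 < χ p₀) {g : E d → ℝ}
    (hg : ContDiff ℝ ∞ g) (hgc : HasCompactSupport g) {f : E d → ℝ} (hf : Integrable f) :
    ContDiffAt ℝ ∞ (II χ g f) p₀ :=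
  (kerI d g χ hg hgc hχ p₀ hp).1 f hf

theorem JJi_smooth {χ : E d → ℝ} (hχ : ContDiff ℝ ∞ χ) {p₀ : E d} (hp : 0 < χ p₀) {ρ : E d → ℝ}
    (hg : ContDiff ℝ ∞ ρ) (hgc : HasCompactSupport ρ) {Φ : E d → Al d 2}
    (hf : Integrable Φ) : ContDiffAt ℝ ∞ (JJ ρ χ Φ) p₀ := by
  apply contDiffAt_of_eval
  intro v w
  have e1 : (fun p => JJ ρ χ Φ p ![v, w]) = fun p => II χ ρ (fun q => Φ q ![v, w]) p +
      fderiv ℝ χ p w * ∑ i, II χ (fun y => ρ y * y i) (fun q => Φ q ![v, bs i]) p +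
      fderiv ℝ χ p v * ∑ i, II χ (fun y => ρ y * y i) (fun q => Φ q ![bs i, w]) p := by
    funext p
    exact JJi_expand hg.continuous hgc hf p v w
  rw [e1]
  have hd : ContDiff ℝ ∞ (fderiv ℝ χ) := hχ.fderiv_right (by simp)
  have hdu : ∀ u : E d, ContDiffAt ℝ ∞ (fun p => fderiv ℝ χ p u) p₀ := fun u =>
    hd.contDiffAt.clm_apply contDiffAt_const
  have hgi : ∀ i : Fin d, ContDiff ℝ ∞ (fun y : E d => ρ y * y i) := fun i =>
    hg.mul (EuclideanSpace.proj (𝕜 := ℝ) i).contDiff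
  have hgci : ∀ i : Fin d, HasCompactSupport (fun y : E d => ρ y * y i) := fun i =>
    hgc.mul_right
  refine ((IIi_smooth hχ hp hg hgc (ev_int hf v w)).add
    ((hdu w).mul (ContDiffAt.sum fun i _ => ?_))).add ((hdu v).mul (ContDiffAt.sum fun i _ => ?_))
  · exact IIi_smooth hχ hp (hgi i) (hgci i) (ev_int hf v (bs i))
  · exact IIi_smooth hχ hp (hgi i) (hgci i) (ev_int hf (bs i) w)

/-- the bounds of the scalar averages -/
theorem IIi_bd {χ : E d → ℝ} (hχ : ContDiff ℝ ∞ χ) {p₀ : E d} (hp : 0 < χ p₀) {g : E d → ℝ}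
    (hg : ContDiff ℝ ∞ g) (hgc : HasCompactSupport g) : ∃ C : ℝ, 0 ≤ C ∧
    ∀ (v w : E d) (Φ : E d → Al d 2), Integrable Φ →
      |II χ g (fun q => Φ q ![v, w]) p₀| ≤ C * (‖v‖ * ‖w‖) * ∫ x, ‖Φ x‖ ∧
      ‖fderiv ℝ (II χ g (fun q => Φ q ![v, w])) p₀‖ ≤ C * (‖v‖ * ‖w‖) * ∫ x, ‖Φ x‖ := by
  obtain ⟨C, hC⟩ := (kerI d g χ hg hgc hχ p₀ hp).2
  refine ⟨|C|, abs_nonneg _, ?_⟩
  intro v w Φ hi
  have hi2 : Integrable (fun q => Φ q ![v, w]) := ev_int hi v w
  obtain ⟨h1, h2⟩ := hC (fun q => Φ q ![v, w]) hi2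
  have h3 : ∫ x, |Φ x ![v, w]| ≤ (‖v‖ * ‖w‖) * ∫ x, ‖Φ x‖ := by
    rw [← integral_const_mul]
    refine integral_mono hi2.abs (hi.norm.const_mul _) fun x => ?_
    have := two_bound (Φ x) v w
    dsimp only
    linarith
  have h4 : C * ∫ x, |Φ x ![v, w]| ≤ |C| * (‖v‖ * ‖w‖) * ∫ x, ‖Φ x‖ := by
    have h5 : 0 ≤ ∫ x, |Φ x ![v, w]| := integral_nonneg fun x => abs_nonneg _
    calc C * ∫ x, |Φ x ![v, w]| ≤ |C| * ∫ x, |Φ x ![v, w]| :=
          mul_le_mul_of_nonneg_right (le_abs_self _) h5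
      _ ≤ |C| * ((‖v‖ * ‖w‖) * ∫ x, ‖Φ x‖) := mul_le_mul_of_nonneg_left h3 (abs_nonneg _)
      _ = _ := by ring
  exact ⟨h1.trans h4, h2.trans h4⟩

/-- the derivative of the average is small if the form is small in mean -/
theorem JJi_fd {χ : E d → ℝ} (hχ : ContDiff ℝ ∞ χ) {p₀ : E d} (hp : 0 < χ p₀) {ρ : E d → ℝ}
    (hg : ContDiff ℝ ∞ ρ) (hgc : HasCompactSupport ρ) (v w : E d) : ∃ C : ℝ, 0 ≤ C ∧
    ∀ (Φ : E d → Al d 2), Integrable Φ →
      ‖fderiv ℝ (fun p => JJ ρ χ Φ p ![v, w]) p₀‖ ≤ C * ∫ x, ‖Φ x‖ := by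
  have hd : ContDiff ℝ ∞ (fderiv ℝ χ) := hχ.fderiv_right (by simp)
  have hdu : ∀ u : E d, DifferentiableAt ℝ (fun p => fderiv ℝ χ p u) p₀ := fun u =>
    (hd.contDiffAt.clm_apply contDiffAt_const).differentiableAt (by simp)
  have hgi : ∀ i : Fin d, ContDiff ℝ ∞ (fun y : E d => ρ y * y i) := fun i =>
    hg.mul (EuclideanSpace.proj (𝕜 := ℝ) i).contDiff
  have hgci : ∀ i : Fin d, HasCompactSupport (fun y : E d => ρ y * y i) := fun i =>
    hgc.mul_right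
  obtain ⟨C0, hC0, h0⟩ := IIi_bd hχ hp hg hgc
  choose Ci hCi hi using fun i => IIi_bd hχ hp (hgi i) (hgci i)
  set β : ℝ := fderiv ℝ χ p₀ w
  set α : ℝ := fderiv ℝ χ p₀ v
  set β' := fderiv ℝ (fun p => fderiv ℝ χ p w) p₀
  set α' := fderiv ℝ (fun p => fderiv ℝ χ p v) p₀
  refine ⟨C0 * (‖v‖ * ‖w‖) + (|β| + ‖β'‖) * (∑ i, Ci i * (‖v‖ * ‖bs i‖)) +
    (|α| + ‖α'‖) * (∑ i, Ci i * (‖bs i‖ * ‖w‖)), ?_, ?_⟩
  · have h1 : 0 ≤ ∑ i, Ci i * (‖v‖ * ‖bs i‖) :=
      Finset.sum_nonneg fun i _ => mul_nonneg (hCi i) (by positivity)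
    have h2 : 0 ≤ ∑ i, Ci i * (‖bs i‖ * ‖w‖) :=
      Finset.sum_nonneg fun i _ => mul_nonneg (hCi i) (by positivity)
    positivity
  intro Φ hint
  set m : ℝ := ∫ x, ‖Φ x‖
  have e1 : (fun p => JJ ρ χ Φ p ![v, w]) = fun p => II χ ρ (fun q => Φ q ![v, w]) p +
      fderiv ℝ χ p w * ∑ i, II χ (fun y => ρ y * y i) (fun q => Φ q ![v, bs i]) p +
      fderiv ℝ χ p v * ∑ i, II χ (fun y => ρ y * y i) (fun q => Φ q ![bs i, w]) p := by
    funext p
    exact JJi_expand hg.continuous hgc hint p v w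
  rw [e1]
  have d0 : HasFDerivAt (II χ ρ (fun q => Φ q ![v, w]))
      (fderiv ℝ (II χ ρ (fun q => Φ q ![v, w])) p₀) p₀ :=
    ((IIi_smooth hχ hp hg hgc (ev_int hint v w)).differentiableAt
      (by simp)).hasFDerivAt
  have d1 : ∀ i : Fin d, HasFDerivAt (II χ (fun y => ρ y * y i) (fun q => Φ q ![v, bs i]))
      (fderiv ℝ (II χ (fun y => ρ y * y i) (fun q => Φ q ![v, bs i])) p₀) p₀ := fun i =>
    ((IIi_smooth hχ hp (hgi i) (hgci i) (ev_int hint v (bs i))).differentiableAt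
      (by simp)).hasFDerivAt
  have d2 : ∀ i : Fin d, HasFDerivAt (II χ (fun y => ρ y * y i) (fun q => Φ q ![bs i, w]))
      (fderiv ℝ (II χ (fun y => ρ y * y i) (fun q => Φ q ![bs i, w])) p₀) p₀ := fun i =>
    ((IIi_smooth hχ hp (hgi i) (hgci i) (ev_int hint (bs i) w)).differentiableAt
      (by simp)).hasFDerivAt
  have s1 := HasFDerivAt.fun_sum (u := Finset.univ) fun i _ => d1 i
  have s2 := HasFDerivAt.fun_sum (u := Finset.univ) fun i _ => d2 i
  have hD := (d0.add ((hdu w).hasFDerivAt.mul s1)).add ((hdu v).hasFDerivAt.mul s2)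
  have hD' := hD.fderiv
  have hm1 : |∑ i, II χ (fun y => ρ y * y i) (fun q => Φ q ![v, bs i]) p₀| ≤
      (∑ i, Ci i * (‖v‖ * ‖bs i‖)) * m := by
    rw [Finset.sum_mul]
    exact (Finset.abs_sum_le_sum_abs _ _).trans
      (Finset.sum_le_sum fun i _ => (hi i v (bs i) Φ hint).1)
  have hm2 : |∑ i, II χ (fun y => ρ y * y i) (fun q => Φ q ![bs i, w]) p₀| ≤
      (∑ i, Ci i * (‖bs i‖ * ‖w‖)) * m := by
    rw [Finset.sum_mul]
    exact (Finset.abs_sum_le_sum_abs _ _).trans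
      (Finset.sum_le_sum fun i _ => (hi i (bs i) w Φ hint).1)
  have hn1 : ‖∑ i, fderiv ℝ (II χ (fun y => ρ y * y i) (fun q => Φ q ![v, bs i])) p₀‖ ≤
      (∑ i, Ci i * (‖v‖ * ‖bs i‖)) * m := by
    rw [Finset.sum_mul]
    exact (norm_sum_le _ _).trans
      (Finset.sum_le_sum fun i _ => (hi i v (bs i) Φ hint).2)
  have hn2 : ‖∑ i, fderiv ℝ (II χ (fun y => ρ y * y i) (fun q => Φ q ![bs i, w])) p₀‖ ≤
      (∑ i, Ci i * (‖bs i‖ * ‖w‖)) * m := by
    rw [Finset.sum_mul]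
    exact (norm_sum_le _ _).trans
      (Finset.sum_le_sum fun i _ => (hi i (bs i) w Φ hint).2)
  have hz := (h0 v w Φ hint).2
  refine (le_of_eq (congrArg norm hD')).trans ?_
  refine (norm_add_le _ _).trans ?_
  refine (add_le_add (norm_add_le _ _) le_rfl).trans ?_
  refine (add_le_add (add_le_add le_rfl (norm_add_le _ _)) (norm_add_le _ _)).trans ?_
  rw [norm_smul, norm_smul, norm_smul, norm_smul, Real.norm_eq_abs, Real.norm_eq_abs,
    Real.norm_eq_abs, Real.norm_eq_abs]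
  have k1 := mul_le_mul_of_nonneg_left hn1 (abs_nonneg β)
  have k2 := mul_le_mul_of_nonneg_right hm1 (norm_nonneg β')
  have k3 := mul_le_mul_of_nonneg_left hn2 (abs_nonneg α)
  have k4 := mul_le_mul_of_nonneg_right hm2 (norm_nonneg α')
  calc _ ≤ C0 * (‖v‖ * ‖w‖) * m + (|β| * ((∑ i, Ci i * (‖v‖ * ‖bs i‖)) * m) +
        (∑ i, Ci i * (‖v‖ * ‖bs i‖)) * m * ‖β'‖) +
        (|α| * ((∑ i, Ci i * (‖bs i‖ * ‖w‖)) * m) +
        (∑ i, Ci i * (‖bs i‖ * ‖w‖)) * m * ‖α'‖) := by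
        refine add_le_add (add_le_add hz (add_le_add k1 k2)) (add_le_add k3 k4)
    _ = _ := by ring

end Pool.Agent.Q235.SZ
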