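import Pool.Agent.Q235.SZ.Avg

/-!
# Averages of an integrable two-form: closedness
-/

set_option autoImplicit false

open Set Filter Topology MeasureTheory
open scoped Manifold ContDiff

noncomputable section

namespace Pool.Agent.Q235.SZ

open Pool.Agent.Y501.SY Pool.Agent.Y515.SY

variable {d : ℕ}

/-- cut-off functions with small energy, weighted with the form `Φ` -/
def WCap (Φ : E d → Al d 2) (k : Set (E d)) : Prop :=
  ∀ δ : ℝ, 0 < δ → ∃ η : E d → ℝ, ContDiff ℝ ∞ η ∧ (∀ x, 0 ≤ η x) ∧ (∀ x, η x ≤ 1) ∧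
    (∀ᶠ x in 𝓝ˢ k, η x = 1) ∧ HasCompactSupport η ∧ ∫ x, η x * ‖Φ x‖ ≤ δ ∧
    ∫ x, ‖fderiv ℝ η x‖ * ‖Φ x‖ ≤ δ

variable {V k : Set (E d)} {s : E d → Al d 2}

theorem JJi_closed {ρ χ : E d → ℝ} {ε : ℝ} (hε : 0 ≤ ε)
    (hρ : Moll ε ρ) (hχ : ContDiff ℝ ∞ χ) (hSM : S_SM)
    (hVk : IsOpen (V \ k)) (hs : ContDiffOn ℝ ∞ s (V \ k))
    (hcl : ∀ p ∈ V \ k, extDeriv s p = 0) (hi : Integrable ((V \ k).indicator s))
    {Q : Set (E d)} (hQV : Q ⊆ V) (hcap : WCap ((V \ k).indicator s) (k ∩ Q))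
    {p₀ : E d} (hp : 0 < χ p₀) (hball : ∀ y, ‖y‖ ≤ ε → p₀ + χ p₀ • y ∈ Q) :
    extDeriv (JJ ρ χ ((V \ k).indicator s)) p₀ = 0 := by
  set Φ : E d → Al d 2 := (V \ k).indicator s with hΦ
  have hρc := moll_cs hρ
  apply ContinuousAlternatingMap.ext
  intro u
  change extDeriv (JJ ρ χ Φ) p₀ u = 0
  choose Ci hCi0 hCi using fun i : Fin 3 =>
    JJi_fd hχ hp hρ.smooth hρc (i.removeNth u 0) (i.removeNth u 1)
  obtain ⟨C1, hC1⟩ := (kerI d ρ χ hρ.smooth hρc hχ p₀ hp).2
  set l : ℝ := 1 + ‖fderiv ℝ χ p₀‖ * ε with hl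
  have hl0 : 0 ≤ l := by positivity
  have key : ∀ δ' : ℝ, 0 < δ' → |extDeriv (JJ ρ χ Φ) p₀ u| ≤
      ((3 * l ^ 3) * |C1| * (∏ i, ‖u i‖) + ∑ i, Ci i * ‖u i‖) * δ' := by
    intro δ' hδ'
    obtain ⟨η, hη, hη0, hη1, hηk, hηc, hηi1, hηi2⟩ := hcap δ' hδ'
    set s1 : E d → Al d 2 := fun q => (1 - η q) • Φ q with hs1
    set s2 : E d → Al d 2 := fun q => η q • Φ q with hs2
    have hf2 : Integrable s2 := by
      refine hi.bdd_smul 1 hη.continuous.aestronglyMeasurable (Eventually.of_forall fun x => ?_)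
      rw [Real.norm_of_nonneg (hη0 x)]
      exact hη1 x
    have hf1 : Integrable s1 := by
      have hc : Continuous (fun x => 1 - η x) := continuous_const.sub hη.continuous
      refine hi.bdd_smul 1 hc.aestronglyMeasurable (Eventually.of_forall fun x => ?_)
      have h0 : ‖1 - η x‖ = 1 - η x := Real.norm_of_nonneg (by linarith [hη1 x])
      change ‖1 - η x‖ ≤ 1
      rw [h0]
      linarith [hη0 x]
    have hsum : JJ ρ χ Φ = JJ ρ χ s1 + JJ ρ χ s2 := by
      funext p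
      rw [Pi.add_apply, ← JJi_add hρ.smooth.continuous hρc hf1 hf2]
      congr 1
      funext q
      simp only [hs1, hs2]
      rw [← add_smul, sub_add_cancel, one_smul]
    have hd1 : DifferentiableAt ℝ (JJ ρ χ s1) p₀ :=
      (JJi_smooth hχ hp hρ.smooth hρc hf1).differentiableAt (by simp)
    have hd2 : DifferentiableAt ℝ (JJ ρ χ s2) p₀ :=
      (JJi_smooth hχ hp hρ.smooth hρc hf2).differentiableAt (by simp)
    rw [hsum, extDeriv_add hd1 hd2]
    -- the small part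
    have hm2 : ∫ x, ‖s2 x‖ ≤ δ' := by
      refine le_trans (le_of_eq (integral_congr_ae (Eventually.of_forall fun x => ?_))) hηi1
      simp only [hs2]
      rw [norm_smul, Real.norm_of_nonneg (hη0 x)]
    have part2 : |extDeriv (JJ ρ χ s2) p₀ u| ≤ (∑ i, Ci i * ‖u i‖) * δ' := by
      rw [extDeriv_apply hd2, Finset.sum_mul]
      refine (Finset.abs_sum_le_sum_abs _ _).trans (Finset.sum_le_sum fun i _ => ?_)
      have h1 : |(-1 : ℤ) ^ i.val • fderiv ℝ (fun x => JJ ρ χ s2 x (i.removeNth u)) p₀ (u i)| =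
          |fderiv ℝ (fun x => JJ ρ χ s2 x (i.removeNth u)) p₀ (u i)| := by
        rcases neg_one_pow_eq_or ℤ i.val with h | h <;> rw [h] <;> simp
      have h2 : |fderiv ℝ (fun x => JJ ρ χ s2 x (i.removeNth u)) p₀ (u i)| ≤
          Ci i * ‖u i‖ * δ' := by
        have h3 := (fderiv ℝ (fun x => JJ ρ χ s2 x (i.removeNth u)) p₀).le_opNorm (u i)
        have h4 := hCi i s2 hf2
        rw [← pair_eta (i.removeNth u)] at h4
        rw [Real.norm_eq_abs] at h3
        refine h3.trans ?_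
        calc _ ≤ Ci i * δ' * ‖u i‖ :=
              mul_le_mul_of_nonneg_right (h4.trans (mul_le_mul_of_nonneg_left hm2 (hCi0 i)))
                (norm_nonneg _)
          _ = _ := by ring
      refine le_trans (le_of_eq ?_) h2
      convert h1 using 2
    -- the smooth part
    set O : Set (E d) := (V \ k) ∪ interior {x | η x = 1} with hO
    have hOo : IsOpen O := hVk.union isOpen_interior
    have hev1 : ∀ q ∈ interior {x | η x = 1}, s1 =ᶠ[𝓝 q] fun _ => 0 := by
      intro q hq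
      filter_upwards [isOpen_interior.mem_nhds hq] with x hx
      have hx1 : x ∈ {x | η x = 1} := interior_subset hx
      rw [mem_ofPred_eq] at hx1
      simp only [hs1]
      rw [hx1, sub_self, zero_smul]
    have hev2 : ∀ q ∈ V \ k, s1 =ᶠ[𝓝 q] fun x => (1 - η x) • s x := by
      intro q hq
      filter_upwards [ind_ev (s := s) hVk hq] with x hx
      simp only [hs1, hΦ]
      rw [hx]
    have hη' : ContDiff ℝ ∞ (fun x => 1 - η x) := contDiff_const.sub hη
    have hsm1 : ContDiffOn ℝ ∞ s1 O := by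
      intro q hq
      refine ContDiffAt.contDiffWithinAt ?_
      rcases hq with hq | hq
      · exact (hη'.contDiffAt.smul (hs.contDiffAt (hVk.mem_nhds hq))).congr_of_eventuallyEq
          (hev2 q hq)
      · exact contDiffAt_const.congr_of_eventuallyEq (hev1 q hq)
    have hkint : ∀ q ∈ k ∩ Q, q ∈ interior {x | η x = 1} := by
      intro q hq
      rw [mem_interior_iff_mem_nhds]
      exact (eventually_nhdsSet_iff_forall.1 hηk) q hq
    have hQO : ∀ y, ‖y‖ ≤ ε → p₀ + χ p₀ • y ∈ O := by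
      intro y hy
      have h1 := hball y hy
      by_cases hk' : p₀ + χ p₀ • y ∈ k
      · exact Or.inr (hkint _ ⟨hk', h1⟩)
      · exact Or.inl ⟨hQV h1, hk'⟩
    obtain ⟨-, h2⟩ := JJ_sm hSM hρ hχ hOo hsm1 hQO
    have hdη : Continuous (fun x => ‖fderiv ℝ η x‖) := (hη.continuous_fderiv (by simp)).norm
    obtain ⟨M, hM⟩ : ∃ M, ∀ x, ‖fderiv ℝ η x‖ ≤ M :=
      (hη.continuous_fderiv (by simp)).bounded_above_of_compact_support (hηc.fderiv ℝ)
    have hfi : Integrable (fun x => ‖fderiv ℝ η x‖ * ‖Φ x‖) := by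
      refine hi.norm.bdd_mul (c := M) hdη.aestronglyMeasurable (Eventually.of_forall fun x => ?_)
      rw [norm_norm]
      exact hM x
    have hgi : Integrable (fun y => ρ y * (fun x => ‖fderiv ℝ η x‖ * ‖Φ x‖) (p₀ + χ p₀ • y)) :=
      IIi_int (χ := χ) hρ.smooth.continuous hρc hfi p₀
    have h3 := h2 (fun y => (3 * l ^ 3) *
        (ρ y * (fun x => ‖fderiv ℝ η x‖ * ‖Φ x‖) (p₀ + χ p₀ • y)))
      (hgi.const_mul _) (fun y => mul_nonneg (by positivity)
        (mul_nonneg (hρ.nonneg y) (by positivity))) (fun y hy => by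
        dsimp only
        set q : E d := p₀ + χ p₀ • y with hq
        have hqQ : q ∈ Q := hball y hy
        have h4 : ‖extDeriv s1 q‖ ≤ 3 * (‖fderiv ℝ η q‖ * ‖Φ q‖) := by
          by_cases hqk : q ∈ k
          · rw [ext_zero (hev1 q (hkint q ⟨hqk, hqQ⟩)), norm_zero]
            positivity
          · have hqVk : q ∈ V \ k := ⟨hQV hqQ, hqk⟩
            rw [(hev2 q hqVk).extDeriv_eq, ext_smul ((hη'.differentiable (by simp)) q)
              ((hs.contDiffAt (hVk.mem_nhds hqVk)).differentiableAt (by simp)), hcl q hqVk,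
              smul_zero, zero_add]
            refine (wedge3_norm _ _).trans ?_
            have h5 : fderiv ℝ (fun x => 1 - η x) q = -fderiv ℝ η q := fderiv_const_sub _
            rw [h5, norm_neg]
            have h6 : Φ q = s q := indicator_of_mem hqVk s
            rw [h6]
        have h5 : ‖LL (fderiv ℝ χ p₀) y‖ ≤ l := by
          refine (LL_norm _ _).trans ?_
          rw [hl]
          have := mul_le_mul_of_nonneg_left hy (norm_nonneg (fderiv ℝ χ p₀))
          linarith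
        have h6 : ‖(extDeriv s1 q).compContinuousLinearMap (LL (fderiv ℝ χ p₀) y)‖ ≤
            3 * (‖fderiv ℝ η q‖ * ‖Φ q‖) * l ^ 3 :=
          (comp3_norm _ _).trans (mul_le_mul h4 (pow_le_pow_left₀ (norm_nonneg _) h5 3)
            (by positivity) (by positivity))
        calc _ ≤ ρ y * (3 * (‖fderiv ℝ η q‖ * ‖Φ q‖) * l ^ 3) :=
              mul_le_mul_of_nonneg_left h6 (hρ.nonneg y)
          _ = _ := by ring)
    have part1 : |extDeriv (JJ ρ χ s1) p₀ u| ≤
        (3 * l ^ 3) * |C1| * (∏ i, ‖u i‖) * δ' := by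
      have h4 := (extDeriv (JJ ρ χ s1) p₀).le_opNorm u
      rw [Real.norm_eq_abs] at h4
      rw [integral_const_mul] at h3
      have h5 := (hC1 (fun x => ‖fderiv ℝ η x‖ * ‖Φ x‖) hfi).1
      have h8 : ∫ x, |‖fderiv ℝ η x‖ * ‖Φ x‖| ≤ δ' := by
        refine le_trans (le_of_eq (integral_congr_ae (Eventually.of_forall fun x => ?_))) hηi2
        exact abs_of_nonneg (by positivity)
      have h6 : ∫ y, ρ y * (fun x => ‖fderiv ℝ η x‖ * ‖Φ x‖) (p₀ + χ p₀ • y) ≤ |C1| * δ' := by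
        refine (le_abs_self _).trans (h5.trans ?_)
        have h7 : 0 ≤ ∫ x, |‖fderiv ℝ η x‖ * ‖Φ x‖| := integral_nonneg fun x => abs_nonneg _
        calc C1 * ∫ x, |‖fderiv ℝ η x‖ * ‖Φ x‖| ≤ |C1| * ∫ x, |‖fderiv ℝ η x‖ * ‖Φ x‖| :=
              mul_le_mul_of_nonneg_right (le_abs_self _) h7
          _ ≤ |C1| * δ' := mul_le_mul_of_nonneg_left h8 (abs_nonneg _)
      have h7 : 0 ≤ ∏ i, ‖u i‖ := Finset.prod_nonneg fun i _ => norm_nonneg _
      calc |extDeriv (JJ ρ χ s1) p₀ u| ≤ ‖extDeriv (JJ ρ χ s1) p₀‖ * ∏ i, ‖u i‖ := h4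
        _ ≤ (3 * l ^ 3 * (|C1| * δ')) * ∏ i, ‖u i‖ :=
            mul_le_mul_of_nonneg_right (h3.trans
              (mul_le_mul_of_nonneg_left h6 (by positivity))) h7
        _ = _ := by ring
    calc |(extDeriv (JJ ρ χ s1) p₀ + extDeriv (JJ ρ χ s2) p₀) u|
        = |extDeriv (JJ ρ χ s1) p₀ u + extDeriv (JJ ρ χ s2) p₀ u| := rfl
      _ ≤ _ := (abs_add_le _ _).trans (add_le_add part1 part2)
      _ = _ := by ring
  set Ct : ℝ := (3 * l ^ 3) * |C1| * (∏ i, ‖u i‖) + ∑ i, Ci i * ‖u i‖ with hCt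
  by_contra hne
  have hpos : 0 < |extDeriv (JJ ρ χ Φ) p₀ u| := abs_pos.2 hne
  have hCt0 : 0 ≤ Ct := by
    have h1 := key 1 one_pos
    linarith [abs_nonneg (extDeriv (JJ ρ χ Φ) p₀ u)]
  have h1 := key (|extDeriv (JJ ρ χ Φ) p₀ u| / (2 * (Ct + 1))) (by positivity)
  have h2 : Ct * (|extDeriv (JJ ρ χ Φ) p₀ u| / (2 * (Ct + 1))) ≤
      |extDeriv (JJ ρ χ Φ) p₀ u| / 2 := by
    rw [mul_div_assoc', div_le_div_iff₀ (by positivity) two_pos]
    nlinarith
  linarith

end Pool.Agent.Q235.SZ
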