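import Pool.Agent.Q235.SZ.Int

/-!
# Extension of a closed two-form over an isolated point at which it has a singularity of order
less than two
-/

set_option autoImplicit false

open Set Filter Topology MeasureTheory
open scoped Manifold ContDiff Pointwise

noncomputable section

namespace Pool.Agent.Q235.SZ

open Pool.Agent.Y501.SY Pool.Agent.Y515.SY

variable {d : ℕ}

/-- a closed form on the complement of `k` in the ball, bounded by the inverse square of the
distance from the centre -/
structure Sing (c : E d) (R : ℝ) (k : Set (E d)) (s : E d → Al d 2) : Prop where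
  sub : k ⊆ Metric.ball c R
  mem : c ∈ k
  op : IsOpen (Metric.ball c R \ k)
  cap : ∀ Q : Set (E d), IsCompact Q → Q ⊆ Metric.ball c R → Cap (k ∩ Q)
  smooth : ContDiffOn ℝ ∞ s (Metric.ball c R \ k)
  closed : ∀ p ∈ Metric.ball c R \ k, extDeriv s p = 0
  bd : ∀ p ∈ Metric.ball c R \ k, ‖p - c‖ ^ 2 * ‖s p‖ ≤ 1

variable {c : E d} {R : ℝ} {k : Set (E d)} {s : E d → Al d 2}

theorem Sing.ne (h : Sing c R k s) {p : E d} (hp : p ∉ k) : 0 < ‖p - c‖ := by
  rw [norm_pos_iff, sub_ne_zero]
  rintro rfl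
  exact hp h.mem

/-- the form extended by zero -/
abbrev ph (c : E d) (R : ℝ) (k : Set (E d)) (s : E d → Al d 2) : E d → Al d 2 :=
  (Metric.ball c R \ k).indicator s

theorem ph_mem {x : E d} (h : x ∈ Metric.ball c R \ k) : ph c R k s x = s x :=
  indicator_of_mem h s

theorem ph_notMem {x : E d} (h : x ∉ Metric.ball c R \ k) : ph c R k s x = 0 :=
  indicator_of_notMem h s

theorem ph_bd (h : Sing c R k s) {e : ℝ} {A : Set (E d)} (he : 0 ≤ e)
    (hA : ∀ p ∈ A, p ∈ Metric.ball c R \ k → ‖p - c‖ ^ 2 * ‖s p‖ ≤ e) (x : E d) (hx : x ∈ A) :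
    ‖ph c R k s x‖ ≤ e * (‖x - c‖ ^ 2)⁻¹ := by
  by_cases hk : x ∈ Metric.ball c R \ k
  · rw [ph_mem hk, ← div_eq_mul_inv, le_div_iff₀ (by have := h.ne hk.2; positivity),
      mul_comm]
    exact hA x hx hk
  · rw [ph_notMem hk, norm_zero]
    positivity

theorem ph_bd1 (h : Sing c R k s) (x : E d) : ‖ph c R k s x‖ ≤ (‖x - c‖ ^ 2)⁻¹ := by
  have := ph_bd h (A := univ) zero_le_one (fun p _ hp => h.bd p hp) x (mem_univ _)
  rwa [one_mul] at this

theorem ph_int (hd : 3 ≤ d) (h : Sing c R k s) : Integrable (ph c R k s) := by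
  have h1 : Integrable ((Metric.ball c R).indicator (fun x : E d => (‖x - c‖ ^ 2)⁻¹)) :=
    (integrable_indicator_iff Metric.isOpen_ball.measurableSet).2 (kap_int hd c R)
  refine h1.mono' (ind_sm h.op h.smooth).aestronglyMeasurable (Eventually.of_forall fun x => ?_)
  by_cases hx : x ∈ Metric.ball c R
  · rw [indicator_of_mem hx]
    exact ph_bd1 h x
  · rw [indicator_of_notMem hx, ph_notMem (fun h' => hx h'.1), norm_zero]

theorem ph_wcap (hd : 4 ≤ d) (h : Sing c R k s) {Q : Set (E d)} (hQ : IsCompact Q)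
    (hQR : Q ⊆ Metric.ball c R) : WCap (ph c R k s) (k ∩ Q) := by
  have hint := ph_int (by omega) h
  obtain ⟨D, hD, hSB⟩ := exists_SB d
  set I : ℝ := ∫ x in Metric.ball (0 : E d) 1, (‖x‖ ^ 2)⁻¹ with hI
  have hI0 : 0 ≤ I := integral_nonneg fun x => by positivity
  intro δ hδ
  obtain ⟨t, ht, ht1, htδ⟩ : ∃ t : ℝ, 0 < t ∧ t ≤ 1 ∧ t * (2 ^ d * (1 + D) * (I + 1)) ≤ δ / 2 := by
    refine ⟨min 1 (δ / 2 / (2 ^ d * (1 + D) * (I + 1))), lt_min one_pos (by positivity),
      min_le_left _ _, ?_⟩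
    rw [← le_div_iff₀ (by positivity)]
    exact min_le_right _ _
  obtain ⟨g, hg⟩ := hSB c t ht
  obtain ⟨η, hη, hη0, hη1, hηk, -, hηc, hηv, hηi⟩ := h.cap Q hQ hQR univ isOpen_univ
    (subset_univ _) (t ^ 2 * (δ / 2)) (by positivity)
  -- the energy of `g`
  have hball : ∀ a : ℝ, 0 ≤ a → ∫ x in Metric.ball c (2 * t), a * (‖x - c‖ ^ 2)⁻¹ ≤
      a * (2 ^ d * t * t) * I := by
    intro a ha
    rw [integral_const_mul, kap_transl, kap_scale (by positivity)]
    have h1 : (2 * t) ^ d * ((2 * t) ^ 2)⁻¹ ≤ 2 ^ d * t * t := by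
      obtain ⟨n, rfl⟩ : ∃ n, d = n + 4 := ⟨d - 4, by omega⟩
      have h2 : (2 * t) ^ (n + 4) * ((2 * t) ^ 2)⁻¹ = 2 ^ (n + 2) * (t ^ n) * t * t := by
        field_simp
        ring
      rw [h2]
      have h3 : t ^ n ≤ 1 := pow_le_one₀ ht.le ht1
      have h4 : (2 : ℝ) ^ (n + 2) ≤ 2 ^ (n + 4) := pow_le_pow_right₀ (by norm_num) (by omega)
      calc 2 ^ (n + 2) * (t ^ n) * t * t ≤ 2 ^ (n + 4) * 1 * t * t := by gcongr
        _ = _ := by ring
    calc a * ((2 * t) ^ d * ((2 * t) ^ 2)⁻¹ * I) ≤ a * (2 ^ d * t * t * I) := by gcongr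
      _ = _ := by ring
  have hk1 : IntegrableOn (fun x : E d => (‖x - c‖ ^ 2)⁻¹) (Metric.ball c (2 * t)) :=
    kap_int (by omega) c _
  have gen : ∀ (f : E d → ℝ) (a : ℝ), (∀ x, 0 ≤ f x) → (∀ x, f x ≤ a) → 0 ≤ a → Continuous f →
      (∀ x, 2 * t ≤ ‖x - c‖ → f x = 0) →
      ∫ x, f x * ‖ph c R k s x‖ ≤ a * (2 ^ d * t * t) * I := by
    intro f a hf0 hfa ha hfc hf
    refine le_trans ?_ (hball a ha)
    rw [← integral_indicator Metric.isOpen_ball.measurableSet]
    refine integral_mono_of_nonneg (Eventually.of_forall fun x =>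
      mul_nonneg (hf0 x) (norm_nonneg _)) ((integrable_indicator_iff
      Metric.isOpen_ball.measurableSet).2 (hk1.const_mul a)) (Eventually.of_forall fun x => ?_)
    dsimp only
    by_cases hx : x ∈ Metric.ball c (2 * t)
    · rw [indicator_of_mem hx]
      exact mul_le_mul (hfa x) (ph_bd1 h x) (norm_nonneg _) ha
    · rw [indicator_of_notMem hx]
      rw [Metric.mem_ball, not_lt, dist_eq_norm] at hx
      rw [hf x hx, zero_mul]
  have gen2 : ∀ (f : E d → ℝ), (∀ x, 0 ≤ f x) → Integrable f →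
      (∀ x, ‖x - c‖ ≤ t → f x = 0) → ∫ x, f x * ‖ph c R k s x‖ ≤ (t ^ 2)⁻¹ * ∫ x, f x := by
    intro f hf0 hfi hf
    rw [← integral_const_mul]
    refine integral_mono_of_nonneg (Eventually.of_forall fun x =>
      mul_nonneg (hf0 x) (norm_nonneg _)) (hfi.const_mul _) (Eventually.of_forall fun x => ?_)
    dsimp only
    by_cases hx : ‖x - c‖ ≤ t
    · rw [hf x hx, zero_mul, mul_zero]
    · rw [not_le] at hx
      rw [mul_comm]
      refine mul_le_mul_of_nonneg_right ((ph_bd1 h x).trans ?_) (hf0 x)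
      exact inv_anti₀ (by positivity) (pow_le_pow_left₀ ht.le hx.le 2)
  have hsmall : (t ^ 2)⁻¹ * (t ^ 2 * (δ / 2)) = δ / 2 := by
    field_simp
  have h2d : (1 : ℝ) * (2 ^ d * t * t) * I ≤ δ / 2 := by
    refine le_trans ?_ htδ
    have h3 : 1 * (2 ^ d * t * t) * I = t * (2 ^ d * t * I) := by ring
    rw [h3]
    refine mul_le_mul_of_nonneg_left ?_ ht.le
    have h4 : 2 ^ d * t * I ≤ 2 ^ d * 1 * (I + 1) := by gcongr; linarith
    refine h4.trans ?_
    have h5 : (1 : ℝ) ≤ 1 + D := by linarith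
    gcongr
  have h2D : (D / t) * (2 ^ d * t * t) * I ≤ δ / 2 := by
    refine le_trans ?_ htδ
    have h3 : (D / t) * (2 ^ d * t * t) * I = t * (2 ^ d * D * I) := by
      field_simp
    rw [h3]
    refine mul_le_mul_of_nonneg_left ?_ ht.le
    gcongr
    · linarith
    · linarith
  refine ⟨fun x => 1 - (1 - g x) * (1 - η x), ?_, ?_, ?_, ?_, ?_, ?_, ?_⟩
  · exact contDiff_const.sub ((contDiff_const.sub hg.smooth).mul (contDiff_const.sub hη))
  · intro x
    have h1 : (1 - g x) * (1 - η x) ≤ 1 * 1 :=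
      mul_le_mul (by linarith [hg.nonneg x]) (by linarith [hη0 x]) (by linarith [hη1 x])
        zero_le_one
    dsimp only
    linarith
  · intro x
    have h1 : 0 ≤ (1 - g x) * (1 - η x) :=
      mul_nonneg (by linarith [hg.le_one x]) (by linarith [hη1 x])
    dsimp only
    linarith
  · filter_upwards [hηk] with x hx
    rw [hx]
    ring
  · refine HasCompactSupport.intro (hg.cs.isCompact.union hηc.isCompact) fun x hx => ?_
    rw [mem_union, not_or] at hx
    rw [image_eq_zero_of_notMem_tsupport hx.1, image_eq_zero_of_notMem_tsupport hx.2]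
    ring
  · have e1 : ∀ x, (1 - (1 - g x) * (1 - η x)) * ‖ph c R k s x‖ =
        g x * ‖ph c R k s x‖ + ((1 - g x) * η x) * ‖ph c R k s x‖ := fun x => by ring
    have i1 : Integrable (fun x => g x * ‖ph c R k s x‖) := by
      refine hint.norm.bdd_mul (c := 1) hg.smooth.continuous.aestronglyMeasurable
        (Eventually.of_forall fun x => ?_)
      rw [Real.norm_of_nonneg (hg.nonneg x)]
      exact hg.le_one x
    have hf2 : ∀ x, 0 ≤ (1 - g x) * η x := fun x =>
      mul_nonneg (by linarith [hg.le_one x]) (hη0 x)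
    have hf2' : ∀ x, (1 - g x) * η x ≤ η x := fun x =>
      mul_le_of_le_one_left (hη0 x) (by linarith [hg.nonneg x])
    have hc2 : Continuous (fun x => (1 - g x) * η x) :=
      (continuous_const.sub hg.smooth.continuous).mul hη.continuous
    have i2 : Integrable (fun x => ((1 - g x) * η x) * ‖ph c R k s x‖) := by
      refine hint.norm.bdd_mul (c := 1) hc2.aestronglyMeasurable
        (Eventually.of_forall fun x => ?_)
      rw [Real.norm_of_nonneg (hf2 x)]
      exact (hf2' x).trans (hη1 x)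
    simp only [e1]
    rw [integral_add i1 i2]
    have j1 := gen g 1 hg.nonneg hg.le_one zero_le_one hg.smooth.continuous hg.zero
    have hfi : Integrable (fun x => (1 - g x) * η x) :=
      hc2.integrable_of_hasCompactSupport hηc.mul_left
    have j2 := gen2 (fun x => (1 - g x) * η x) hf2 hfi (fun x hx => by rw [hg.one x hx]; ring)
    have hηi' : ∫ x, (1 - g x) * η x ≤ t ^ 2 * (δ / 2) := by
      have h1 : ∫ x, (1 - g x) * η x = ∫ x in Function.support η, (1 - g x) * η x := by
        refine (setIntegral_eq_integral_of_forall_compl_eq_zero fun x hx => ?_).symm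
        rw [Function.notMem_support] at hx
        rw [hx, mul_zero]
      have h2 : ‖∫ x in Function.support η, (1 - g x) * η x‖ ≤
          1 * (volume : Measure (E d)).real (Function.support η) :=
        norm_setIntegral_le_of_norm_le_const (hηv.trans ENNReal.ofReal_lt_top) fun x _ => by
          rw [Real.norm_of_nonneg (hf2 x)]
          exact (hf2' x).trans (hη1 x)
      have h3 : (volume : Measure (E d)).real (Function.support η) ≤ t ^ 2 * (δ / 2) := by
        unfold Measure.real
        exact ENNReal.toReal_le_of_le_ofReal (by positivity) hηv.le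
      rw [h1]
      refine (le_abs_self _).trans (h2.trans ?_)
      rw [one_mul]
      exact h3
    have j3 := mul_le_mul_of_nonneg_left hηi' (inv_nonneg.2 (sq_nonneg t))
    rw [hsmall] at j3
    linarith
  · have hgd : ∀ x, DifferentiableAt ℝ g x := fun x => hg.smooth.differentiable (by simp) x
    have hηd : ∀ x, DifferentiableAt ℝ η x := fun x => hη.differentiable (by simp) x
    have e0 : ∀ x, fderiv ℝ (fun x => 1 - (1 - g x) * (1 - η x)) x =
        (1 - η x) • fderiv ℝ g x + (1 - g x) • fderiv ℝ η x := by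
      intro x
      have h1 : HasFDerivAt (fun x => 1 - g x) (-fderiv ℝ g x) x :=
        (hgd x).hasFDerivAt.const_sub 1
      have h2 : HasFDerivAt (fun x => 1 - η x) (-fderiv ℝ η x) x :=
        (hηd x).hasFDerivAt.const_sub 1
      have h3 := ((h1.mul h2).const_sub 1).fderiv
      have h4 : fderiv ℝ (fun x => 1 - (1 - g x) * (1 - η x)) x =
        -((1 - g x) • -fderiv ℝ η x + (1 - η x) • -fderiv ℝ g x) := h3
      rw [h4, smul_neg, smul_neg, ← neg_add, neg_neg, add_comm]
    have i1 : Integrable (fun x => ‖fderiv ℝ g x‖ * ‖ph c R k s x‖) := by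
      refine hint.norm.bdd_mul (c := D / t)
        (hg.smooth.continuous_fderiv (by simp)).norm.aestronglyMeasurable
        (Eventually.of_forall fun x => ?_)
      rw [norm_norm]
      exact hg.fd x
    have hc2 : Continuous (fun x => (1 - g x) * ‖fderiv ℝ η x‖) :=
      (continuous_const.sub hg.smooth.continuous).mul (hη.continuous_fderiv (by simp)).norm
    obtain ⟨M, hM⟩ := (hη.continuous_fderiv (by simp)).bounded_above_of_compact_support
      (hηc.fderiv ℝ)
    have hf2 : ∀ x, 0 ≤ (1 - g x) * ‖fderiv ℝ η x‖ := fun x =>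
      mul_nonneg (by linarith [hg.le_one x]) (norm_nonneg _)
    have hf2' : ∀ x, (1 - g x) * ‖fderiv ℝ η x‖ ≤ ‖fderiv ℝ η x‖ := fun x =>
      mul_le_of_le_one_left (norm_nonneg _) (by linarith [hg.nonneg x])
    have i2 : Integrable (fun x => ((1 - g x) * ‖fderiv ℝ η x‖) * ‖ph c R k s x‖) := by
      refine hint.norm.bdd_mul (c := M) hc2.aestronglyMeasurable
        (Eventually.of_forall fun x => ?_)
      rw [Real.norm_of_nonneg (hf2 x)]
      exact (hf2' x).trans (hM x)
    have hle : ∫ x, ‖fderiv ℝ (fun x => 1 - (1 - g x) * (1 - η x)) x‖ * ‖ph c R k s x‖ ≤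
        ∫ x, (‖fderiv ℝ g x‖ * ‖ph c R k s x‖ +
          ((1 - g x) * ‖fderiv ℝ η x‖) * ‖ph c R k s x‖) := by
      refine integral_mono_of_nonneg (Eventually.of_forall fun x => by positivity) (i1.add i2)
        (Eventually.of_forall fun x => ?_)
      dsimp only
      rw [e0, ← add_mul]
      refine mul_le_mul_of_nonneg_right ?_ (norm_nonneg _)
      refine (norm_add_le _ _).trans ?_
      rw [norm_smul, norm_smul, Real.norm_of_nonneg (by linarith [hη1 x] : 0 ≤ 1 - η x),
        Real.norm_of_nonneg (by linarith [hg.le_one x] : 0 ≤ 1 - g x)]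
      have : (1 - η x) * ‖fderiv ℝ g x‖ ≤ ‖fderiv ℝ g x‖ :=
        mul_le_of_le_one_left (norm_nonneg _) (by linarith [hη0 x])
      linarith
    refine hle.trans ?_
    rw [integral_add i1 i2]
    have j1 := gen (fun x => ‖fderiv ℝ g x‖) (D / t) (fun x => norm_nonneg _) hg.fd
      (by positivity) (hg.smooth.continuous_fderiv (by simp)).norm (fun x hx => by
        rw [hg.fd_out hx, norm_zero])
    have hηI : Integrable (fun x => ‖fderiv ℝ η x‖) :=
      (hη.continuous_fderiv (by simp)).norm.integrable_of_hasCompactSupport (hηc.fderiv ℝ).norm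
    have hfi : Integrable (fun x => (1 - g x) * ‖fderiv ℝ η x‖) :=
      hηI.mono' hc2.aestronglyMeasurable (Eventually.of_forall fun x => by
        rw [Real.norm_of_nonneg (hf2 x)]
        exact hf2' x)
    have j2 := gen2 (fun x => (1 - g x) * ‖fderiv ℝ η x‖) hf2 hfi
      (fun x hx => by rw [hg.one x hx]; ring)
    have hηi' : ∫ x, (1 - g x) * ‖fderiv ℝ η x‖ ≤ t ^ 2 * (δ / 2) :=
      (integral_mono hfi hηI hf2').trans hηi.le
    have j3 := mul_le_mul_of_nonneg_left hηi' (inv_nonneg.2 (sq_nonneg t))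
    rw [hsmall] at j3
    linarith

end Pool.Agent.Q235.SZ
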