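import Pool.Agent.Q235.SZ.Ext
import Pool.Agent.Y394.SY.Sm

/-!
# Extension of a closed two-form over an isolated point at which it has a singularity of order
less than two
-/

set_option autoImplicit false

open Set Filter Topology MeasureTheory
open scoped Manifold ContDiff Pointwise

noncomputable section

namespace Pool.Agent.Q235.SZ

open Pool.Agent.Y501.SY Pool.Agent.Y515.SY

variable {d : ℕ}

/-- the norm of the average, off the singular point -/
theorem JJi_bd_out {ρ χ : E d → ℝ} {ε : ℝ} (hρ : Moll ε ρ) {Φ : E d → Al d 2} {b D : ℝ}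
    {p : E d} (hb : ∀ y, ‖y‖ < ε → ‖Φ (p + χ p • y)‖ ≤ b) (hb0 : 0 ≤ b)
    (hD : ‖fderiv ℝ χ p‖ ≤ D) : ‖JJ ρ χ Φ p‖ ≤ b * (1 + D * ε) ^ 2 := by
  have hD0 : 0 ≤ D := (norm_nonneg _).trans hD
  have h1 : ∫ y, ρ y * (b * (1 + D * ε) ^ 2) = b * (1 + D * ε) ^ 2 := by
    rw [integral_mul_const, hρ.int, one_mul]
  rw [← h1]
  unfold JJ
  refine norm_integral_le_of_norm_le ((moll_int hρ).mul_const _)
    (Eventually.of_forall fun y => ?_)
  rw [norm_smul, Real.norm_of_nonneg (hρ.nonneg y)]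
  by_cases hy : ε ≤ ‖y‖
  · rw [hρ.supp y hy, zero_mul, zero_mul]
  · rw [not_le] at hy
    refine mul_le_mul_of_nonneg_left ?_ (hρ.nonneg y)
    refine (comp_norm _ _).trans ?_
    have h2 : ‖LL (fderiv ℝ χ p) y‖ ≤ 1 + D * ε := by
      refine (LL_norm _ _).trans ?_
      have := mul_le_mul hD hy.le (norm_nonneg _) hD0
      linarith
    exact mul_le_mul (hb y hy) (pow_le_pow_left₀ (norm_nonneg _) h2 2) (by positivity) hb0

/-- the norm of the average, near the singular point -/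
theorem JJi_bd_in (hd : 3 ≤ d) {ρ χ : E d → ℝ} {ε : ℝ} (hε : ε ≤ 1) (hρ : Moll ε ρ)
    {Φ : E d → Al d 2} {e r B : ℝ} (he : 0 ≤ e) (hr : 0 < r) {c p : E d} (hB : ∀ y, ρ y ≤ B)
    (hB0 : 0 ≤ B)
    (hb : ∀ y, ‖y‖ < ε → ‖Φ (p + χ p • y)‖ ≤ e * (‖p + χ p • y - c‖ ^ 2)⁻¹) (hχ : χ p = r)
    (hD : fderiv ℝ χ p = 0) (hp : ‖p - c‖ < r) :
    ‖JJ ρ χ Φ p‖ ≤ B * (∫ x in Metric.ball (0 : E d) 2, (‖x‖ ^ 2)⁻¹) * (e / r ^ 2) := by
  set z : E d := r⁻¹ • (p - c) with hz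
  have hz1 : ‖z‖ < 1 := by
    rw [hz, norm_smul, norm_inv, Real.norm_of_nonneg hr.le, inv_mul_lt_iff₀ hr, mul_one]
    exact hp
  have hi : Integrable ((Metric.ball (-z) 2).indicator (fun y => (‖y - -z‖ ^ 2)⁻¹)) :=
    (integrable_indicator_iff Metric.isOpen_ball.measurableSet).2 (kap_int hd (-z) 2)
  have h0 : B * (∫ x in Metric.ball (0 : E d) 2, (‖x‖ ^ 2)⁻¹) * (e / r ^ 2) =
      ∫ y, (B * (e / r ^ 2)) * (Metric.ball (-z) 2).indicator (fun y => (‖y - -z‖ ^ 2)⁻¹) y := by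
    rw [integral_const_mul, integral_indicator Metric.isOpen_ball.measurableSet, kap_transl]
    ring
  rw [h0]
  unfold JJ
  refine norm_integral_le_of_norm_le (hi.const_mul _) (Eventually.of_forall fun y => ?_)
  rw [norm_smul, Real.norm_of_nonneg (hρ.nonneg y)]
  by_cases hy : ε ≤ ‖y‖
  · rw [hρ.supp y hy, zero_mul]
    refine mul_nonneg (by positivity) (indicator_nonneg (fun x _ => by positivity) _)
  · rw [not_le] at hy
    rw [hD, comp_id]
    have h1 : y ∈ Metric.ball (-z) 2 := by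
      rw [mem_ball_iff_norm, sub_neg_eq_add]
      refine (norm_add_le _ _).trans_lt ?_
      linarith
    rw [indicator_of_mem h1, mul_assoc]
    refine mul_le_mul (hB y) ?_ (norm_nonneg _) hB0
    refine (hb y hy).trans (le_of_eq ?_)
    have h2 : p + χ p • y - c = r • (y - -z) := by
      rw [hχ, sub_neg_eq_add, smul_add, hz, smul_smul, mul_inv_cancel₀ hr.ne', one_smul]
      abel
    rw [h2, norm_smul, Real.norm_of_nonneg hr.le, mul_pow, mul_inv]
    ring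

theorem ext_form (d : ℕ) (hd : 4 ≤ d) : ∃ M : ℝ, 0 < M ∧ ∀ (c : E d) (R : ℝ) (k : Set (E d))
    (s : E d → Al d 2) (r e : ℝ), Sing c R k s → 0 < r → 4 * r < R → 0 ≤ e →
    (∀ p ∈ Metric.ball c R \ k, ‖p - c‖ ≤ 4 * r → ‖p - c‖ ^ 2 * ‖s p‖ ≤ e) →
    ∃ w : E d → Al d 2,
      ContDiffOn ℝ ∞ w (Metric.ball c R \ (k \ Metric.ball c (2 * r))) ∧
      (∀ p ∈ Metric.ball c R \ (k \ Metric.ball c (2 * r)), extDeriv w p = 0) ∧
      (∀ p, 2 * r ≤ ‖p - c‖ → w p = s p) ∧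
      ∀ p, ‖p - c‖ < 2 * r → ‖w p‖ ≤ M * (e / r ^ 2) := by
  obtain ⟨D, hD, hSB⟩ := exists_SB d
  obtain ⟨ρ, hρ⟩ := moll_exists (d := d) (ε := 1 / 4) (by norm_num)
  obtain ⟨B, hB⟩ := hρ.smooth.continuous.bounded_above_of_compact_support (moll_cs hρ)
  have hB' : ∀ y, ρ y ≤ B := fun y => (le_abs_self _).trans (hB y)
  have hB0 : 0 ≤ B := (norm_nonneg _).trans (hB 0)
  set I : ℝ := ∫ x in Metric.ball (0 : E d) 2, (‖x‖ ^ 2)⁻¹ with hI
  have hI0 : 0 ≤ I := integral_nonneg fun x => by positivity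
  refine ⟨2 * (1 + D) ^ 2 + B * I, by positivity, ?_⟩
  intro c R k s r e h hr hrR he hse
  obtain ⟨g, hg⟩ := hSB c r hr
  obtain ⟨χ, hχd⟩ : ∃ χ : E d → ℝ, χ = fun p => r * g p := ⟨_, rfl⟩
  have hχ : ContDiff ℝ ∞ χ := by rw [hχd]; exact contDiff_const.mul hg.smooth
  have hχp : ∀ p, ‖p - c‖ < 2 * r → 0 < χ p := fun p hp => by
    rw [hχd]; exact mul_pos hr (hg.pos p hp)
  have hχz : ∀ p, 2 * r ≤ ‖p - c‖ → χ p = 0 := fun p hp => by
    rw [hχd]; dsimp only; rw [hg.zero p hp, mul_zero]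
  have hχr : ∀ p, |χ p| ≤ r := fun p => by
    rw [hχd]
    dsimp only
    rw [abs_of_nonneg (mul_nonneg hr.le (hg.nonneg p))]
    exact mul_le_of_le_one_right hr.le (hg.le_one p)
  have hfd : ∀ p, fderiv ℝ χ p = r • fderiv ℝ g p := by
    intro p
    rw [hχd]
    exact fderiv_const_mul (hg.smooth.differentiable (by simp) p) r
  have hfdD : ∀ p, ‖fderiv ℝ χ p‖ ≤ D := by
    intro p
    rw [hfd, norm_smul, Real.norm_of_nonneg hr.le]
    have h1 := mul_le_mul_of_nonneg_left (hg.fd p) hr.le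
    rwa [mul_div_cancel₀ _ hr.ne'] at h1
  have hfd0 : ∀ p, 2 * r ≤ ‖p - c‖ → fderiv ℝ χ p = 0 := fun p hp => by
    rw [hfd, hg.fd_out hp, smul_zero]
  have hfdi : ∀ p, ‖p - c‖ < r → fderiv ℝ χ p = 0 := fun p hp => by
    rw [hfd, hg.fd_zero hp, smul_zero]
  have hmove : ∀ p y : E d, ‖y‖ ≤ 1 / 4 → ‖χ p • y‖ ≤ r / 4 := by
    intro p y hy
    rw [norm_smul, Real.norm_eq_abs]
    calc |χ p| * ‖y‖ ≤ r * (1 / 4) := mul_le_mul (hχr p) hy (norm_nonneg _) hr.le
      _ = r / 4 := by ring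
  -- the compact set
  set Q : Set (E d) := Metric.closedBall c (4 * r) with hQ
  have hQR : Q ⊆ Metric.ball c R := Metric.closedBall_subset_ball hrR
  have hball : ∀ p, ‖p - c‖ < 2 * r → ∀ y, ‖y‖ ≤ 1 / 4 → p + χ p • y ∈ Q := by
    intro p hp y hy
    rw [hQ, Metric.mem_closedBall, dist_eq_norm]
    have h1 : p + χ p • y - c = (p - c) + χ p • y := by abel
    rw [h1]
    refine (norm_add_le _ _).trans ?_
    have := hmove p y hy
    linarith
  have hint := ph_int (by omega) h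
  have hcap := ph_wcap hd h (isCompact_closedBall c (4 * r)) hQR
  classical
  set J : E d → Al d 2 := JJ ρ χ (ph c R k s) with hJdef
  set Ω : Set (E d) := Metric.ball c R \ (k \ Metric.ball c (2 * r)) with hΩ
  have hmb : ∀ p : E d, p ∈ Metric.ball c (2 * r) ↔ ‖p - c‖ < 2 * r := fun p => by
    rw [Metric.mem_ball, dist_eq_norm]
  have hsplit : ∀ p ∈ Ω, (2 * r ≤ ‖p - c‖ ∧ p ∈ Metric.ball c R \ k) ∨ (‖p - c‖ < 2 * r) := by
    intro p hp
    by_cases h1 : ‖p - c‖ < 2 * r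
    · exact Or.inr h1
    · exact Or.inl ⟨not_lt.1 h1, hp.1, fun hk => hp.2 ⟨hk, fun h2 => h1 ((hmb p).1 h2)⟩⟩
  have hΩo : IsOpen Ω := by
    have h1 : Ω = (Metric.ball c R \ k) ∪ Metric.ball c (2 * r) := by
      ext p
      constructor
      · intro hp
        rcases hsplit p hp with h1 | h1
        · exact Or.inl h1.2
        · exact Or.inr ((hmb p).2 h1)
      · rintro (h1 | h1)
        · exact ⟨h1.1, fun h' => h1.2 h'.1⟩
        · exact ⟨Metric.ball_subset_ball (by linarith) h1, fun h' => h'.2 h1⟩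
    rw [h1]
    exact h.op.union Metric.isOpen_ball
  have hJs : ∀ p ∈ Metric.ball c R \ k, 2 * r ≤ ‖p - c‖ → J p = s p := by
    intro p hp h0
    rw [hJdef, JJ_eq hρ _ (hχz p h0) (hfd0 p h0), ph_mem hp]
  obtain ⟨w, hw⟩ : ∃ w : E d → Al d 2, ∀ p, w p = if 2 * r ≤ ‖p - c‖ then s p else J p :=
    ⟨_, fun _ => rfl⟩
  have hwJ : ∀ p ∈ Ω, w p = J p := by
    intro p hp
    rw [hw p]
    split_ifs with h1
    · rcases hsplit p hp with h' | h'
      · exact (hJs p h'.2 h1).symm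
      · exact absurd h1 (not_le.2 h')
    · rfl
  have hev : ∀ p ∈ Ω, w =ᶠ[𝓝 p] J := by
    intro p hp
    filter_upwards [hΩo.mem_nhds hp] with q hq using hwJ q hq
  have hJsm : ∀ p ∈ Ω, ContDiffAt ℝ ∞ J p ∧ extDeriv J p = 0 := by
    intro p hp
    rcases hsplit p hp with h1 | h1
    · exact JJ_off Pool.Agent.Y394.SY.t_SM hρ hχ h.op h.smooth h.closed h1.2 (hχz p h1.1)
    · refine ⟨JJi_smooth hχ (hχp p h1) hρ.smooth (moll_cs hρ) hint, ?_⟩
      exact JJi_closed (by norm_num) hρ hχ Pool.Agent.Y394.SY.t_SM h.op h.smooth h.closed hint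
        hQR hcap (hχp p h1) (hball p h1)
  refine ⟨w, ?_, ?_, ?_, ?_⟩
  · intro p hp
    exact ((hJsm p hp).1.congr_of_eventuallyEq (hev p hp)).contDiffWithinAt
  · intro p hp
    rw [(hev p hp).extDeriv_eq]
    exact (hJsm p hp).2
  · intro p hp
    rw [hw p, if_pos hp]
  · intro p hp
    have hpΩ : p ∈ Ω := ⟨Metric.ball_subset_ball (by linarith) ((hmb p).2 hp),
      fun h' => h'.2 ((hmb p).2 hp)⟩
    rw [hwJ p hpΩ]
    have hbb : ∀ y, ‖y‖ < 1 / 4 → ‖ph c R k s (p + χ p • y)‖ ≤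
        e * (‖p + χ p • y - c‖ ^ 2)⁻¹ := by
      intro y hy
      refine ph_bd h (A := Q) he (fun q hq hqk => hse q hqk ?_) _ (hball p hp y hy.le)
      rw [hQ, Metric.mem_closedBall, dist_eq_norm] at hq
      exact hq
    have hr2 : 0 ≤ e / r ^ 2 := by positivity
    by_cases h1 : ‖p - c‖ < r
    · have h2 := JJi_bd_in (by omega) (by norm_num) hρ he hr hB' hB0 hbb (by
        rw [hχd]
        dsimp only
        rw [hg.one p h1.le, mul_one]) (hfdi p h1) h1
      refine h2.trans (mul_le_mul_of_nonneg_right ?_ hr2)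
      have : 0 ≤ 2 * (1 + D) ^ 2 := by positivity
      linarith
    · rw [not_lt] at h1
      have h2 := JJi_bd_out (χ := χ) (Φ := ph c R k s) (b := 2 * (e / r ^ 2)) hρ (p := p)
        (fun y hy => by
          refine (hbb y hy).trans ?_
          have h3 : 3 / 4 * r ≤ ‖p + χ p • y - c‖ := by
            have h4 := norm_sub_norm_le (p - c) (-(χ p • y))
            rw [norm_neg, sub_neg_eq_add] at h4
            have h5 : p + χ p • y - c = p - c + χ p • y := by abel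
            rw [h5]
            have := hmove p y hy.le
            linarith
          have h4 : (‖p + χ p • y - c‖ ^ 2)⁻¹ ≤ ((3 / 4 * r) ^ 2)⁻¹ :=
            inv_anti₀ (by positivity) (pow_le_pow_left₀ (by positivity) h3 2)
          have h5 : ((3 / 4 * r) ^ 2)⁻¹ = 16 / 9 * (r ^ 2)⁻¹ := by
            field_simp
            norm_num
          rw [h5] at h4
          have h6 : 0 ≤ (r ^ 2)⁻¹ := inv_nonneg.2 (sq_nonneg r)
          have h7 : (‖p + χ p • y - c‖ ^ 2)⁻¹ ≤ 2 * (r ^ 2)⁻¹ := by linarith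
          refine (mul_le_mul_of_nonneg_left h7 he).trans (le_of_eq ?_)
          rw [div_eq_mul_inv]
          ring) (mul_nonneg zero_le_two hr2) (hfdD p)
      refine h2.trans ?_
      have h7 : (1 + D * (1 / 4)) ^ 2 ≤ (1 + D) ^ 2 :=
        pow_le_pow_left₀ (by positivity) (by linarith) 2
      have h8 : 0 ≤ B * I := mul_nonneg hB0 hI0
      have h9 : 2 * (e / r ^ 2) * (1 + D * (1 / 4)) ^ 2 ≤ 2 * (e / r ^ 2) * (1 + D) ^ 2 :=
        mul_le_mul_of_nonneg_left h7 (mul_nonneg zero_le_two hr2)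
      have h10 : 2 * (e / r ^ 2) * (1 + D) ^ 2 = (2 * (1 + D) ^ 2) * (e / r ^ 2) := by ring
      have h11 : (2 * (1 + D) ^ 2) * (e / r ^ 2) ≤ (2 * (1 + D) ^ 2 + B * I) * (e / r ^ 2) :=
        mul_le_mul_of_nonneg_right (by linarith) hr2
      exact h9.trans (h10.le.trans h11)

end Pool.Agent.Q235.SZ
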