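import Pool.Agent.Y501.SY.Main2
import Pool.Agent.Y925.SY.Planar
import Pool.Agent.Y484.SY.Gen

/-!
Project SZ: an exact two-form on which a continuous family of linear functionals is positive over a
compact set whose components are thin.
-/

set_option autoImplicit false

open Set Filter Topology MeasureTheory
open scoped Manifold ContDiff

noncomputable section

namespace Pool.Agent.Q235.SZ

open Pool.Agent.Y501.SY

section

variable {d : ℕ} {X : Type} [TopologicalSpace X] [ChartedSpace (E d) X]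

theorem ext2 {x : X} (s t : (TangentSpace (𝓡 d) x) [⋀^Fin 2]→L[ℝ] ℝ)
    (h : ∀ v w : TangentSpace (𝓡 d) x, s ![v, w] = t ![v, w]) : s = t := by
  ext v
  have : v = ![v 0, v 1] := by
    funext i; fin_cases i <;> rfl
  rw [this]
  exact h _ _

/-- a family of linear functionals on the two-forms -/
abbrev Fun2 (d : ℕ) (X : Type) [TopologicalSpace X] [ChartedSpace (E d) X] : Type :=
  (x : X) → ((TangentSpace (𝓡 d) x) [⋀^Fin 2]→L[ℝ] ℝ) →ₗ[ℝ] ℝ

/-- the family is continuous -/
def ContL (L : Fun2 d X) : Prop := ∀ f g : X → ℝ, SmoothFun (d := d) f → SmoothFun (d := d) g →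
  Continuous fun x => L x (dfdg f g x)

/-- `C` is thin at `z` with respect to `L` -/
def ThinL (L : Fun2 d X) (C : Set X) (z : X) : Prop :=
  ∃ (n : ℕ) (a b : Fin n → X → ℝ) (N : Set X), N ∈ 𝓝 z ∧ (∀ i, SmoothFun (d := d) (a i)) ∧
    (∀ i, SmoothFun (d := d) (b i)) ∧
    (∀ i, volume ((fun x => (a i x, b i x)) '' (C ∩ N)) = 0) ∧
    0 < ∑ i, L z (dfdg (a i) (b i) z)

theorem ContL.pair {L : Fun2 d X} (hL : ContL L) {α : Form d X 1} {η : Form d X 2}
    (h : Pair α η) : Continuous fun x => L x (η x) := by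
  induction h with
  | zero =>
    have : (fun x => L x ((0 : Form d X 2) x)) = fun _ => 0 := by
      funext x
      exact map_zero (L x)
    rw [this]
    exact continuous_const
  | gen f g hf hg => exact hL f g hf hg
  | add α α' η η' _ _ ih ih' =>
    have : (fun x => L x ((η + η') x)) = fun x => L x (η x) + L x (η' x) := by
      funext x
      exact map_add (L x) _ _
    rw [this]
    exact ih.add ih'

variable [IsManifold (𝓡 d) ∞ X]

theorem coreL {L : Fun2 d X} (hL : ContL L) {K : Set X} (hK : IsCompact K) {ι : Type} [Fintype ι]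
    (c a b : ι → X → ℝ) (M : ι → Set X) (hM : ∀ i, IsClosed (M i))
    (hcM : ∀ i x, c i x ≠ 0 → x ∈ M i)
    (hc : ∀ i, SmoothFun (d := d) (c i)) (ha : ∀ i, SmoothFun (d := d) (a i))
    (hb : ∀ i, SmoothFun (d := d) (b i))
    (hnull : ∀ i, volume ((fun x => (a i x, b i x)) '' (K ∩ M i)) = 0)
    (hpos : ∀ x ∈ K, 0 < ∑ i, c i x * L x (dfdg (a i) (b i) x)) :
    ∃ (α : Form d X 1) (η : Form d X 2), Pair α η ∧ ∀ x ∈ K, 0 < L x (η x) := by
  classical
  rcases K.eq_empty_or_nonempty with rfl | hne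
  · exact ⟨0, 0, Pair.zero, fun x hx => absurd hx (notMem_empty x)⟩
  have cF : Continuous fun x => ∑ i, c i x * L x (dfdg (a i) (b i) x) :=
    continuous_finsetSum _ fun i _ => (hc i).continuous.mul (hL _ _ (ha i) (hb i))
  have cG : Continuous fun x => ∑ i, (|L x (dfdg (c i) (b i) x)| + |L x (dfdg (c i) (a i) x)|) :=
    continuous_finsetSum _ fun i _ => (hL _ _ (hc i) (hb i)).abs.add (hL _ _ (hc i) (ha i)).abs
  obtain ⟨x₀, hx₀, hmin⟩ := hK.exists_isMinOn hne cF.continuousOn
  obtain ⟨x₁, hx₁, hmax⟩ := hK.exists_isMaxOn hne cG.continuousOn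
  set δ := ∑ i, c i x₀ * L x₀ (dfdg (a i) (b i) x₀) with hδ
  set C := ∑ i, (|L x₁ (dfdg (c i) (b i) x₁)| + |L x₁ (dfdg (c i) (a i) x₁)|) with hC
  have hδ0 : 0 < δ := hpos x₀ hx₀
  have hC0 : 0 ≤ C := Finset.sum_nonneg fun i _ => by positivity
  set ε := δ / (2 * (C + 1)) with hε
  have hε0 : 0 < ε := by positivity
  have hεC : ε * C < δ := by
    rw [hε, div_mul_eq_mul_div, div_lt_iff₀ (by positivity)]
    nlinarith
  have hcpt : ∀ i, IsCompact ((fun x => (a i x, b i x)) '' (K ∩ M i)) := fun i =>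
    (hK.inter_right (hM i)).image ((ha i).continuous.prodMk (hb i).continuous)
  choose P Q hPs hQs hPε hQε hPQ using fun i =>
    Pool.Agent.Y925.SY.t_PLANAR _ (hcpt i) (hnull i) ε hε0
  have s1 : ∀ i, SmoothFun (d := d) (fun x => P i (a i x)) := fun i =>
    SmoothFun.comp1 (hPs i) (ha i)
  have s2 : ∀ i, SmoothFun (d := d) (fun x => Q i (a i x, b i x)) := fun i =>
    SmoothFun.comp2 (hQs i) (ha i) (hb i)
  have s1' : ∀ i, SmoothFun (d := d) (fun x => c i x * P i (a i x)) := fun i => (hc i).mul (s1 i)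
  have s2' : ∀ i, SmoothFun (d := d) (fun x => c i x * Q i (a i x, b i x)) := fun i =>
    (hc i).mul (s2 i)
  have s2'' : ∀ i, SmoothFun (d := d) (fun x => (-1) * (c i x * Q i (a i x, b i x))) := fun i =>
    (SmoothFun.const (-1)).mul (s2' i)
  refine ⟨∑ i, (fdg (fun x => c i x * P i (a i x)) (b i) +
      fdg (fun x => (-1) * (c i x * Q i (a i x, b i x))) (a i)),
    ∑ i, (dfdg (fun x => c i x * P i (a i x)) (b i) +
      dfdg (fun x => (-1) * (c i x * Q i (a i x, b i x))) (a i)), ?_, ?_⟩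
  · exact Pair.sum _ fun i _ => Pair.add _ _ _ _ (Pair.gen _ _ (s1' i) (hb i))
      (Pair.gen _ _ (s2'' i) (ha i))
  · intro x hx
    have key : ∀ i, (dfdg (d := d) (fun x => c i x * P i (a i x)) (b i) +
        dfdg (fun x => (-1) * (c i x * Q i (a i x, b i x))) (a i) : Form d X 2) x =
        P i (a i x) • dfdg (d := d) (c i) (b i) x +
        ((- Q i (a i x, b i x)) • dfdg (d := d) (c i) (a i) x +
          c i x • dfdg (d := d) (a i) (b i) x) := by
      intro i
      refine ext2 _ _ fun v w => ?_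
      change dfdg (d := d) (fun x => c i x * P i (a i x)) (b i) x ![v, w] +
        dfdg (d := d) (fun x => (-1) * (c i x * Q i (a i x, b i x))) (a i) x ![v, w] =
        P i (a i x) * dfdg (d := d) (c i) (b i) x ![v, w] +
        ((- Q i (a i x, b i x)) * dfdg (d := d) (c i) (a i) x ![v, w] +
          c i x * dfdg (d := d) (a i) (b i) x ![v, w])
      rw [dfdg_apply, dfdg_apply, dfdg_apply, dfdg_apply, dfdg_apply,
        dd_mul (hc i) (s1 i), dd_mul (hc i) (s1 i), dd_comp1 (hPs i) (ha i),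
        dd_comp1 (hPs i) (ha i), dd_mul (SmoothFun.const (-1)) (s2' i),
        dd_mul (SmoothFun.const (-1)) (s2' i), dd_mul (hc i) (s2 i), dd_mul (hc i) (s2 i),
        dd_comp2 (hQs i) (ha i) (hb i), dd_comp2 (hQs i) (ha i) (hb i)]
      have h6 : ∀ w : TangentSpace (𝓡 d) x, dd (d := d) (fun _ : X => (-1 : ℝ)) x w = 0 := by
        intro w
        unfold dd
        rw [mfderiv_const]; rfl
      rw [h6, h6]
      have h7 : c i x * fderiv ℝ (Q i) (a i x, b i x) ((0, 1) : ℝ × ℝ) =
          c i x * (1 - deriv (P i) (a i x)) := by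
        by_cases hcx : c i x = 0
        · rw [hcx, zero_mul, zero_mul]
        · have h8 := hPQ i (a i x, b i x) ⟨x, ⟨hx, hcM i x hcx⟩, rfl⟩
          have h9 : fderiv ℝ (Q i) (a i x, b i x) ((0, 1) : ℝ × ℝ) = 1 - deriv (P i) (a i x) := by
            have h8' : deriv (P i) (a i x) +
              fderiv ℝ (Q i) (a i x, b i x) ((0, 1) : ℝ × ℝ) = 1 := h8
            linarith
          rw [h9]
      generalize fderiv ℝ (Q i) (a i x, b i x) ((0, 1) : ℝ × ℝ) = q at *
      generalize fderiv ℝ (Q i) (a i x, b i x) ((1, 0) : ℝ × ℝ) = r at *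
      generalize dd (d := d) (a i) x v = av at *
      generalize dd (d := d) (a i) x w = aJ at *
      generalize dd (d := d) (b i) x v = bv at *
      generalize dd (d := d) (b i) x w = bJ at *
      linear_combination (av * bJ - aJ * bv) * h7
    have hsum : L x ((∑ i, (dfdg (d := d) (fun x => c i x * P i (a i x)) (b i) +
        dfdg (fun x => (-1) * (c i x * Q i (a i x, b i x))) (a i)) : Form d X 2) x) =
        ∑ i, (P i (a i x) * L x (dfdg (c i) (b i) x) +
          ((- Q i (a i x, b i x)) * L x (dfdg (c i) (a i) x) +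
            c i x * L x (dfdg (a i) (b i) x))) := by
      have h1 : (∑ i, (dfdg (d := d) (fun x => c i x * P i (a i x)) (b i) +
          dfdg (fun x => (-1) * (c i x * Q i (a i x, b i x))) (a i)) : Form d X 2) x =
          ∑ i, (dfdg (d := d) (fun x => c i x * P i (a i x)) (b i) +
          dfdg (fun x => (-1) * (c i x * Q i (a i x, b i x))) (a i) : Form d X 2) x :=
        Finset.sum_apply _ _ _
      rw [h1, map_sum]
      refine Finset.sum_congr rfl fun i _ => ?_
      rw [key i]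
      rw [map_add, map_add, map_smul, map_smul, map_smul, smul_eq_mul, smul_eq_mul, smul_eq_mul]
    rw [hsum]
    have h1 : δ ≤ ∑ i, c i x * L x (dfdg (a i) (b i) x) := hmin hx
    have h2 : ∑ i, (|L x (dfdg (c i) (b i) x)| + |L x (dfdg (c i) (a i) x)|) ≤ C := hmax hx
    have h3 : ∀ i, c i x * L x (dfdg (a i) (b i) x) -
        ε * (|L x (dfdg (c i) (b i) x)| + |L x (dfdg (c i) (a i) x)|) ≤
        P i (a i x) * L x (dfdg (c i) (b i) x) +
          ((- Q i (a i x, b i x)) * L x (dfdg (c i) (a i) x) +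
            c i x * L x (dfdg (a i) (b i) x)) := by
      intro i
      have e1 : -(ε * |L x (dfdg (c i) (b i) x)|) ≤ P i (a i x) * L x (dfdg (c i) (b i) x) := by
        have := neg_abs_le (P i (a i x) * L x (dfdg (c i) (b i) x))
        rw [abs_mul] at this
        have h5 := mul_le_mul_of_nonneg_right (hPε i (a i x)) (abs_nonneg (L x (dfdg (c i) (b i) x)))
        linarith
      have e2 : -(ε * |L x (dfdg (c i) (a i) x)|) ≤
          (- Q i (a i x, b i x)) * L x (dfdg (c i) (a i) x) := by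
        have := neg_abs_le ((- Q i (a i x, b i x)) * L x (dfdg (c i) (a i) x))
        rw [abs_mul, abs_neg] at this
        have h5 := mul_le_mul_of_nonneg_right (hQε i (a i x, b i x))
          (abs_nonneg (L x (dfdg (c i) (a i) x)))
        linarith
      linarith
    have h4 := Finset.sum_le_sum fun i (_ : i ∈ (Finset.univ : Finset ι)) => h3 i
    rw [Finset.sum_sub_distrib, ← Finset.mul_sum] at h4
    have h5 := mul_le_mul_of_nonneg_left h2 hε0.le
    linarith

theorem coverL [T2Space X] {L : Fun2 d X} (hL : ContL L) {K : Set X} (hK : IsCompact K)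
    (hthin : ∀ z ∈ K, ThinL L K z) :
    ∃ (α : Form d X 1) (η : Form d X 2), Pair α η ∧ ∀ x ∈ K, 0 < L x (η x) := by
  classical
  have hchi : ∀ z ∈ K, ∃ (n : ℕ) (a b : Fin n → X → ℝ) (χ : X → ℝ) (M : Set X),
      (∀ i, SmoothFun (d := d) (a i)) ∧ (∀ i, SmoothFun (d := d) (b i)) ∧
      SmoothFun (d := d) χ ∧ (∀ y, 0 ≤ χ y) ∧ 0 < χ z ∧ IsClosed M ∧ (∀ y, χ y ≠ 0 → y ∈ M) ∧
      (∀ i, volume ((fun x => (a i x, b i x)) '' (K ∩ M)) = 0) ∧
      ∀ y, χ y ≠ 0 → 0 < ∑ i, L y (dfdg (a i) (b i) y) := by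
    intro z hz
    obtain ⟨n, a, b, N, hNz, ha, hb, hnull, hposz⟩ := hthin z hz
    have hcts : Continuous fun y => ∑ i, L y (dfdg (a i) (b i) y) :=
      continuous_finsetSum _ fun i _ => hL _ _ (ha i) (hb i)
    have hnear : {y | 0 < ∑ i, L y (dfdg (a i) (b i) y)} ∈ 𝓝 z :=
      (isOpen_lt continuous_const hcts).mem_nhds hposz
    obtain ⟨f, hf⟩ := (SmoothBumpFunction.nhds_basis_support (I := 𝓡 d)
      (Filter.inter_mem hnear hNz)).ex_mem
    refine ⟨n, a, b, f, tsupport f, ha, hb, f.contMDiff, fun y => f.nonneg,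
      by rw [f.eq_one]; exact one_pos, isClosed_tsupport f, fun y hy => subset_tsupport _ hy,
      fun i => ?_, fun y hy => ?_⟩
    · refine measure_mono_null ?_ (hnull i)
      exact image_mono (inter_subset_inter_right _ (fun y hy => (hf hy).2))
    · exact (hf (subset_tsupport _ hy)).1
  choose! n a b χ M ha hb hχ hχ0 hχz hMc hχM hnull hχt using hchi
  obtain ⟨t, htK, htc⟩ := hK.elim_nhds_subcover (fun z => {y | z ∈ K → 0 < χ z y})
    (fun z hz => by
      have := (isOpen_lt continuous_const (hχ z hz).continuous).mem_nhds (hχz z hz)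
      filter_upwards [this] with y hy _ using hy)
  refine coreL hL hK (ι := Σ z : ↥t, Fin (n z))
    (fun i x => χ i.1 x) (fun i => a i.1 i.2) (fun i => b i.1 i.2) (fun i => M i.1)
    (fun i => hMc _ (htK _ i.1.2)) (fun i x h => hχM _ (htK _ i.1.2) x h)
    (fun i => hχ _ (htK _ i.1.2)) (fun i => ha _ (htK _ i.1.2) _) (fun i => hb _ (htK _ i.1.2) _)
    (fun i => hnull _ (htK _ i.1.2) _) ?_
  intro x hx
  rw [Fintype.sum_sigma]
  have h1 : ∀ z : ↥t, ∑ i : Fin (n z), χ z x * L x (dfdg (a z i) (b z i) x) =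
      χ z x * ∑ i, L x (dfdg (a z i) (b z i) x) := by
    intro z
    rw [Finset.mul_sum]
  have h3 : ∀ z : ↥t, 0 ≤ χ z x * ∑ i, L x (dfdg (a z i) (b z i) x) := by
    intro z
    by_cases h : χ z x = 0
    · rw [h, zero_mul]
    · exact mul_nonneg (hχ0 _ (htK _ z.2) _) (hχt z (htK _ z.2) x h).le
  obtain ⟨z, hzt, hz⟩ := mem_iUnion₂.1 (htc hx)
  have hz' : 0 < χ z x := hz (htK z hzt)
  calc (0 : ℝ) < χ z x * ∑ i, L x (dfdg (a z i) (b z i) x) :=
        mul_pos hz' (hχt z (htK z hzt) x hz'.ne')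
    _ ≤ ∑ z : ↥t, χ z x * ∑ i, L x (dfdg (a z i) (b z i) x) :=
        Finset.single_le_sum
          (f := fun z : ↥t => χ z x * ∑ i, L x (dfdg (a z i) (b z i) x))
          (fun z _ => h3 z) (Finset.mem_univ (⟨z, hzt⟩ : ↥t))
    _ = _ := Finset.sum_congr rfl fun z _ => (h1 z).symm

/-- An exact form which is positive over a compact set with thin components. -/
theorem glueL [CompactSpace X] [T2Space X] {L : Fun2 d X} (hL : ContL L) {D : Set X}
    (hD : IsCompact D) (hthin : ∀ z ∈ D, ThinL L (connectedComponentIn D z) z) :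
    ∃ (α : Form d X 1) (η : Form d X 2), Pair α η ∧ ∀ x ∈ D, 0 < L x (η x) := by
  classical
  have h : ∀ z ∈ D, ∃ (u : X → ℝ) (α : Form d X 1) (η : Form d X 2), SmoothFun (d := d) u ∧
      (∀ x ∈ D, ∀ v : TangentSpace (𝓡 d) x, dd u x v = 0) ∧
      (∀ x, 0 ≤ u x) ∧ 0 < u z ∧ Pair α η ∧ ∀ x ∈ D, u x ≠ 0 → 0 < L x (η x) := by
    intro z hz
    obtain ⟨α, η, hpair, hη⟩ := coverL hL (compact_comp hD hz) (by
      intro w hw
      have h1 := hthin w (connectedComponentIn_subset _ _ hw)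
      rw [connectedComponentIn_eq hw]
      exact h1)
    have hU : IsOpen {x | 0 < L x (η x)} := isOpen_lt continuous_const (hL.pair hpair)
    have hf : ContMDiff (𝓡 d) (𝓡 0) ∞ (fun _ : X => (0 : E 0)) := contMDiff_const
    obtain ⟨u, hu, hu0, huz, huU, hud⟩ := sepfun hf hD hz hU (by
      intro x hx
      have h2 : D ∩ (fun _ : X => (0 : E 0)) ⁻¹' {(0 : E 0)} = D := by
        ext y; simp
      rw [h2] at hx
      exact hη x hx)
    refine ⟨u, α, η, hu, fun x hx v => hud x hx v ?_, hu0, huz, hpair, fun x hx hux => huU x hx hux⟩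
    rw [mfderiv_const]
    rfl
  choose! u α η hu hu0 hun huz hpair hpos using h
  obtain ⟨t, htD, htc⟩ := hD.elim_nhds_subcover (fun z => {y | z ∈ D → 0 < u z y})
    (fun z hz => by
      have := (isOpen_lt continuous_const (hu z hz).continuous).mem_nhds (huz z hz)
      filter_upwards [this] with y hy _ using hy)
  have h1 : ∀ z : ↥t, ∃ (α' : Form d X 1) (η' : Form d X 2), Pair α' η' ∧
      ∀ x (v w : TangentSpace (𝓡 d) x), η' x ![v, w] = u z x * η z x ![v, w] +
        (dd (u z) x v * α z x ![w] - dd (u z) x w * α z x ![v]) := by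
    intro z
    obtain ⟨α', η', h1, _, h3⟩ := (hpair z (htD z z.2)).smulFun (hu z (htD z z.2))
    exact ⟨α', η', h1, h3⟩
  choose α' η' hp' he' using h1
  refine ⟨∑ z, α' z, ∑ z, η' z, Pair.sum _ fun z _ => hp' z, ?_⟩
  intro x hxD
  have h2 : ∀ z : ↥t, η' z x = u z x • η z x := by
    intro z
    refine ext2 _ _ fun v w => ?_
    rw [he', hu0 z (htD z z.2) x hxD v, hu0 z (htD z z.2) x hxD w]
    change _ = u z x * η z x ![v, w]
    ring
  have h2' : ∀ z : ↥t, L x (η' z x) = u z x * L x (η z x) := by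
    intro z
    rw [h2, map_smul, smul_eq_mul]
  have h3 : ∀ z : ↥t, 0 ≤ L x (η' z x) := by
    intro z
    rw [h2']
    by_cases h : u z x = 0
    · rw [h, zero_mul]
    · exact mul_nonneg (hun z (htD z z.2) x) (hpos z (htD z z.2) x hxD h).le
  have h5 : L x ((∑ z, η' z : Form d X 2) x) = ∑ z, L x (η' z x) := by
    have h6 : (∑ z, η' z : Form d X 2) x = ∑ z, η' z x := Finset.sum_apply _ _ _
    rw [h6, map_sum]
  rw [h5]
  obtain ⟨z, hzt, hz⟩ := mem_iUnion₂.1 (htc hxD)
  have hz' : 0 < u z x := hz (htD z hzt)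
  have h4 : 0 < L x (η' ⟨z, hzt⟩ x) := by
    rw [h2']
    exact mul_pos hz' (hpos z (htD z hzt) x hxD hz'.ne')
  exact lt_of_lt_of_le h4 (Finset.single_le_sum (f := fun z : ↥t => L x (η' z x))
    (fun z _ => h3 z) (Finset.mem_univ (⟨z, hzt⟩ : ↥t)))

end

end Pool.Agent.Q235.SZ
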