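import Pool.Agent.Q235.SZ.Push3

/-!
Project SZ: the homotopy types of the spaces of symplectic and of thinly degenerate forms.
-/

set_option autoImplicit false

open Set Filter Topology MeasureTheory
open scoped Manifold ContDiff

noncomputable section

namespace Pool.Agent.Q235.SZ

open Pool.Agent.Y501.SYP

section

variable {X : Type} [TopologicalSpace X] [ChartedSpace (ES 4) X] [IsManifold 𝓘(ℝ, ES 4) ∞ X]

variable {B : Type} [TopologicalSpace B]

/-- the end of the push -/
def endMap {τ : SForm (ES 4) X} {C : Set (SForm (ES 4) X)}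
    {H : ℝ × SForm (ES 4) X → SForm (ES 4) X} (hH : ContinuousOn H (Icc (0 : ℝ) 1 ×ˢ C))
    (hS : ∀ s : ℝ, 0 < s → s ≤ 1 → ∀ σ ∈ C, H (s, σ) ∈ Symp τ)
    (f : C(B, SForm (ES 4) X)) (hf : ∀ b, f b ∈ C) : C(B, Symp τ) :=
  ⟨fun b => ⟨H (1, f b), hS 1 one_pos le_rfl _ (hf b)⟩, by
    refine Continuous.subtype_mk ?_ _
    exact hH.comp_continuous (continuous_const.prodMk f.continuous)
      (fun b => ⟨⟨zero_le_one, le_rfl⟩, hf b⟩)⟩

/-- the push is a homotopy -/
theorem push_homotopic {τ : SForm (ES 4) X} {C : Set (SForm (ES 4) X)}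
    {H : ℝ × SForm (ES 4) X → SForm (ES 4) X} (hH : ContinuousOn H (Icc (0 : ℝ) 1 ×ˢ C))
    (h0 : ∀ σ ∈ C, H (0, σ) = σ)
    (hS : ∀ s : ℝ, 0 < s → s ≤ 1 → ∀ σ ∈ C, H (s, σ) ∈ Symp τ)
    (T : Set (SForm (ES 4) X)) (hT : Symp τ ⊆ T) (f : C(B, T)) (hf : ∀ b, (f b).1 ∈ C) :
    f.Homotopic ((⟨Set.inclusion hT, continuous_inclusion hT⟩ : C(Symp τ, T)).comp
      (endMap hH hS ⟨fun b => (f b).1, continuous_subtype_val.comp f.continuous⟩ hf)) := by
  have hmem : ∀ q : unitInterval × B, H (q.1, (f q.2).1) ∈ T := by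
    rintro ⟨t, b⟩
    rcases eq_or_lt_of_le t.2.1 with h | h
    · have h1 : (t : ℝ) = 0 := h.symm
      change H ((t : ℝ), (f b).1) ∈ T
      rw [h1, h0 _ (hf b)]
      exact (f b).2
    · exact hT (hS t h t.2.2 _ (hf b))
  refine ⟨{ toFun := fun q => ⟨H (q.1, (f q.2).1), hmem q⟩
            continuous_toFun := ?_
            map_zero_left := ?_
            map_one_left := ?_ }⟩
  · refine Continuous.subtype_mk ?_ _
    exact hH.comp_continuous ((continuous_subtype_val.comp continuous_fst).prodMk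
      (continuous_subtype_val.comp (f.continuous.comp continuous_snd)))
      (fun q => ⟨q.1.2, hf q.2⟩)
  · intro b
    exact Subtype.ext (h0 _ (hf b))
  · intro b
    rfl

variable [CompactSpace X] [T2Space X] [CompactSpace B]

theorem surj {τ : SForm (ES 4) X} (hτ : Nondeg τ.1) (f : C(B, Thin τ)) :
    ∃ g : C(B, Symp τ), f.Homotopic ((incl τ).comp g) := by
  have hfc : Continuous fun b => (f b).1 := continuous_subtype_val.comp f.continuous
  obtain ⟨H, hH, h0, hS⟩ := push hτ (C := range fun b => (f b).1) (isCompact_range hfc) (by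
    rintro _ ⟨b, rfl⟩
    exact (f b).2)
  exact ⟨_, push_homotopic hH h0 hS (Thin τ) (symp_thin τ) f (fun b => ⟨b, rfl⟩)⟩

theorem inj {τ : SForm (ES 4) X} (hτ : Nondeg τ.1) (f g : C(B, Symp τ))
    (h : ((incl τ).comp f).Homotopic ((incl τ).comp g)) : f.Homotopic g := by
  obtain ⟨F⟩ := h
  have hFc : Continuous fun q : unitInterval × B => (F q).1 := continuous_subtype_val.comp F.continuous
  obtain ⟨H, hH, h0, hS⟩ := push hτ (C := range fun q : unitInterval × B => (F q).1) (isCompact_range hFc) (by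
    rintro _ ⟨b, rfl⟩
    exact (F b).2)
  have hf : ∀ b, (f b).1 ∈ range fun q : unitInterval × B => (F q).1 := fun b =>
    ⟨(0, b), by
      change (F (0, b)).1 = (f b).1
      rw [F.apply_zero]; rfl⟩
  have hg : ∀ b, (g b).1 ∈ range fun q : unitInterval × B => (F q).1 := fun b =>
    ⟨(1, b), by
      change (F (1, b)).1 = (g b).1
      rw [F.apply_one]; rfl⟩
  have h1 := push_homotopic hH h0 hS (Symp τ) (subset_refl _) f hf
  have h2 := push_homotopic hH h0 hS (Symp τ) (subset_refl _) g hg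
  refine h1.trans (ContinuousMap.Homotopic.trans ?_ h2.symm)
  have hm : ∀ q : unitInterval × B, H (1, (F q).1) ∈ Symp τ := fun q => hS 1 one_pos le_rfl _ ⟨q, rfl⟩
  refine ⟨{ toFun := fun q => ⟨H (1, (F q).1), hm q⟩
            continuous_toFun := ?_
            map_zero_left := ?_
            map_one_left := ?_ }⟩
  · refine Continuous.subtype_mk ?_ _
    exact hH.comp_continuous (continuous_const.prodMk hFc)
      (fun q => ⟨⟨zero_le_one, le_rfl⟩, ⟨q, rfl⟩⟩)
  · intro b
    refine Subtype.ext ?_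
    change H (1, (F (0, b)).1) = H (1, (f b).1)
    rw [F.apply_zero]; rfl
  · intro b
    refine Subtype.ext ?_
    change H (1, (F (1, b)).1) = H (1, (g b).1)
    rw [F.apply_one]; rfl

omit [CompactSpace X] [T2Space X] in
theorem seg_zero (σ σ' : SForm (ES 4) X) : seg σ σ' 0 = σ := by
  refine Subtype.ext (funext fun x => ?_)
  have key : ∀ a b : (ES 4) [⋀^Fin 2]→L[ℝ] ℝ, 0 + (1 - (0 : ℝ)) • a + (0 : ℝ) • b = a := by
    intro a b
    rw [zero_smul, sub_zero, one_smul, zero_add, add_zero]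
  exact key (σ.1 x) (σ'.1 x)

omit [CompactSpace X] [T2Space X] in
theorem seg_one (σ σ' : SForm (ES 4) X) : seg σ σ' 1 = σ' := by
  refine Subtype.ext (funext fun x => ?_)
  have key : ∀ a b : (ES 4) [⋀^Fin 2]→L[ℝ] ℝ, 0 + (1 - (1 : ℝ)) • a + (1 : ℝ) • b = b := by
    intro a b
    rw [sub_self, zero_smul, one_smul, zero_add, zero_add]
  exact key (σ.1 x) (σ'.1 x)

omit [CompactSpace X] [T2Space X] [CompactSpace B] in
theorem seg_continuous {f g : B → SForm (ES 4) X} {c : B → ℝ} (hf : Continuous f)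
    (hg : Continuous g) (hc : Continuous c) : Continuous fun b => seg (f b) (g b) (c b) :=
  addS_continuous (addS_continuous continuous_const (continuous_const.sub hc) hf) hc hg

theorem contr {τ : SForm (ES 4) X} (hτ : Nondeg τ.1) (σ : Symp τ) (f : C(B, Symp τ))
    (h : ∀ b, ∀ t : ℝ, 0 ≤ t → t ≤ 1 → seg (f b).1 σ.1 t ∈ Thin τ) :
    f.Homotopic (ContinuousMap.const B σ) := by
  refine inj hτ f _ ⟨{ toFun := fun q => ⟨seg (f q.2).1 σ.1 q.1, h q.2 q.1 q.1.2.1 q.1.2.2⟩
                       continuous_toFun := ?_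
                       map_zero_left := ?_
                       map_one_left := ?_ }⟩
  · refine Continuous.subtype_mk ?_ _
    exact seg_continuous (continuous_subtype_val.comp (f.continuous.comp continuous_snd))
      continuous_const (continuous_subtype_val.comp continuous_fst)
  · intro b
    exact Subtype.ext (seg_zero _ _)
  · intro b
    exact Subtype.ext (seg_one _ _)

end

end Pool.Agent.Q235.SZ
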