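import Pool.Agent.Q235.SZ.Closed

/-!
# Scaled cut-off functions, and the integral of the inverse square of the distance
-/

set_option autoImplicit false

open Set Filter Topology MeasureTheory
open scoped Manifold ContDiff Pointwise

noncomputable section

namespace Pool.Agent.Q235.SZ

open Pool.Agent.Y501.SY Pool.Agent.Y515.SY

variable {d : ℕ}

/-- a cut-off function which is one on the ball of radius `t` and zero off the ball of radius
`2t` -/
structure SB (D : ℝ) (c : E d) (t : ℝ) (g : E d → ℝ) : Prop where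
  smooth : ContDiff ℝ ∞ g
  nonneg : ∀ x, 0 ≤ g x
  le_one : ∀ x, g x ≤ 1
  one : ∀ x, ‖x - c‖ ≤ t → g x = 1
  pos : ∀ x, ‖x - c‖ < 2 * t → 0 < g x
  zero : ∀ x, 2 * t ≤ ‖x - c‖ → g x = 0
  cs : HasCompactSupport g
  fd : ∀ x, ‖fderiv ℝ g x‖ ≤ D / t

theorem exists_SB (d : ℕ) : ∃ D : ℝ, 0 < D ∧ ∀ (c : E d) (t : ℝ), 0 < t → ∃ g, SB D c t g := by
  let f : ContDiffBump (0 : E d) := ⟨1, 2, one_pos, by norm_num⟩
  have hf : ContDiff ℝ ∞ f := f.contDiff
  obtain ⟨D, hD⟩ := (hf.continuous_fderiv (by simp)).bounded_above_of_compact_support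
    (f.hasCompactSupport.fderiv ℝ)
  refine ⟨|D| + 1, by positivity, fun c t ht => ?_⟩
  have hsm : ContDiff ℝ ∞ (fun x : E d => t⁻¹ • (x - c)) := by fun_prop
  have hn : ∀ x : E d, ‖t⁻¹ • (x - c)‖ = t⁻¹ * ‖x - c‖ := fun x => by
    rw [norm_smul, norm_inv, Real.norm_of_nonneg ht.le]
  refine ⟨fun x => f (t⁻¹ • (x - c)), ?_, fun x => f.nonneg, fun x => f.le_one, ?_, ?_, ?_, ?_, ?_⟩
  · exact f.contDiff.comp hsm
  · intro x hx
    refine f.one_of_mem_closedBall ?_
    rw [mem_closedBall_zero_iff, hn, inv_mul_le_iff₀ ht]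
    simpa [f] using hx
  · intro x hx
    refine f.pos_of_mem_ball ?_
    rw [mem_ball_zero_iff, hn, inv_mul_lt_iff₀ ht]
    change ‖x - c‖ < t * 2
    linarith
  · intro x hx
    refine f.zero_of_le_dist ?_
    rw [dist_zero_right, hn, le_inv_mul_iff₀ ht]
    change t * 2 ≤ ‖x - c‖
    linarith
  · refine HasCompactSupport.intro (isCompact_closedBall c (2 * t)) fun x hx => ?_
    refine f.zero_of_le_dist ?_
    rw [Metric.mem_closedBall, not_le, dist_eq_norm] at hx
    rw [dist_zero_right, hn, le_inv_mul_iff₀ ht]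
    change t * 2 ≤ ‖x - c‖
    linarith
  · intro x
    have h1 : HasFDerivAt f (fderiv ℝ f (t⁻¹ • (x - c))) (t⁻¹ • (x - c)) :=
      (hf.differentiable (by simp) _).hasFDerivAt
    have h2 : HasFDerivAt (fun x : E d => t⁻¹ • (x - c)) (t⁻¹ • ContinuousLinearMap.id ℝ (E d)) x :=
      ((hasFDerivAt_id x).sub_const c).const_smul t⁻¹
    have h3 := (h1.comp x h2).fderiv
    have h4 : fderiv ℝ (fun x => f (t⁻¹ • (x - c))) x =
        (fderiv ℝ f (t⁻¹ • (x - c))).comp (t⁻¹ • ContinuousLinearMap.id ℝ (E d)) := h3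
    rw [h4]
    refine (ContinuousLinearMap.opNorm_comp_le _ _).trans ?_
    have h5 : ‖t⁻¹ • ContinuousLinearMap.id ℝ (E d)‖ ≤ t⁻¹ := by
      rw [norm_smul, norm_inv, Real.norm_of_nonneg ht.le]
      have h6 := ContinuousLinearMap.norm_id_le (𝕜 := ℝ) (E := E d)
      exact mul_le_of_le_one_right (by positivity) h6
    have h7 := hD (t⁻¹ • (x - c))
    rw [div_eq_mul_inv]
    exact mul_le_mul (h7.trans ((le_abs_self D).trans (by linarith))) h5 (norm_nonneg _)
      (by positivity)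

theorem SB.fd_zero {D t : ℝ} {c : E d} {g : E d → ℝ} (h : SB D c t g) {x : E d}
    (hx : ‖x - c‖ < t) : fderiv ℝ g x = 0 := by
  have h1 : g =ᶠ[𝓝 x] fun _ => 1 := by
    have h2 : ∀ᶠ y in 𝓝 x, ‖y - c‖ < t :=
      (continuous_id.sub continuous_const).norm.continuousAt.eventually_lt continuousAt_const hx
    filter_upwards [h2] with y hy using h.one y hy.le
  rw [h1.fderiv_eq]
  exact fderiv_const_apply 1

theorem SB.fd_out {D t : ℝ} {c : E d} {g : E d → ℝ} (h : SB D c t g) {x : E d}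
    (hx : 2 * t ≤ ‖x - c‖) : fderiv ℝ g x = 0 := by
  apply IsLocalMin.fderiv_eq_zero
  refine Eventually.of_forall fun y => ?_
  rw [h.zero x hx]
  exact h.nonneg y

/-- the inverse square of the distance is integrable on balls -/
theorem kap_int (hd : 3 ≤ d) (c : E d) (r : ℝ) :
    IntegrableOn (fun x : E d => (‖x - c‖ ^ 2)⁻¹) (Metric.ball c r) := by
  have hfin : Module.finrank ℝ (E d) = d := finrank_euclideanSpace_fin
  have h1 : IntegrableOn (fun x : E d => (‖x‖ ^ 2)⁻¹) (Metric.ball 0 r) := by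
    refine integrableOn_ball_of_norm_le_rpow (C := 1) (α := 2) (by rw [hfin]; omega) ?_ ?_ ?_
    · rw [hfin]
      have : (3 : ℝ) ≤ d := by exact_mod_cast hd
      linarith
    · refine Eventually.of_forall fun x => ?_
      rw [one_mul, Real.norm_of_nonneg (by positivity), Real.rpow_neg (norm_nonneg _)]
      norm_cast
    · have : Measurable (fun x : E d => (‖x‖ ^ 2)⁻¹) := by fun_prop
      exact this.aestronglyMeasurable
  have h2 : (fun x : E d => (‖x - c‖ ^ 2)⁻¹) = (fun x : E d => (‖x‖ ^ 2)⁻¹) ∘ (fun x => x - c) := rfl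
  rw [← integrable_indicator_iff Metric.isOpen_ball.measurableSet] at h1 ⊢
  have h3 := h1.comp_sub_right c
  refine h3.congr (Eventually.of_forall fun x => ?_)
  by_cases hx : x ∈ Metric.ball c r
  · have hx' : x - c ∈ Metric.ball (0 : E d) r := by
      rw [mem_ball_zero_iff, ← dist_eq_norm]
      exact hx
    dsimp only
    rw [indicator_of_mem hx', indicator_of_mem hx]
  · have hx' : x - c ∉ Metric.ball (0 : E d) r := by
      rw [mem_ball_zero_iff, ← dist_eq_norm]
      exact hx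
    dsimp only
    rw [indicator_of_notMem hx', indicator_of_notMem hx]

theorem kap_transl (c : E d) (r : ℝ) :
    ∫ x in Metric.ball c r, (‖x - c‖ ^ 2)⁻¹ = ∫ x in Metric.ball (0 : E d) r, (‖x‖ ^ 2)⁻¹ := by
  rw [← integral_indicator Metric.isOpen_ball.measurableSet,
    ← integral_indicator Metric.isOpen_ball.measurableSet,
    ← integral_sub_right_eq_self (fun x => (Metric.ball (0 : E d) r).indicator
      (fun x => (‖x‖ ^ 2)⁻¹) x) c]
  refine integral_congr_ae (Eventually.of_forall fun x => ?_)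
  by_cases hx : x ∈ Metric.ball c r
  · have hx' : x - c ∈ Metric.ball (0 : E d) r := by
      rw [mem_ball_zero_iff, ← dist_eq_norm]
      exact hx
    dsimp only
    rw [indicator_of_mem hx', indicator_of_mem hx]
  · have hx' : x - c ∉ Metric.ball (0 : E d) r := by
      rw [mem_ball_zero_iff, ← dist_eq_norm]
      exact hx
    dsimp only
    rw [indicator_of_notMem hx', indicator_of_notMem hx]

theorem kap_scale {t : ℝ} (ht : 0 < t) :
    ∫ x in Metric.ball (0 : E d) t, (‖x‖ ^ 2)⁻¹ =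
      t ^ d * (t ^ 2)⁻¹ * ∫ x in Metric.ball (0 : E d) 1, (‖x‖ ^ 2)⁻¹ := by
  have hfin : Module.finrank ℝ (E d) = d := finrank_euclideanSpace_fin
  have h1 := Measure.setIntegral_comp_smul_of_pos (volume : Measure (E d))
    (fun x : E d => (‖x‖ ^ 2)⁻¹) (Metric.ball 0 1) ht
  rw [hfin, smul_unitBall_of_pos ht, smul_eq_mul] at h1
  have h2 : ∫ x in Metric.ball (0 : E d) 1, (‖t • x‖ ^ 2)⁻¹ =
      (t ^ 2)⁻¹ * ∫ x in Metric.ball (0 : E d) 1, (‖x‖ ^ 2)⁻¹ := by
    rw [← integral_const_mul]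
    refine integral_congr_ae (Eventually.of_forall fun x => ?_)
    dsimp only
    rw [norm_smul, Real.norm_of_nonneg ht.le, mul_pow, mul_inv]
  rw [h2] at h1
  have h3 : (0 : ℝ) < t ^ d := by positivity
  rw [mul_assoc, h1, ← mul_assoc, mul_inv_cancel₀ h3.ne', one_mul]

end Pool.Agent.Q235.SZ
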