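import Pool.Agent.Y932.SY.Ker

/-!
# Averages of an integrable function over balls of variable positive radius
-/

set_option autoImplicit false

open Set Filter Topology MeasureTheory
open scoped Manifold ContDiff Convolution

noncomputable section

namespace Pool.Agent.Q235.SZ

open Pool.Agent.Y501.SY (E)
open Pool.Agent.Y932.SY.Ker (kk subst region)

/-- averages of an integrable function over balls of positive variable radius -/
theorem kerI (d : ℕ) (g χ : E d → ℝ) (hg : ContDiff ℝ ∞ g) (hgc : HasCompactSupport g)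
    (hχ : ContDiff ℝ ∞ χ) (p₀ : E d) (hp₀ : 0 < χ p₀) :
    (∀ f : E d → ℝ, Integrable f volume →
      ContDiffAt ℝ ∞ (fun p => ∫ y, g y * f (p + χ p • y)) p₀) ∧
    ∃ C : ℝ, ∀ f : E d → ℝ, Integrable f volume →
      |∫ y, g y * f (p₀ + χ p₀ • y)| ≤ C * ∫ x, |f x| ∧
      ‖fderiv ℝ (fun p => ∫ y, g y * f (p + χ p • y)) p₀‖ ≤ C * ∫ x, |f x| := by
  obtain ⟨s, K, hs, hps, hK, hpos, hz, hsm⟩ := region g χ hg hgc hχ p₀ hp₀
  have hev : ∀ f : E d → ℝ, (fun p => ∫ y, g y * f (p + χ p • y)) =ᶠ[𝓝 p₀]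
      fun p => (f ⋆[ContinuousLinearMap.mul ℝ ℝ, volume] kk g χ p) 0 := by
    intro f
    filter_upwards [hs.mem_nhds hps] with p hp
    exact subst g χ f p (hpos p hp)
  refine ⟨fun f hfi => ?_, ?_⟩
  · refine ContDiffAt.congr_of_eventuallyEq ?_ (hev f)
    have h1 := contDiffOn_convolution_right_with_param_comp (n := (⊤ : ℕ∞))
      (ContinuousLinearMap.mul ℝ ℝ) (v := fun _ : E d => (0 : E d)) contDiffOn_const hs hK hz
      hfi.locallyIntegrable hsm
    exact h1.contDiffAt (hs.mem_nhds hps)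
  · -- bounds
    have hc1 : ContinuousOn (Function.HasUncurry.uncurry (kk g χ)) (s ×ˢ univ) := hsm.continuousOn
    have hc2 : ContinuousOn (fderiv ℝ (Function.HasUncurry.uncurry (kk g χ))) (s ×ˢ univ) :=
      hsm.continuousOn_fderiv_of_isOpen (hs.prod isOpen_univ) (by simp)
    have hm : ContinuousOn (fun x : E d => (p₀, x)) K := by fun_prop
    have hmm : MapsTo (fun x : E d => (p₀, x)) K (s ×ˢ univ) := fun x _ => ⟨hps, mem_univ _⟩
    obtain ⟨C1, hC1⟩ := hK.exists_bound_of_continuousOn (hc1.comp hm hmm)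
    obtain ⟨C2, hC2⟩ := hK.exists_bound_of_continuousOn (hc2.comp hm hmm)
    have hz' : ∀ x, x ∉ K → fderiv ℝ (Function.HasUncurry.uncurry (kk g χ)) (p₀, x) = 0 := by
      intro x hx
      apply (hasFDerivAt_zero_of_eventually_const (0 : ℝ) _).fderiv
      have M2 : Kᶜ ∈ 𝓝 x := IsOpen.mem_nhds hK.isClosed.isOpen_compl hx
      have M1 : s ∈ 𝓝 p₀ := hs.mem_nhds hps
      rw [nhds_prod_eq]
      filter_upwards [prod_mem_prod M1 M2]
      rintro ⟨p, y⟩ ⟨hp, hy⟩
      exact hz p y hp hy
    have hb1 : ∀ x, ‖kk g χ p₀ x‖ ≤ |C1| := by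
      intro x
      by_cases hx : x ∈ K
      · exact (hC1 x hx).trans (le_abs_self _)
      · rw [hz p₀ x hps hx, norm_zero]; exact abs_nonneg _
    have hb2 : ∀ x, ‖fderiv ℝ (Function.HasUncurry.uncurry (kk g χ)) (p₀, x)‖ ≤ |C2| := by
      intro x
      by_cases hx : x ∈ K
      · exact (hC2 x hx).trans (le_abs_self _)
      · rw [hz' x hx, norm_zero]; exact abs_nonneg _
    set L := (ContinuousLinearMap.mul ℝ ℝ).precompR (E d × E d) with hL
    have hLs : ∀ (u : ℝ) (T : E d × E d →L[ℝ] ℝ), L u T = u • T := by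
      intro u T
      ext v <;> simp [hL, ContinuousLinearMap.precompR_apply]
    refine ⟨max |C1| |C2|, fun f hfi => ?_⟩
    have hfn : 0 ≤ ∫ x, |f x| := integral_nonneg fun x => abs_nonneg _
    have hfa : Integrable (fun x => |f x|) volume := hfi.abs
    constructor
    · rw [subst g χ f p₀ hp₀]
      unfold convolution
      have h1 : |∫ t, ((ContinuousLinearMap.mul ℝ ℝ) (f t)) (kk g χ p₀ (0 - t))| ≤
          ∫ t, |C1| * |f t| := by
        rw [← Real.norm_eq_abs]
        refine norm_integral_le_of_norm_le (hfa.const_mul _) (ae_of_all _ fun t => ?_)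
        rw [ContinuousLinearMap.mul_apply', norm_mul, Real.norm_eq_abs (f t), mul_comm]
        exact mul_le_mul_of_nonneg_right (hb1 _) (abs_nonneg _)
      refine h1.trans ?_
      rw [integral_const_mul]
      exact mul_le_mul_of_nonneg_right (le_max_left _ _) hfn
    · have h1 := hasFDerivAt_convolution_right_with_param (μ := volume)
        (ContinuousLinearMap.mul ℝ ℝ) hs hK hz
        hfi.locallyIntegrable (hsm.of_le (by simp)) (p₀, (0 : E d)) hps
      have h2 : HasFDerivAt (fun p : E d => (p, (0 : E d)))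
          (ContinuousLinearMap.inl ℝ (E d) (E d)) p₀ := hasFDerivAt_prodMk_left p₀ 0
      have h3 := h1.comp p₀ h2
      have h4 := (h3.congr_of_eventuallyEq (hev f)).fderiv
      rw [h4]
      have h5 : ‖(f ⋆[L, volume] fun x : E d => fderiv ℝ (Function.HasUncurry.uncurry (kk g χ))
          (p₀, x)) 0‖ ≤ |C2| * ∫ x, |f x| := by
        unfold convolution
        rw [← integral_const_mul]
        refine norm_integral_le_of_norm_le (hfa.const_mul _) (ae_of_all _ fun t => ?_)
        rw [hLs, norm_smul, Real.norm_eq_abs, mul_comm]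
        exact mul_le_mul_of_nonneg_right (hb2 (0 - t)) (abs_nonneg _)
      refine (ContinuousLinearMap.opNorm_comp_le _ _).trans ?_
      have h7 : ‖ContinuousLinearMap.inl ℝ (E d) (E d)‖ ≤ 1 := by
        refine ContinuousLinearMap.opNorm_le_bound _ zero_le_one fun x => ?_
        rw [ContinuousLinearMap.inl_apply, Prod.norm_def, norm_zero, one_mul]
        exact max_le le_rfl (norm_nonneg _)
      calc _ ≤ (|C2| * ∫ x, |f x|) * 1 :=
            mul_le_mul h5 h7 (norm_nonneg _) (by positivity)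
        _ = |C2| * ∫ x, |f x| := mul_one _
        _ ≤ _ := mul_le_mul_of_nonneg_right (le_max_right _ _) hfn

end Pool.Agent.Q235.SZ
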