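import Pool.Agent.Q235.SZ.W4
import Pool.Agent.Q235.SZ.GlueL
import Pool.Agent.Y501.SY.Bridge

/-!
Project SZ: the ratio of two products of two-forms on a four-manifold.
-/

set_option autoImplicit false

open Set Filter Topology MeasureTheory
open scoped Manifold ContDiff

noncomputable section

namespace Pool.Agent.Q235.SZ

open Pool.Agent.Y501.SYP
open Pool.Agent.Y501 (SY.E)

/-- the standard basis -/
def e4 : Module.Basis (Fin 4) ℝ (ES 4) := (EuclideanSpace.basisFun (Fin 4) ℝ).toBasis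

section

variable {X : Type} [TopologicalSpace X] [ChartedSpace (ES 4) X]

/-- the ratio of `s ∧ t` and `τ ∧ τ` at `x` -/
def rat (τ s t : Form (ES 4) X 2) (x : X) : ℝ :=
  wed (V := ES 4) (s x) (t x) e4 / wed (V := ES 4) (τ x) (τ x) e4

/-- joint continuity of a family of forms -/
def JC {k : ℕ} {B : Type} [TopologicalSpace B] (s : B → Form (ES 4) X k) : Prop :=
  ∀ x₀ : X, ContinuousOn (fun q : B × (ES 4) => pb (chartAt (ES 4) x₀).symm (s q.1) q.2)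
    (univ ×ˢ (chartAt (ES 4) x₀).target)

theorem JC.const {k : ℕ} {B : Type} [TopologicalSpace B] [IsManifold 𝓘(ℝ, ES 4) ∞ X]
    {η : Form (ES 4) X k} (hη : IsSmooth η) : JC (fun _ : B => η) := by
  intro x₀
  have h1 := (hη (chartAt (ES 4) x₀).target (chartAt (ES 4) x₀).symm
    ⟨(chartAt (ES 4) x₀).open_target, contMDiffOn_chart_symm⟩).continuousOn
  exact h1.comp continuousOn_snd (fun q hq => hq.2)

theorem pb_apply (φ : ES 4 → X) (σ : Form (ES 4) X 2) (p v w : ES 4) :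
    pb φ σ p ![v, w] = σ (φ p) ![mfderiv 𝓘(ℝ, ES 4) 𝓘(ℝ, ES 4) φ p v,
      mfderiv 𝓘(ℝ, ES 4) 𝓘(ℝ, ES 4) φ p w] := by
  have h : (fun i => mfderiv 𝓘(ℝ, ES 4) 𝓘(ℝ, ES 4) φ p (![v, w] i)) =
      (![mfderiv 𝓘(ℝ, ES 4) 𝓘(ℝ, ES 4) φ p v, mfderiv 𝓘(ℝ, ES 4) 𝓘(ℝ, ES 4) φ p w] :
        Fin 2 → TangentSpace 𝓘(ℝ, ES 4) (φ p)) := by
    funext i
    fin_cases i <;> rfl
  exact congrArg (fun m => σ (φ p) m) h

theorem wed_pb (φ : ES 4 → X) (σ θ : Form (ES 4) X 2) (p : ES 4) (v : Fin 4 → ES 4) :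
    wed (pb φ σ p) (pb φ θ p) v = wed (V := ES 4) (σ (φ p)) (θ (φ p))
      (fun i => mfderiv 𝓘(ℝ, ES 4) 𝓘(ℝ, ES 4) φ p (v i)) := by
  unfold wed
  simp only [pb_apply]
  rfl

variable [IsManifold 𝓘(ℝ, ES 4) ∞ X]

/-- the derivative of the inverse of a chart -/
theorem det_symm_ne (x₀ : X) {p : ES 4} (hp : p ∈ (chartAt (ES 4) x₀).target) :
    e4.det (fun i => (mfderiv 𝓘(ℝ, ES 4) 𝓘(ℝ, ES 4) (chartAt (ES 4) x₀).symm p (e4 i) : ES 4)) ≠ 0 := by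
  have hcd : (chartAt (ES 4) x₀).MDifferentiable 𝓘(ℝ, ES 4) 𝓘(ℝ, ES 4) :=
    mdifferentiable_chart (I := 𝓘(ℝ, ES 4)) x₀
  let A := hcd.symm.mfderiv hp
  let A' : ES 4 ≃L[ℝ] ES 4 := A
  have h1 := Module.Basis.isUnit_det e4 (e4.map A'.toLinearEquiv)
  have h2 : (⇑(e4.map A'.toLinearEquiv)) = fun i =>
      (mfderiv 𝓘(ℝ, ES 4) 𝓘(ℝ, ES 4) (chartAt (ES 4) x₀).symm p (e4 i) : ES 4) := by
    funext i
    rw [Module.Basis.map_apply]
    rfl
  rw [h2] at h1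
  exact h1.ne_zero

theorem rat_chart {τ : Form (ES 4) X 2} (hτ : ∀ x, wed (V := ES 4) (τ x) (τ x) e4 ≠ 0)
    (s t : Form (ES 4) X 2) (x₀ : X) {p : ES 4} (hp : p ∈ (chartAt (ES 4) x₀).target) :
    rat τ s t ((chartAt (ES 4) x₀).symm p) =
      wed (pb (chartAt (ES 4) x₀).symm s p) (pb (chartAt (ES 4) x₀).symm t p) e4 /
        wed (pb (chartAt (ES 4) x₀).symm τ p) (pb (chartAt (ES 4) x₀).symm τ p) e4 ∧
      wed (pb (chartAt (ES 4) x₀).symm τ p) (pb (chartAt (ES 4) x₀).symm τ p) e4 ≠ 0 := by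
  have hd := det_symm_ne x₀ hp
  rw [wed_pb, wed_pb]
  have h1 := wed_frame e4 (τ ((chartAt (ES 4) x₀).symm p)) (τ ((chartAt (ES 4) x₀).symm p))
    (fun i => (mfderiv 𝓘(ℝ, ES 4) 𝓘(ℝ, ES 4) (chartAt (ES 4) x₀).symm p (e4 i) : ES 4))
  have h2 := wed_frame e4 (s ((chartAt (ES 4) x₀).symm p)) (t ((chartAt (ES 4) x₀).symm p))
    (fun i => (mfderiv 𝓘(ℝ, ES 4) 𝓘(ℝ, ES 4) (chartAt (ES 4) x₀).symm p (e4 i) : ES 4))
  have h3 : wed (V := ES 4) (τ ((chartAt (ES 4) x₀).symm p)) (τ ((chartAt (ES 4) x₀).symm p))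
    (fun i => (mfderiv 𝓘(ℝ, ES 4) 𝓘(ℝ, ES 4) (chartAt (ES 4) x₀).symm p (e4 i) : ES 4)) ≠ 0 := by
    rw [h1]
    exact mul_ne_zero (hτ _) hd
  refine ⟨?_, h3⟩
  unfold rat
  erw [h2, h1]
  rw [mul_div_mul_right _ _ hd]

theorem rat_cont {τ : Form (ES 4) X 2} (hτs : IsSmooth τ)
    (hτ : ∀ x, wed (V := ES 4) (τ x) (τ x) e4 ≠ 0) {B : Type} [TopologicalSpace B]
    {s t : B → Form (ES 4) X 2} (hs : JC s) (ht : JC t) :
    Continuous fun q : B × X => rat τ (s q.1) (t q.1) q.2 := by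
  rw [continuous_iff_continuousAt]
  rintro ⟨b₀, x₀⟩
  let c := chartAt (ES 4) x₀
  have hev : ∀ (u w : ES 4), Continuous fun a : (ES 4) [⋀^Fin 2]→L[ℝ] ℝ => a ![u, w] := by
    intro u w
    exact continuous_eval_const _
  have hw : ∀ {f g : B × ES 4 → (ES 4) [⋀^Fin 2]→L[ℝ] ℝ} {S : Set (B × ES 4)},
      ContinuousOn f S → ContinuousOn g S →
      ContinuousOn (fun q => wed (f q) (g q) e4) S := by
    intro f g S hf hg
    have h1 := fun u w => (hev u w).comp_continuousOn hf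
    have h2 := fun u w => (hev u w).comp_continuousOn hg
    unfold wed
    exact ((((((h1 _ _).mul (h2 _ _)).sub ((h1 _ _).mul (h2 _ _))).add
      ((h1 _ _).mul (h2 _ _))).add ((h1 _ _).mul (h2 _ _))).sub
      ((h1 _ _).mul (h2 _ _))).add ((h1 _ _).mul (h2 _ _))
  have hc1 : ContinuousOn (fun q : B × ES 4 => wed (pb c.symm (s q.1) q.2) (pb c.symm (t q.1) q.2) e4 /
      wed (pb c.symm τ q.2) (pb c.symm τ q.2) e4) (univ ×ˢ c.target) := by
    have hτj := JC.const (B := B) hτs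
    refine (hw (hs x₀) (ht x₀)).div (hw (hτj x₀) (hτj x₀)) ?_
    rintro ⟨b, p⟩ ⟨_, hp⟩
    exact (rat_chart hτ τ τ x₀ hp).2
  have hopen : IsOpen ((univ : Set B) ×ˢ c.target) := isOpen_univ.prod c.open_target
  have hx : x₀ ∈ c.source := mem_chart_source (ES 4) x₀
  have hc2 : ContinuousAt (fun q : B × ES 4 => wed (pb c.symm (s q.1) q.2) (pb c.symm (t q.1) q.2) e4 /
      wed (pb c.symm τ q.2) (pb c.symm τ q.2) e4) (b₀, c x₀) :=
    hc1.continuousAt (hopen.mem_nhds ⟨mem_univ _, c.map_source hx⟩)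
  have hc3 : ContinuousAt (fun q : B × X => (q.1, c q.2)) (b₀, x₀) :=
    continuousAt_fst.prodMk ((c.continuousAt hx).comp continuousAt_snd)
  have hc4 := ContinuousAt.comp (f := fun q : B × X => (q.1, c q.2)) hc2 hc3
  refine hc4.congr ?_
  have hnear : ∀ᶠ q : B × X in 𝓝 (b₀, x₀), q.2 ∈ c.source :=
    continuousAt_snd.eventually (c.open_source.mem_nhds hx)
  filter_upwards [hnear] with q hq
  have h1 := (rat_chart hτ (s q.1) (t q.1) x₀ (c.map_source hq)).1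
  have h2 : (chartAt (ES 4) x₀).symm (c q.2) = q.2 := c.left_inv hq
  rw [h2] at h1
  exact h1.symm

end

end Pool.Agent.Q235.SZ
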