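import Pool.Agent.Q235.SZ.PubZ
import Pool.Agent.Q235.SZ.Rat
import Pool.Agent.Y391.SY.Haus

/-!
Project SZ: an exact form whose product with a degenerate form is positive over the points where
the latter is degenerate.
-/

set_option autoImplicit false

open Set Filter Topology MeasureTheory
open scoped Manifold ContDiff

noncomputable section

namespace Pool.Agent.Q235.SZ

open Pool.Agent.Y501.SYP

section lin

variable {V : Type} [NormedAddCommGroup V] [NormedSpace ℝ V] [FiniteDimensional ℝ V]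

open Pool.Agent.Y501.SY in
theorem exists_pair (e : Module.Basis (Fin 4) ℝ V) (a : V [⋀^Fin 2]→L[ℝ] ℝ) (ha : a ≠ 0) (v : V)
    (hv : ∀ w, a ![v, w] = 0) (l : V →L[ℝ] ℝ) (hl : l v ≠ 0) :
    ∃ l' : V →L[ℝ] ℝ, wed a (wedge l l') e ≠ 0 := by
  obtain ⟨u, w, huw⟩ : ∃ u w : V, a ![u, w] ≠ 0 := by
    by_contra h
    push Not at h
    apply ha
    ext m
    have : m = ![m 0, m 1] := by
      funext i; fin_cases i <;> rfl
    rw [this]
    exact h _ _
  have hlt : Submodule.span ℝ (Set.range ![v, u, w]) < ⊤ := by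
    refine lt_top_iff_ne_top.2 fun h => ?_
    have h1 := finrank_range_le_card (R := ℝ) ![v, u, w]
    unfold Set.finrank at h1
    rw [h, finrank_top, Module.finrank_eq_card_basis e] at h1
    simp at h1
  obtain ⟨f, hf, hker⟩ := Submodule.exists_le_ker_of_lt_top _ hlt
  have hf0 : ∀ i, f (![v, u, w] i) = 0 := fun i =>
    LinearMap.mem_ker.1 (hker (Submodule.subset_span (mem_range_self i)))
  have fv : f v = 0 := hf0 0
  have fu : f u = 0 := hf0 1
  have fw : f w = 0 := hf0 2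
  obtain ⟨y, hy⟩ : ∃ y, f y ≠ 0 := by
    by_contra h
    push Not at h
    exact hf (LinearMap.ext h)
  refine ⟨LinearMap.toContinuousLinearMap f, fun h0 => ?_⟩
  have h1 := wed_frame e a (wedge l (LinearMap.toContinuousLinearMap f)) ![v, u, w, y]
  rw [h0, zero_mul] at h1
  have h2 : wed a (wedge l (LinearMap.toContinuousLinearMap f)) ![v, u, w, y] =
      a ![u, w] * (l v * f y) := by
    unfold wed
    simp only [wedge_apply, hv, Matrix.cons_val_zero, Matrix.cons_val_one, Matrix.cons_val,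
      LinearMap.coe_toContinuousLinearMap', fv, fu, fw]
    ring
  rw [h2] at h1
  exact mul_ne_zero huw (mul_ne_zero hl hy) h1

end lin

section

variable {X : Type} [TopologicalSpace X] [ChartedSpace (ES 4) X]

theorem deg_eq {τ : Form (ES 4) X 2} (hτ : ∀ x, wed (V := ES 4) (τ x) (τ x) e4 ≠ 0)
    (s : Form (ES 4) X 2) : Deg s = {x | rat τ s s x = 0} := by
  ext x
  have h1 : rat τ s s x = 0 ↔ wed (V := ES 4) (s x) (s x) e4 = 0 := by
    unfold rat
    rw [div_eq_zero_iff]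
    exact or_iff_left (hτ x)
  rw [mem_ofPred_eq, h1]
  constructor
  · intro h
    exact sq_of_degenerate (V := ES 4) e4 (s x) h
  · intro h
    exact degenerate_of_sq (V := ES 4) e4 (s x) h

variable [IsManifold 𝓘(ℝ, ES 4) ∞ X]

attribute [local instance] cs mf

theorem exists_dd [T2Space X] (z : X) (l : ES 4 →L[ℝ] ℝ) :
    ∃ g : X → ℝ, SmoothFun (V := ES 4) g ∧
      ∀ v : TangentSpace 𝓘(ℝ, ES 4) z, dd g z v = l v := by
  let c := chartAt (ES 4) z
  have hz : z ∈ c.source := mem_chart_source (ES 4) z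
  have hcd : c.MDifferentiable 𝓘(ℝ, ES 4) 𝓘(ℝ, ES 4) :=
    mdifferentiable_chart (I := 𝓘(ℝ, ES 4)) z
  let A : TangentSpace 𝓘(ℝ, ES 4) z ≃L[ℝ] ES 4 := hcd.mfderiv hz
  have hA : ∀ v, A v = mfderiv 𝓘(ℝ, ES 4) 𝓘(ℝ, ES 4) c z v := fun v => rfl
  have hfd : FiniteDimensional ℝ (ES 4) := e4.finiteDimensional_of_finite
  obtain ⟨b⟩ : Nonempty (SmoothBumpFunction 𝓘(ℝ, ES 4) z) := inferInstance
  let F : X → ES 4 := fun x => b x • c x
  have hF : ContMDiff 𝓘(ℝ, ES 4) 𝓘(ℝ, ES 4) ∞ F :=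
    b.contMDiff_smul (contMDiffOn_chart (I := 𝓘(ℝ, ES 4)))
  have hFc : F =ᶠ[𝓝 z] c := by
    filter_upwards [b.eventuallyEq_one] with x hx
    change b x • c x = c x
    rw [hx]
    exact one_smul ℝ (c x)
  let l' : ES 4 →L[ℝ] ℝ := l.comp (A.symm : ES 4 →L[ℝ] TangentSpace 𝓘(ℝ, ES 4) z)
  refine ⟨fun x => l' (F x), l'.contDiff.contMDiff.comp hF, fun v => ?_⟩
  have hcdz : MDifferentiableAt 𝓘(ℝ, ES 4) 𝓘(ℝ, ES 4) c z := hcd.mdifferentiableAt hz
  have e1 : (fun x => l' (F x)) =ᶠ[𝓝 z] l' ∘ c := by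
    filter_upwards [hFc] with x hx
    change l' (F x) = l' (c x)
    rw [hx]
  unfold dd
  rw [e1.mfderiv_eq, mfderiv_comp z
    (l'.contDiff.contMDiff.mdifferentiableAt (n := 1) one_ne_zero) hcdz,
    mfderiv_eq_fderiv, ContinuousLinearMap.fderiv]
  change l (A.symm (A v)) = l v
  rw [A.symm_apply_apply]

/-- the functional of the construction -/
def LL (τ s : Form (ES 4) X 2) : Fun2 4 X := fun x =>
  { toFun := fun t => wed (V := ES 4) (s x) t e4 / wed (V := ES 4) (τ x) (τ x) e4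
    map_add' := fun a b => by
      erw [wed_add_right (V := ES 4)]
      exact add_div _ _ _
    map_smul' := fun c a => by
      erw [wed_smul_right (V := ES 4)]
      exact mul_div_assoc _ _ _ }

theorem LL_apply (τ s η : Form (ES 4) X 2) (x : X) : LL τ s x (η x) = rat τ s η x := rfl

theorem dfdg_smooth {f g : X → ℝ} (hf : SmoothFun (V := ES 4) f) (hg : SmoothFun (V := ES 4) g) :
    IsSmooth (V := ES 4) (X := X) (Pool.Agent.Y501.SY.dfdg (d := 4) f g) := by
  have h := (Pool.Agent.Y484.SY.t_GEN 4 X (fun _ => 1) f g contMDiff_const hf hg).2.1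
  have h2 : Pool.Agent.Y501.SY.hdfdg (d := 4) (fun _ => (1 : ℝ)) f g =
      Pool.Agent.Y501.SY.dfdg f g := by
    funext x; exact one_smul ℝ _
  rw [h2] at h
  exact (smooth_iff _).2 h

theorem LL_cont {τ s : Form (ES 4) X 2} (hτs : IsSmooth τ)
    (hτ : ∀ x, wed (V := ES 4) (τ x) (τ x) e4 ≠ 0) (hs : IsSmooth s) : ContL (LL τ s) := by
  intro f g hf hg
  have h1 := rat_cont (B := Unit) hτs hτ (JC.const hs) (JC.const (dfdg_smooth hf hg))
  exact h1.comp (continuous_const.prodMk continuous_id : Continuous fun x : X => ((), x))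

theorem thin_of_small [T2Space X] {τ s : Form (ES 4) X 2}
    (hτ : ∀ x, wed (V := ES 4) (τ x) (τ x) e4 ≠ 0) {C : Set X} {z : X}
    (hz : z ∈ Deg s) (hne : s z ≠ 0) (h : SmallFor s C z) : ThinL (LL τ s) C z := by
  have hfd : FiniteDimensional ℝ (ES 4) := e4.finiteDimensional_of_finite
  -- the two functions
  have key : ∃ g b : X → ℝ, SmoothFun (V := ES 4) g ∧ SmoothFun (V := ES 4) b ∧
      LL τ s z (Pool.Agent.Y501.SY.dfdg (d := 4) g b z) ≠ 0 ∧
      ∀ c : ℝ, ∃ N ∈ 𝓝 z, volume ((fun x => (c * g x, b x)) '' (C ∩ N)) = 0 := by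
    have main : ∀ (v : TangentSpace 𝓘(ℝ, ES 4) z), (∀ w, s z ![v, w] = 0) →
        ∀ g : X → ℝ, SmoothFun (V := ES 4) g → dd g z v ≠ 0 → ∃ b : X → ℝ,
        SmoothFun (V := ES 4) b ∧
        LL τ s z (Pool.Agent.Y501.SY.dfdg (d := 4) g b z) ≠ 0 := by
      intro v hv g hg hgv
      let l : ES 4 →L[ℝ] ℝ := mfderiv 𝓘(ℝ, ES 4) 𝓘(ℝ, ℝ) g z
      obtain ⟨l', hl'⟩ := exists_pair (V := ES 4) e4 (s z) hne v hv l hgv
      obtain ⟨b, hb, hbl⟩ := exists_dd z l'
      refine ⟨b, hb, ?_⟩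
      have h1 : Pool.Agent.Y501.SY.dfdg (d := 4) g b z = Pool.Agent.Y501.SY.wedge (V := ES 4) l l' := by
        unfold Pool.Agent.Y501.SY.dfdg
        have h2 : (Pool.Agent.Y501.SY.dd (d := 4) b z : ES 4 →L[ℝ] ℝ) = l' := by
          ext v
          exact hbl v
        exact congrArg (fun k => Pool.Agent.Y501.SY.wedge (V := ES 4) l k) h2
      rw [h1]
      exact div_ne_zero hl' (hτ z)
    rcases h with ⟨N, hN, hN0⟩ | ⟨v, hv, hvT⟩
    · obtain ⟨v, hv0, hv⟩ := hz
      obtain ⟨k, hk⟩ : ∃ k : ES 4 →L[ℝ] ℝ, k v ≠ 0 := by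
        by_contra hc
        push Not at hc
        exact hv0 ((NormedSpace.eq_zero_iff_forall_dual_eq_zero ℝ (E := ES 4) v).2 hc)
      obtain ⟨g, hg, hgk⟩ := exists_dd z k
      obtain ⟨b, hb, hgb⟩ := main v hv g hg (by rw [hgk]; exact hk)
      refine ⟨g, b, hg, hb, hgb, fun c => ?_⟩
      obtain ⟨N', hN', h0⟩ := Pool.Agent.Y391.SY.local_null (d := 4) (C := C ∩ N)
        (f := fun x => c * g x) (g := b) ((Pool.Agent.Y501.SY.SmoothFun.const c).mul hg) hb z hN0
      refine ⟨N ∩ N', Filter.inter_mem hN hN', ?_⟩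
      rwa [← inter_assoc]
    · unfold ZT at hvT
      push Not at hvT
      obtain ⟨g, hg, hgC, hgv⟩ := hvT
      obtain ⟨b, hb, hgb⟩ := main v hv g hg hgv
      refine ⟨g, b, hg, hb, hgb, fun c => ⟨univ, univ_mem, ?_⟩⟩
      refine measure_mono_null (t := ({0} : Set ℝ) ×ˢ (univ : Set ℝ)) ?_ ?_
      · rintro _ ⟨x, ⟨hx, _⟩, rfl⟩
        refine ⟨?_, mem_univ _⟩
        change c * g x = 0
        rw [hgC x hx, mul_zero]
      · rw [Measure.volume_eq_prod, Measure.prod_prod, Real.volume_singleton, zero_mul]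
  obtain ⟨g, b, hg, hb, hgb, hnull⟩ := key
  rcases lt_or_gt_of_ne hgb with hlt | hgt
  · obtain ⟨N, hN, h0⟩ := hnull (-1)
    refine ⟨1, fun _ => fun x => (-1) * g x, fun _ => b, N, hN,
      fun _ => (Pool.Agent.Y501.SY.SmoothFun.const (-1)).mul hg, fun _ => hb, fun _ => h0, ?_⟩
    rw [Fin.sum_univ_one]
    have h1 : Pool.Agent.Y501.SY.dfdg (d := 4) (fun x => (-1) * g x) b z =
        (-1 : ℝ) • Pool.Agent.Y501.SY.dfdg (d := 4) g b z := by
      refine ext2 _ _ fun v w => ?_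
      change _ = (-1 : ℝ) * Pool.Agent.Y501.SY.dfdg (d := 4) g b z ![v, w]
      rw [Pool.Agent.Y501.SY.dfdg_apply, Pool.Agent.Y501.SY.dfdg_apply,
        Pool.Agent.Y501.SY.dd_mul (Pool.Agent.Y501.SY.SmoothFun.const (-1)) hg,
        Pool.Agent.Y501.SY.dd_mul (Pool.Agent.Y501.SY.SmoothFun.const (-1)) hg]
      have h6 : ∀ w : TangentSpace (𝓡 4) z,
          Pool.Agent.Y501.SY.dd (d := 4) (fun _ : X => (-1 : ℝ)) z w = 0 := by
        intro w
        unfold Pool.Agent.Y501.SY.dd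
        rw [mfderiv_const]; rfl
      rw [h6, h6]
      ring
    rw [h1, map_smul, smul_eq_mul]
    linarith
  · obtain ⟨N, hN, h0⟩ := hnull 1
    simp only [one_mul] at h0
    refine ⟨1, fun _ => g, fun _ => b, N, hN, fun _ => hg, fun _ => hb, fun _ => h0, ?_⟩
    rw [Fin.sum_univ_one]
    exact hgt

/-- An exact form positive over the degenerate points. -/
theorem exists_pos [CompactSpace X] [T2Space X] {τ s : Form (ES 4) X 2} (hτs : IsSmooth τ)
    (hτ : ∀ x, wed (V := ES 4) (τ x) (τ x) e4 ≠ 0) (hs : IsSmooth s)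
    (hne : ∀ z ∈ Deg s, s z ≠ 0)
    (hsmall : ∀ z ∈ Deg s, SmallFor s (connectedComponentIn (Deg s) z) z) :
    ∃ (α : Form (ES 4) X 1) (η : Form (ES 4) X 2), IsSmooth α ∧ IsSmooth η ∧ IsD α η ∧
      IsClosedForm η ∧ ∀ x, rat τ s s x = 0 → 0 < rat τ s η x := by
  have hc : Continuous fun x => rat τ s s x :=
    (rat_cont (B := Unit) hτs hτ (JC.const hs) (JC.const hs)).comp
      (continuous_const.prodMk continuous_id : Continuous fun x : X => ((), x))
  have hD : IsCompact (Deg s) := by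
    rw [deg_eq hτ]
    exact (isClosed_eq hc continuous_const).isCompact
  obtain ⟨α, η, hpair, hpos⟩ := glueL (d := 4) (X := X) (LL_cont hτs hτ hs) hD
    (fun z hz => thin_of_small hτ hz (hne z hz) (hsmall z hz))
  obtain ⟨h1, h2, h3, h4⟩ := hpair.props Pool.Agent.Y484.SY.t_GEN
  refine ⟨α, η, (smooth_iff α).2 h1, (smooth_iff η).2 h2, (isD_iff α η).2 h3,
    (closed_iff η).2 h4, fun x hx => ?_⟩
  have hxD : x ∈ Deg s := by
    rw [deg_eq hτ]
    exact hx
  exact hpos x hxD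

end

end Pool.Agent.Q235.SZ
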