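import Pool.Agent.Q235.SZ.Int

/-!
# An exact form with logarithmic potential
-/

set_option autoImplicit false

open Set Filter Topology MeasureTheory
open scoped Manifold ContDiff Pointwise

noncomputable section

namespace Pool.Agent.Q235.SZ

open Pool.Agent.Y501.SY Pool.Agent.Y515.SY

variable {d : ℕ}

theorem ext_pair {α : E d → (E d →L[ℝ] ℝ)} {x : E d} (hα : DifferentiableAt ℝ α x) (u v : E d) :
    extDeriv (fun p => (ContinuousAlternatingMap.ofSubsingletonLIE (𝕜 := ℝ) (E := E d) (F := ℝ)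
      (0 : Fin 1)) (α p)) x ![u, v] = fderiv ℝ α x u v - fderiv ℝ α x v u := by
  have h1 : DifferentiableAt ℝ (fun p => (ContinuousAlternatingMap.ofSubsingletonLIE (𝕜 := ℝ)
      (E := E d) (F := ℝ) (0 : Fin 1)) (α p)) x :=
    (ContinuousAlternatingMap.ofSubsingletonLIE (𝕜 := ℝ) (E := E d) (F := ℝ)
      (0 : Fin 1)).differentiable.differentiableAt.comp x hα
  rw [extDeriv_apply h1, Fin.sum_univ_two]
  have h2 : ∀ (w w' : E d), fderiv ℝ (fun p => α p w) x w' = fderiv ℝ α x w' w := by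
    intro w w'
    have h3 := (hα.hasFDerivAt.clm_apply (hasFDerivAt_const w x)).fderiv
    rw [h3]
    simp
  have h3 := h2 v u
  have h4 := h2 u v
  have e1 : (fun p => ((ContinuousAlternatingMap.ofSubsingletonLIE (𝕜 := ℝ) (E := E d) (F := ℝ)
      (0 : Fin 1)) (α p)) ((0 : Fin 2).removeNth ![u, v])) = fun p => α p v := rfl
  have e2 : (fun p => ((ContinuousAlternatingMap.ofSubsingletonLIE (𝕜 := ℝ) (E := E d) (F := ℝ)
      (0 : Fin 1)) (α p)) ((1 : Fin 2).removeNth ![u, v])) = fun p => α p u := rfl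
  rw [e1, e2]
  simp only [Fin.val_zero, pow_zero, one_smul, Fin.val_one, pow_one]
  change fderiv ℝ (fun p => α p v) x u + (-1 : ℤ) • fderiv ℝ (fun p => α p u) x v = _
  rw [h3, h4]
  simp [sub_eq_add_neg]

/-- the bilinear form `⟪J u, v⟫ - ⟪u, J v⟫` -/
def W (J : E d →L[ℝ] E d) : E d →L[ℝ] E d →L[ℝ] ℝ :=
  (innerSL ℝ).comp J - ((innerSL ℝ : E d →L[ℝ] E d →L[ℝ] ℝ).flip.comp J).flip

theorem W_apply (J : E d →L[ℝ] E d) (u v : E d) :
    W J u v = inner ℝ (J u) v - inner ℝ u (J v) := rfl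

theorem W_swap (J : E d →L[ℝ] E d) (u v : E d) : W J u v = - W J v u := by
  rw [W_apply, W_apply, real_inner_comm v (J u), real_inner_comm (J v) u]
  ring

/-- the square of the Hermitian norm -/
def N (J : E d →L[ℝ] E d) (y : E d) : ℝ := ‖y‖ ^ 2 + ‖J y‖ ^ 2

/-- the Hermitian scalar product -/
def BB (J : E d →L[ℝ] E d) (y u : E d) : ℝ := inner ℝ y u + inner ℝ (J y) (J u)

section alg

variable {J : E d →L[ℝ] E d} (hJ : ∀ v, J (J v) = -v)
include hJ

theorem W_self (v : E d) : W J v (J v) = N J v := by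
  rw [W_apply, hJ, inner_neg_right, real_inner_self_eq_norm_sq, real_inner_self_eq_norm_sq]
  unfold N
  ring

theorem W_J (y u : E d) : W J y (J u) = BB J y u := by
  rw [W_apply, hJ, inner_neg_right]
  unfold BB
  ring

theorem BB_J (y u : E d) : BB J y (J u) = - W J y u := by
  rw [W_apply]
  unfold BB
  rw [hJ, inner_neg_right]
  ring

theorem bessel (y u : E d) : BB J y u ^ 2 + W J y u ^ 2 ≤ N J y * N J u := by
  set a := BB J y u with ha
  set b := W J y u with hb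
  have hN : 0 ≤ N J y * N J u := by unfold N; positivity
  by_cases h0 : a ^ 2 + b ^ 2 = 0
  · rw [h0]; exact hN
  have hpos : 0 < a ^ 2 + b ^ 2 := lt_of_le_of_ne (by positivity) (Ne.symm h0)
  set z : E d := a • y + b • J y with hz
  have hJz : J z = a • J y - b • y := by
    rw [hz, map_add, map_smul, map_smul, hJ, smul_neg, sub_eq_add_neg]
  have h1 : inner ℝ z u + inner ℝ (J z) (J u) = a ^ 2 + b ^ 2 := by
    rw [hJz, hz, inner_add_left, inner_sub_left, inner_smul_left, inner_smul_left,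
      inner_smul_left, inner_smul_left]
    simp only [conj_trivial]
    have e1 : a = inner ℝ y u + inner ℝ (J y) (J u) := rfl
    have e2 : b = inner ℝ (J y) u - inner ℝ y (J u) := rfl
    calc a * inner ℝ y u + b * inner ℝ (J y) u + (a * inner ℝ (J y) (J u) - b * inner ℝ y (J u))
        = a * (inner ℝ y u + inner ℝ (J y) (J u)) + b * (inner ℝ (J y) u - inner ℝ y (J u)) := by
          ring
      _ = a * a + b * b := by rw [← e1, ← e2]
      _ = _ := by ring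
  have h2 : ‖z‖ ^ 2 + ‖J z‖ ^ 2 = (a ^ 2 + b ^ 2) * N J y := by
    rw [← real_inner_self_eq_norm_sq, ← real_inner_self_eq_norm_sq, hJz, hz]
    simp only [inner_add_left, inner_add_right, inner_sub_left, inner_sub_right, inner_smul_left,
      inner_smul_right, conj_trivial, real_inner_self_eq_norm_sq]
    rw [real_inner_comm y (J y)]
    unfold N
    ring
  have h3 := abs_real_inner_le_norm z u
  have h4 := abs_real_inner_le_norm (J z) (J u)
  have h5 : a ^ 2 + b ^ 2 ≤ ‖z‖ * ‖u‖ + ‖J z‖ * ‖J u‖ := by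
    rw [← h1]
    linarith [le_abs_self (inner ℝ z u), le_abs_self (inner ℝ (J z) (J u))]
  have h6 : (a ^ 2 + b ^ 2) ^ 2 ≤ (‖z‖ ^ 2 + ‖J z‖ ^ 2) * (‖u‖ ^ 2 + ‖J u‖ ^ 2) := by
    have h7 : (a ^ 2 + b ^ 2) ^ 2 ≤ (‖z‖ * ‖u‖ + ‖J z‖ * ‖J u‖) ^ 2 :=
      pow_le_pow_left₀ hpos.le h5 2
    nlinarith [sq_nonneg (‖z‖ * ‖J u‖ - ‖J z‖ * ‖u‖)]
  rw [h2] at h6
  have h8 : (a ^ 2 + b ^ 2) * (a ^ 2 + b ^ 2) ≤ (a ^ 2 + b ^ 2) * (N J y * N J u) := by
    calc (a ^ 2 + b ^ 2) * (a ^ 2 + b ^ 2) = (a ^ 2 + b ^ 2) ^ 2 := by ring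
      _ ≤ _ := h6
      _ = _ := by unfold N; ring
  exact le_of_mul_le_mul_left h8 hpos

end alg

theorem N_ge (J : E d →L[ℝ] E d) (y : E d) : ‖y‖ ^ 2 ≤ N J y := by
  unfold N
  linarith [sq_nonneg ‖J y‖]

theorem N_le (J : E d →L[ℝ] E d) (y : E d) : N J y ≤ (1 + ‖J‖) ^ 2 * ‖y‖ ^ 2 := by
  unfold N
  have h1 : ‖J y‖ ^ 2 ≤ (‖J‖ * ‖y‖) ^ 2 := pow_le_pow_left₀ (norm_nonneg _) (J.le_opNorm y) 2
  have h2 : 0 ≤ ‖J‖ * ‖y‖ ^ 2 := by positivity
  nlinarith

theorem W_le (J : E d →L[ℝ] E d) (u v : E d) : |W J u v| ≤ 2 * (1 + ‖J‖) * (‖u‖ * ‖v‖) := by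
  rw [W_apply]
  have h1 := abs_real_inner_le_norm (J u) v
  have h2 := abs_real_inner_le_norm u (J v)
  have h3 := mul_le_mul_of_nonneg_right (J.le_opNorm u) (norm_nonneg v)
  have h4 := mul_le_mul_of_nonneg_left (J.le_opNorm v) (norm_nonneg u)
  have h5 := abs_sub (inner ℝ (J u) v) (inner ℝ u (J v))
  have h6 : 0 ≤ ‖u‖ * ‖v‖ := by positivity
  nlinarith

theorem BB_le (J : E d →L[ℝ] E d) (u v : E d) : |BB J u v| ≤ (1 + ‖J‖) ^ 2 * (‖u‖ * ‖v‖) := by
  unfold BB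
  have h1 := abs_real_inner_le_norm u v
  have h2 := abs_real_inner_le_norm (J u) (J v)
  have h3 : ‖J u‖ * ‖J v‖ ≤ (‖J‖ * ‖u‖) * (‖J‖ * ‖v‖) :=
    mul_le_mul (J.le_opNorm u) (J.le_opNorm v) (norm_nonneg _) (by positivity)
  have h5 := abs_add_le (inner ℝ u v) (inner ℝ (J u) (J v))
  have h6 : 0 ≤ ‖u‖ * ‖v‖ := by positivity
  have h7 : 0 ≤ ‖J‖ * (‖u‖ * ‖v‖) := by positivity
  nlinarith

theorem N_deriv (J : E d →L[ℝ] E d) (c x : E d) :
    HasFDerivAt (fun x => N J (x - c)) ((2 : ℝ) • (innerSL ℝ (x - c) +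
      (innerSL ℝ (J (x - c))).comp J)) x := by
  unfold N
  have h1 : HasFDerivAt (fun x : E d => x - c) (ContinuousLinearMap.id ℝ (E d)) x :=
    (hasFDerivAt_id x).sub_const c
  have h2 := h1.norm_sq
  have h3 := (J.hasFDerivAt.comp x h1).norm_sq
  refine (h2.add h3).congr_fderiv ?_
  ext v
  simp only [_root_.add_apply, _root_.smul_apply,
    ContinuousLinearMap.comp_apply, ContinuousLinearMap.id_apply, Function.comp]
  ring_nf

theorem N_fderiv (J : E d →L[ℝ] E d) (c x u : E d) :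
    fderiv ℝ (fun x => N J (x - c)) x u = 2 * BB J (x - c) u := by
  rw [(N_deriv J c x).fderiv]
  rfl

theorem N_smooth (J : E d →L[ℝ] E d) (c : E d) : ContDiff ℝ ∞ (fun x => N J (x - c)) := by
  unfold N
  have h1 : ContDiff ℝ ∞ (fun x : E d => x - c) := contDiff_id.sub contDiff_const
  exact (h1.norm_sq ℝ).add ((J.contDiff.comp h1).norm_sq ℝ)

end Pool.Agent.Q235.SZ
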