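import Pool.Agent.Q235.SZ.Psh
import Pool.Agent.Y501.SY.Step

/-!
# An exact form with logarithmic potential
-/

set_option autoImplicit false

open Set Filter Topology MeasureTheory
open scoped Manifold ContDiff Pointwise

noncomputable section

namespace Pool.Agent.Q235.SZ

open Pool.Agent.Y501.SY Pool.Agent.Y515.SY

variable {d : ℕ}

/-- the form `d (h W(x - c, ·))` -/
def tau (J : E d →L[ℝ] E d) (c : E d) (h : E d → ℝ) : E d → Al d 2 :=
  extDeriv (fun p => (ContinuousAlternatingMap.ofSubsingletonLIE (𝕜 := ℝ) (E := E d) (F := ℝ)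
      (0 : Fin 1)) (h p • W J (p - c)))

section tau

variable {J : E d →L[ℝ] E d} {c : E d} {h : E d → ℝ} (hh : ContDiff ℝ ∞ h)
include hh

theorem al_smooth : ContDiff ℝ ∞ (fun p => h p • W J (p - c)) :=
  hh.smul ((W J).contDiff.comp (contDiff_id.sub contDiff_const))

theorem al_smooth1 : ContDiff ℝ ∞ (fun p => (ContinuousAlternatingMap.ofSubsingletonLIE (𝕜 := ℝ)
    (E := E d) (F := ℝ) (0 : Fin 1)) (h p • W J (p - c))) :=
  (ContinuousAlternatingMap.ofSubsingletonLIE (𝕜 := ℝ) (E := E d) (F := ℝ)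
    (0 : Fin 1)).contDiff.comp (al_smooth hh)

theorem tau_smooth : ContDiff ℝ ∞ (tau J c h) := by
  have h1 : ContDiff ℝ ∞ (fderiv ℝ (fun p => (ContinuousAlternatingMap.ofSubsingletonLIE (𝕜 := ℝ)
    (E := E d) (F := ℝ) (0 : Fin 1)) (h p • W J (p - c)))) :=
    (al_smooth1 hh).fderiv_right (by simp)
  exact (ContinuousAlternatingMap.alternatizeUncurryFinCLM ℝ (E d) ℝ).contDiff.comp h1

theorem tau_closed (x : E d) : extDeriv (tau J c h) x = 0 :=
  extDeriv_extDeriv_apply (al_smooth1 hh).contDiffAt smooth2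

theorem tau_apply (x u v : E d) : tau J c h x ![u, v] =
    fderiv ℝ h x u * W J (x - c) v - fderiv ℝ h x v * W J (x - c) u + 2 * h x * W J u v := by
  have h1 : DifferentiableAt ℝ (fun p => h p • W J (p - c)) x :=
    (al_smooth hh).differentiable (by simp) x
  have h2 : tau J c h x ![u, v] = fderiv ℝ (fun p => h p • W J (p - c)) x u v -
      fderiv ℝ (fun p => h p • W J (p - c)) x v u := ext_pair h1 u v
  have h3 : HasFDerivAt h (fderiv ℝ h x) x := (hh.differentiable (by simp) x).hasFDerivAt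
  have h4 : HasFDerivAt (fun p => W J (p - c)) ((W J).comp (ContinuousLinearMap.id ℝ (E d))) x :=
    (W J).hasFDerivAt.comp x ((hasFDerivAt_id x).sub_const c)
  rw [ContinuousLinearMap.comp_id] at h4
  have h6 : fderiv ℝ (fun p => h p • W J (p - c)) x =
      h x • W J + (fderiv ℝ h x).smulRight (W J (x - c)) := (h3.smul h4).fderiv
  have h7 : ∀ u v : E d, (h x • W J + (fderiv ℝ h x).smulRight (W J (x - c))) u v =
      h x * W J u v + fderiv ℝ h x u * W J (x - c) v := fun u v => rfl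
  rw [h2, h6, h7, h7, W_swap J v u]
  ring

theorem tau_bound (x u v : E d) : |tau J c h x ![u, v]| ≤
    4 * (1 + ‖J‖) * (‖fderiv ℝ h x‖ * ‖x - c‖ + |h x|) * (‖u‖ * ‖v‖) := by
  rw [tau_apply hh]
  have h1 := W_le J (x - c) v
  have h2 := W_le J (x - c) u
  have h3 := W_le J u v
  have h4 := (fderiv ℝ h x).le_opNorm u
  have h5 := (fderiv ℝ h x).le_opNorm v
  rw [Real.norm_eq_abs] at h4 h5
  have k1 : |fderiv ℝ h x u * W J (x - c) v| ≤
      (‖fderiv ℝ h x‖ * ‖u‖) * (2 * (1 + ‖J‖) * (‖x - c‖ * ‖v‖)) := by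
    rw [abs_mul]
    exact mul_le_mul h4 h1 (abs_nonneg _) (by positivity)
  have k2 : |fderiv ℝ h x v * W J (x - c) u| ≤
      (‖fderiv ℝ h x‖ * ‖v‖) * (2 * (1 + ‖J‖) * (‖x - c‖ * ‖u‖)) := by
    rw [abs_mul]
    exact mul_le_mul h5 h2 (abs_nonneg _) (by positivity)
  have k3 : |2 * h x * W J u v| ≤ 2 * |h x| * (2 * (1 + ‖J‖) * (‖u‖ * ‖v‖)) := by
    rw [abs_mul, abs_mul, abs_two]
    exact mul_le_mul_of_nonneg_left h3 (by positivity)
  refine (abs_add_le _ _).trans ?_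
  have k4 := abs_sub (fderiv ℝ h x u * W J (x - c) v) (fderiv ℝ h x v * W J (x - c) u)
  calc _ ≤ ((‖fderiv ℝ h x‖ * ‖u‖) * (2 * (1 + ‖J‖) * (‖x - c‖ * ‖v‖)) +
        (‖fderiv ℝ h x‖ * ‖v‖) * (2 * (1 + ‖J‖) * (‖x - c‖ * ‖u‖))) +
        2 * |h x| * (2 * (1 + ‖J‖) * (‖u‖ * ‖v‖)) := by linarith
    _ = _ := by ring

theorem tau_norm (x : E d) : ‖tau J c h x‖ ≤
    4 * (1 + ‖J‖) * (‖fderiv ℝ h x‖ * ‖x - c‖ + |h x|) := by
  refine norm_le2 _ (by positivity) fun u v => ?_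
  rw [mul_assoc _ ‖u‖]
  exact tau_bound hh x u v

end tau

/-- the radial function -/
def G (A b x : ℝ) : ℝ := x⁻¹ + A * x ^ (b - 1)

/-- its derivative -/
def G' (A b x : ℝ) : ℝ := -(x⁻¹ * x⁻¹) - A * (1 - b) * (x ^ (b - 1) * x⁻¹)

theorem G_deriv {A b x : ℝ} (hx : 0 < x) : HasDerivAt (G A b) (G' A b x) x := by
  have h1 := hasDerivAt_inv hx.ne'
  have h2 := (Real.hasDerivAt_rpow_const (p := b - 1) (Or.inl hx.ne')).const_mul A
  refine (h1.add h2).congr_deriv ?_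
  unfold G'
  rw [Real.rpow_sub_one hx.ne', div_eq_mul_inv]
  ring

theorem G_pos {A b x : ℝ} (hA : 0 ≤ A) (hx : 0 < x) : 0 < G A b x := by
  unfold G
  positivity

theorem G'_neg {A b x : ℝ} (hA : 0 ≤ A) (hb : b < 1) (hx : 0 < x) : G' A b x ≤ 0 := by
  unfold G'
  have h1 : 0 ≤ x⁻¹ * x⁻¹ := by positivity
  have h2 : 0 ≤ A * (1 - b) * (x ^ (b - 1) * x⁻¹) :=
    mul_nonneg (mul_nonneg hA (by linarith)) (by positivity)
  linarith

theorem G'_le {A b q s : ℝ} (hA : 0 ≤ A) (hb0 : 0 ≤ b) (hb : b < 1) (hq : 0 ≤ q) (hs : 0 < s) :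
    |G' A b (q + s)| * q ≤ G A b (q + s) := by
  have hx : 0 < q + s := by linarith
  rw [abs_of_nonpos (G'_neg hA hb hx)]
  unfold G' G
  set X := (q + s)⁻¹ with hX
  set Y := (q + s) ^ (b - 1) with hY
  have hX0 : 0 < X := by positivity
  have hY0 : 0 < Y := by positivity
  have h1 : q * X ≤ 1 := by
    rw [hX, ← div_eq_mul_inv, div_le_one hx]
    linarith
  have h2 : 0 ≤ A * Y := by positivity
  have h3 : X * (q * X) ≤ X * 1 := mul_le_mul_of_nonneg_left h1 hX0.le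
  have h4 : (1 - b) * (q * X) ≤ 1 := by
    have : (1 - b) * (q * X) ≤ 1 * 1 := mul_le_mul (by linarith) h1 (by positivity) zero_le_one
    linarith
  have h5 : A * Y * ((1 - b) * (q * X)) ≤ A * Y * 1 := mul_le_mul_of_nonneg_left h4 h2
  calc -(-(X * X) - A * (1 - b) * (Y * X)) * q = X * (q * X) + A * Y * ((1 - b) * (q * X)) := by
        ring
    _ ≤ _ := by linarith

theorem P_ge {A b q s : ℝ} (hA : 0 ≤ A) (hb : b < 1) (hq : 0 ≤ q) (hs : 0 < s) :
    s * ((q + s)⁻¹ * (q + s)⁻¹) + A * b * (q + s) ^ (b - 1) ≤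
      G' A b (q + s) * q + G A b (q + s) := by
  have hx : 0 < q + s := by linarith
  unfold G' G
  set X := (q + s)⁻¹ with hX
  set Y := (q + s) ^ (b - 1) with hY
  have hX0 : 0 < X := by positivity
  have hY0 : 0 < Y := by positivity
  have h1 : q * X + s * X = 1 := by
    rw [← add_mul, hX, mul_inv_cancel₀ hx.ne']
  have h2 : 0 ≤ A * Y := by positivity
  have e1 : (-(X * X) - A * (1 - b) * (Y * X)) * q + (X + A * Y) =
      X * (1 - q * X) + A * Y * (1 - (1 - b) * (q * X)) := by ring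
  have e2 : 1 - q * X = s * X := by linarith
  have h3 : b ≤ 1 - (1 - b) * (q * X) := by
    have h4 : q * X ≤ 1 := by
      have : 0 ≤ s * X := by positivity
      linarith
    nlinarith
  rw [e1, e2]
  have h5 := mul_le_mul_of_nonneg_left h3 h2
  nlinarith

theorem err_le {A b q s : ℝ} (hb : 0 < b) (hq : 0 ≤ q) (hs : 0 < s)
    (h1 : A * (q + s) ^ b ≤ 1) (hA : 0 ≤ A) :
    G A b (q + s) * q ^ b ≤ 2 * (q + s) ^ (b - 1) := by
  have hx : 0 < q + s := by linarith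
  have h2 : q ^ b ≤ (q + s) ^ b := Real.rpow_le_rpow hq (by linarith) hb.le
  have h3 : (q + s) ^ b = (q + s) ^ (b - 1) * (q + s) := by
    rw [Real.rpow_sub_one hx.ne', div_mul_cancel₀ _ hx.ne']
  have h4 := G_pos (b := b) hA hx
  refine (mul_le_mul_of_nonneg_left h2 h4.le).trans ?_
  unfold G
  set Y := (q + s) ^ (b - 1) with hY
  have hY0 : 0 < Y := by positivity
  have e1 : ((q + s)⁻¹ + A * Y) * (q + s) ^ b = Y + Y * (A * (q + s) ^ b) := by
    have h5 : (q + s)⁻¹ * (q + s) ^ b = Y := by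
      rw [h3]
      field_simp
    rw [add_mul, h5]
    ring
  rw [e1]
  nlinarith

end Pool.Agent.Q235.SZ
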