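import Pool.Agent.Q235.SZ.PubZ

/-!
The symplectic forms in a cohomology class which weakly tame an almost complex structure: the
definitions used in the statement of the result.
-/

set_option autoImplicit false

open Set Filter Topology MeasureTheory
open scoped Manifold ContDiff

noncomputable section

namespace Pool.Agent.Q235.SZ

open Pool.Agent.Y501.SYP

section space

variable {V : Type} [NormedAddCommGroup V] [NormedSpace ℝ V]
  {X : Type} [TopologicalSpace X] [ChartedSpace V X]

/-- the symplectic forms cohomologous to `τ` -/
def SympClass (τ : SForm V X) : Set (SForm V X) := {σ | InClass τ.1 σ.1 ∧ Nondeg σ.1}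

/-- the points at which `σ` does not tame `J` -/
def Bad (σ : Form V X 2) (J : End V X) : Set X := {x | ¬ TamesAt σ J x}

/-- the symplectic forms in the class of `τ` with `σ(v, J v) ≥ 0` which tame `J` off a set with
small components -/
def Weak [MeasurableSpace V] [BorelSpace V] (τ : SForm V X) (J : End V X) : Set (SForm V X) :=
  {σ | σ ∈ SympClass τ ∧ (∀ (x : X) (v : TangentSpace 𝓘(ℝ, V) x), 0 ≤ qd σ.1 J x v) ∧
    ∀ z ∈ Bad σ.1 J, SmallAt J (connectedComponentIn (Bad σ.1 J) z) z (fun v => qd σ.1 J z v = 0)}

end space

end Pool.Agent.Q235.SZ
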