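import Pool.Agent.Y501.SY.Pub

/-!
The space of smooth two-forms on a manifold with the `C^∞` topology, and its subspaces of
symplectic and of thinly degenerate forms in a cohomology class: the definitions used in the
statement of the result.
-/

set_option autoImplicit false

open Set Filter Topology MeasureTheory
open scoped Manifold ContDiff

noncomputable section

namespace Pool.Agent.Q235.SZ

open Pool.Agent.Y501.SYP

section space

variable {V : Type} [NormedAddCommGroup V] [NormedSpace ℝ V]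
  {X : Type} [TopologicalSpace X] [ChartedSpace V X]

variable (V X) in
/-- the smooth two-forms on `X` -/
def SForm : Type := {σ : Form V X 2 // IsSmooth σ}

theorem smooth_chart [IsManifold 𝓘(ℝ, V) ∞ X] (σ : SForm V X) (x₀ : X) :
    ContDiffOn ℝ ∞ (pb (chartAt V x₀).symm σ.1) (chartAt V x₀).target :=
  σ.2 _ _ ⟨(chartAt V x₀).open_target, contMDiffOn_chart_symm⟩

/-- the derivatives of order `k` of the coefficients of `σ` in the chart at `x₀` -/
def jet [IsManifold 𝓘(ℝ, V) ∞ X] (x₀ : X) (k : ℕ) (σ : SForm V X) :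
    C((chartAt V x₀).target, V [×k]→L[ℝ] (V [⋀^Fin 2]→L[ℝ] ℝ)) :=
  ⟨fun p => iteratedFDeriv ℝ k (pb (chartAt V x₀).symm σ.1) p, by
    have h1 := (smooth_chart σ x₀).continuousOn_iteratedFDerivWithin (m := k)
      (by exact_mod_cast le_top) (chartAt V x₀).open_target.uniqueDiffOn
    have h2 := h1.congr (g := iteratedFDeriv ℝ k (pb (chartAt V x₀).symm σ.1))
      (fun p hp => (iteratedFDerivWithin_of_isOpen k (chartAt V x₀).open_target hp).symm)
    exact continuousOn_iff_continuous_domRestrict.1 h2⟩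

/-- the `C^∞` topology: uniform convergence on compact sets, in all charts, of all derivatives of
the coefficients (the target of `jet x₀ k` has the compact-open topology) -/
instance instTopSForm [IsManifold 𝓘(ℝ, V) ∞ X] : TopologicalSpace (SForm V X) :=
  ⨅ (x₀ : X) (k : ℕ), TopologicalSpace.induced (jet x₀ k) inferInstance

/-- the form `σ + t η` -/
def addS [IsManifold 𝓘(ℝ, V) ∞ X] (σ : SForm V X) (t : ℝ) (η : SForm V X) : SForm V X :=
  ⟨fun x => σ.1 x + t • η.1 x, fun U φ hφ => by
    have h1 := (σ.2 U φ hφ).add ((η.2 U φ hφ).const_smul t)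
    exact h1⟩

/-- the zero form -/
def zeroS [IsManifold 𝓘(ℝ, V) ∞ X] : SForm V X := ⟨fun _ => 0, fun U φ _ => by
  have : pb φ (fun _ => 0 : Form V X 2) = fun _ => 0 := by funext p; rfl
  rw [this]
  exact contDiffOn_const⟩

/-- the point `(1 - t) σ + t σ'` of the segment from `σ` to `σ'` -/
def seg [IsManifold 𝓘(ℝ, V) ∞ X] (σ σ' : SForm V X) (t : ℝ) : SForm V X :=
  addS (addS zeroS (1 - t) σ) t σ'

/-- the points at which the two-form `s` is degenerate -/
def Deg (s : Form V X 2) : Set X :=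
  {x | ∃ v : TangentSpace 𝓘(ℝ, V) x, v ≠ 0 ∧ ∀ w, s x ![v, w] = 0}

/-- `C` has zero area near `z` (its two-dimensional Hausdorff measure vanishes), or the kernel of
`s` at `z` is not contained in the tangent space of `C` at `z` (the vectors annihilated by the
differentials of all smooth functions which vanish on `C`). -/
def SmallFor [MeasurableSpace V] [BorelSpace V] (s : Form V X 2) (C : Set X) (z : X) : Prop :=
  (∃ N ∈ 𝓝 z, μH[2] (chartAt V z '' (C ∩ N ∩ (chartAt V z).source)) = 0) ∨
  ∃ v : TangentSpace 𝓘(ℝ, V) z, (∀ w, s z ![v, w] = 0) ∧ ¬ ZT C z v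

/-- the value of `σ ∧ σ` on four tangent vectors -/
def sqr (σ : Form V X 2) (x : X) (v : Fin 4 → TangentSpace 𝓘(ℝ, V) x) : ℝ :=
  2 * (σ x ![v 0, v 1] * σ x ![v 2, v 3] - σ x ![v 0, v 2] * σ x ![v 1, v 3] +
    σ x ![v 0, v 3] * σ x ![v 1, v 2])

/-- `σ` is closed and cohomologous to `τ`. -/
def InClass (τ σ : Form V X 2) : Prop :=
  IsClosedForm σ ∧ ∃ α : Form V X 1, IsSmooth α ∧ IsD α (fun x => σ x - τ x)

/-- `σ ∧ σ ≥ 0` for the orientation given by `τ ∧ τ` -/
def NonnegSq (τ σ : Form V X 2) : Prop :=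
  ∀ (x : X) (v : Fin 4 → TangentSpace 𝓘(ℝ, V) x), 0 ≤ sqr σ x v * sqr τ x v

/-- nondegenerate forms -/
def Nondeg (σ : Form V X 2) : Prop :=
  ∀ (x : X) (v : TangentSpace 𝓘(ℝ, V) x), (∀ w, σ x ![v, w] = 0) → v = 0

/-- The form `σ` may be degenerate, but it does not vanish at the points at which it is degenerate,
and the components of the set of these points are small. -/
def ThinlyDegenerate [MeasurableSpace V] [BorelSpace V] (σ : Form V X 2) : Prop :=
  (∀ z ∈ Deg σ, σ z ≠ 0) ∧ ∀ z ∈ Deg σ, SmallFor σ (connectedComponentIn (Deg σ) z) z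

/-- the symplectic forms cohomologous to `τ` which induce the orientation of `τ` -/
def Symp (τ : SForm V X) : Set (SForm V X) :=
  {σ | InClass τ.1 σ.1 ∧ NonnegSq τ.1 σ.1 ∧ Nondeg σ.1}

/-- the thinly degenerate closed forms with nonnegative square cohomologous to `τ` -/
def Thin [MeasurableSpace V] [BorelSpace V] (τ : SForm V X) : Set (SForm V X) :=
  {σ | InClass τ.1 σ.1 ∧ NonnegSq τ.1 σ.1 ∧ ThinlyDegenerate σ.1}

theorem symp_thin [MeasurableSpace V] [BorelSpace V] (τ : SForm V X) : Symp τ ⊆ Thin τ := by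
  rintro σ ⟨h1, h2, h3⟩
  have h4 : ∀ z, z ∉ Deg σ.1 := by
    rintro z ⟨v, hv, hw⟩
    exact hv (h3 z v hw)
  exact ⟨h1, h2, fun z hz => absurd hz (h4 z), fun z hz => absurd hz (h4 z)⟩

/-- the inclusion of the symplectic forms in the thinly degenerate forms -/
def incl [IsManifold 𝓘(ℝ, V) ∞ X] [MeasurableSpace V] [BorelSpace V] (τ : SForm V X) :
    C(Symp τ, Thin τ) :=
  ⟨Set.inclusion (symp_thin τ), continuous_inclusion (symp_thin τ)⟩

end space

end Pool.Agent.Q235.SZ
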