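import Pool.Agent.Q235.SZ.Top

/-!
Project SZ: compact sets of thinly degenerate forms can be pushed into the symplectic forms.
-/

set_option autoImplicit false

open Set Filter Topology MeasureTheory
open scoped Manifold ContDiff

noncomputable section

namespace Pool.Agent.Q235.SZ

open Pool.Agent.Y501.SYP

section

variable {V : Type} [NormedAddCommGroup V] [NormedSpace ℝ V]
  {X : Type} [TopologicalSpace X] [ChartedSpace V X]

/-- exact forms -/
def Ex (η : SForm V X) : Prop :=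
  IsClosedForm η.1 ∧ ∃ α : Form V X 1, IsSmooth α ∧ IsD α η.1

theorem ext_zero {k : ℕ} (U : Set V) : ∀ p ∈ U,
    extDeriv (fun _ : V => (0 : V [⋀^Fin k]→L[ℝ] ℝ)) p = 0 := by
  intro p _
  have h := extDeriv_fun_smul (𝕜 := ℝ) (x := p) (0 : ℝ) (fun _ : V => (0 : V [⋀^Fin k]→L[ℝ] ℝ))
  simp only [zero_smul] at h
  exact h

theorem ex_zero [IsManifold 𝓘(ℝ, V) ∞ X] : Ex (zeroS (V := V) (X := X)) := by
  refine ⟨fun U φ _ p hp => ?_, fun _ => 0, fun U φ _ => ?_, fun U φ _ p hp => ?_⟩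
  · exact ext_zero U p hp
  · have : pb φ (fun _ => 0 : Form V X 1) = fun _ => 0 := by funext p; rfl
    rw [this]
    exact contDiffOn_const
  · exact ext_zero U p hp

theorem ext_lin {k : ℕ} {f g : V → V [⋀^Fin k]→L[ℝ] ℝ} {p : V} (t : ℝ)
    (hf : DifferentiableAt ℝ f p) (hg : DifferentiableAt ℝ g p) :
    extDeriv (fun q => f q + t • g q) p = extDeriv f p + t • extDeriv g p := by
  have h1 : (fun q => f q + t • g q) = f + t • g := rfl
  rw [h1, extDeriv_add hf (hg.const_smul t), extDeriv_smul]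

theorem diffAt {k : ℕ} {σ : Form V X k} (hσ : IsSmooth σ) {U : Set V} {φ : V → X}
    (hφ : SmoothParam U φ) {p : V} (hp : p ∈ U) : DifferentiableAt ℝ (pb φ σ) p :=
  ((hσ U φ hφ).contDiffAt (hφ.1.mem_nhds hp)).differentiableAt (by simp)

theorem closed_add [IsManifold 𝓘(ℝ, V) ∞ X] {σ η : SForm V X} (t : ℝ)
    (h1 : IsClosedForm σ.1) (h2 : IsClosedForm η.1) : IsClosedForm (addS σ t η).1 := by
  intro U φ hφ p hp
  have h3 := ext_lin t (diffAt σ.2 hφ hp) (diffAt η.2 hφ hp)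
  rw [h1 U φ hφ p hp, h2 U φ hφ p hp] at h3
  refine h3.trans ?_
  rw [smul_zero, add_zero]

theorem inClass_add [IsManifold 𝓘(ℝ, V) ∞ X] {τ : Form V X 2} {σ η : SForm V X} (t : ℝ)
    (h1 : InClass τ σ.1) (h2 : Ex η) : InClass τ (addS σ t η).1 := by
  obtain ⟨h1c, α, hα, hαd⟩ := h1
  obtain ⟨h2c, β, hβ, hβd⟩ := h2
  refine ⟨closed_add t h1c h2c, fun x => α x + t • β x, fun U φ hφ => ?_, fun U φ hφ p hp => ?_⟩
  · exact (hα U φ hφ).add ((hβ U φ hφ).const_smul t)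
  · have h3 := ext_lin t (diffAt hα hφ hp) (diffAt hβ hφ hp)
    rw [hαd U φ hφ p hp, hβd U φ hφ p hp] at h3
    refine Eq.trans ?_ (h3.trans ?_)
    · rfl
    · ext m
      change (σ.1 (φ p) - τ (φ p)) _ + t * (η.1 (φ p)) _ = (σ.1 (φ p) + t • η.1 (φ p) - τ (φ p)) _
      change (σ.1 (φ p)) _ - (τ (φ p)) _ + t * (η.1 (φ p)) _ =
        (σ.1 (φ p)) _ + t * (η.1 (φ p)) _ - (τ (φ p)) _
      ring

theorem ex_add [IsManifold 𝓘(ℝ, V) ∞ X] {σ η : SForm V X} (t : ℝ)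
    (h1 : Ex σ) (h2 : Ex η) : Ex (addS σ t η) := by
  obtain ⟨h1c, α, hα, hαd⟩ := h1
  obtain ⟨h2c, β, hβ, hβd⟩ := h2
  refine ⟨closed_add t h1c h2c, fun x => α x + t • β x, fun U φ hφ => ?_, fun U φ hφ p hp => ?_⟩
  · exact (hα U φ hφ).add ((hβ U φ hφ).const_smul t)
  · have h3 := ext_lin t (diffAt hα hφ hp) (diffAt hβ hφ hp)
    rw [hαd U φ hφ p hp, hβd U φ hφ p hp] at h3
    exact h3

end

end Pool.Agent.Q235.SZ
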