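import Pool.Agent.Q235.SZ.Push2

/-!
Project SZ: compact sets of thinly degenerate forms can be pushed into the symplectic forms.
-/

set_option autoImplicit false

open Set Filter Topology MeasureTheory
open scoped Manifold ContDiff

noncomputable section

namespace Pool.Agent.Q235.SZ

open Pool.Agent.Y501.SYP

section

variable {X : Type} [TopologicalSpace X] [ChartedSpace (ES 4) X] [IsManifold 𝓘(ℝ, ES 4) ∞ X]

theorem wed_ne {τ : Form (ES 4) X 2} (hτ : Nondeg τ) (x : X) :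
    wed (V := ES 4) (τ x) (τ x) e4 ≠ 0 := by
  intro h
  obtain ⟨v, hv, hw⟩ := degenerate_of_sq (V := ES 4) e4 (τ x) h
  exact hv (hτ x v hw)

theorem rat_nonneg {τ σ : Form (ES 4) X 2} (hτ : Nondeg τ) (h : NonnegSq τ σ) (x : X) :
    0 ≤ rat τ σ σ x := by
  have h1 := h x e4
  rw [sqr_eq, sqr_eq] at h1
  have h2 := wed_ne hτ x
  unfold rat
  rw [div_eq_mul_inv]
  have h3 : wed (V := ES 4) (σ x) (σ x) e4 * (wed (V := ES 4) (τ x) (τ x) e4)⁻¹ =
      (wed (V := ES 4) (σ x) (σ x) e4 * wed (V := ES 4) (τ x) (τ x) e4) *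
        ((wed (V := ES 4) (τ x) (τ x) e4)⁻¹) ^ 2 := by
    field_simp
  rw [h3]
  positivity

theorem nonneg_of_rat {τ σ : Form (ES 4) X 2} (hτ : Nondeg τ) (h : ∀ x, 0 ≤ rat τ σ σ x) :
    NonnegSq τ σ := by
  intro x v
  have e1 : sqr σ x v = wed (V := ES 4) (σ x) (σ x) v := sqr_eq σ x v
  have e2 : sqr τ x v = wed (V := ES 4) (τ x) (τ x) v := sqr_eq τ x v
  rw [e1, e2]
  have h1 := wed_frame (V := ES 4) e4 (σ x) (σ x) v
  have h2 := wed_frame (V := ES 4) e4 (τ x) (τ x) v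
  have h3 := wed_ne hτ x
  have h4 : wed (V := ES 4) (σ x) (σ x) v * wed (V := ES 4) (τ x) (τ x) v =
      rat τ σ σ x * (wed (V := ES 4) (τ x) (τ x) e4 * e4.det v) ^ 2 := by
    rw [h1, h2]
    unfold rat
    field_simp
  rw [h4]
  exact mul_nonneg (h x) (sq_nonneg _)

theorem nondeg_of_rat {τ σ : Form (ES 4) X 2} (h : ∀ x, 0 < rat τ σ σ x) : Nondeg σ := by
  intro x v hv
  by_contra hne
  have h1 := sq_of_degenerate (V := ES 4) e4 (σ x) ⟨v, hne, hv⟩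
  have h2 := h x
  unfold rat at h2
  rw [h1, zero_div] at h2
  exact lt_irrefl _ h2

theorem rat_zeroS (τ σ : Form (ES 4) X 2) (x : X) :
    rat τ σ (zeroS (V := ES 4) (X := X)).1 x = 0 := by
  have h1 : wed (V := ES 4) (σ x) (0 : (ES 4) [⋀^Fin 2]→L[ℝ] ℝ) e4 = 0 := by
    have h2 := wed_smul_right (V := ES 4) (σ x) (0 : (ES 4) [⋀^Fin 2]→L[ℝ] ℝ) 0 e4
    rw [smul_zero, zero_mul] at h2
    exact h2
  refine (congrArg (fun r => r / wed (V := ES 4) (τ x) (τ x) e4) h1).trans ?_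
  exact zero_div _

theorem rat_addS (τ σ : Form (ES 4) X 2) (η θ : SForm (ES 4) X) (t : ℝ) (x : X) :
    rat τ σ (addS η t θ).1 x = rat τ σ η.1 x + t * rat τ σ θ.1 x :=
  rat_add τ σ η.1 θ.1 t x

theorem cR {τ : SForm (ES 4) X} (hτ : Nondeg τ.1) {B : Type} [TopologicalSpace B]
    {f g : B → SForm (ES 4) X} (hf : Continuous f) (hg : Continuous g) :
    Continuous fun q : B × X => rat τ.1 (f q.1).1 (g q.1).1 q.2 :=
  rat_cont τ.2 (wed_ne hτ) (joint4 hf) (joint4 hg)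

variable [CompactSpace X] [T2Space X]

/-- the local perturbation -/
theorem localFam {τ : SForm (ES 4) X} (hτ : Nondeg τ.1) {B : Type} [TopologicalSpace B]
    [CompactSpace B] [T2Space B] {f : B → SForm (ES 4) X} (hf : Continuous f) (b₀ : B)
    (hb₀ : f b₀ ∈ Thin τ) :
    ∃ (u : C(B, ℝ)) (η : SForm (ES 4) X), Ex η ∧ u b₀ ≠ 0 ∧ (∀ b, 0 ≤ u b) ∧
      ∀ b : B, u b ≠ 0 → ∀ x, rat τ.1 (f b).1 (f b).1 x = 0 → 0 < rat τ.1 (f b).1 η.1 x := by
  obtain ⟨_, _, hthin⟩ := hb₀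
  obtain ⟨α, η, hα, hη, hαη, hηc, hpos⟩ := exists_pos τ.2 (wed_ne hτ) (f b₀).2 hthin.1 hthin.2
  let η' : SForm (ES 4) X := ⟨η, hη⟩
  have cA : Continuous fun q : B × X => rat τ.1 (f q.1).1 (f q.1).1 q.2 := cR hτ hf hf
  have cB : Continuous fun q : B × X => rat τ.1 (f q.1).1 η'.1 q.2 :=
    cR (g := fun _ => η') hτ hf continuous_const
  let bad : Set (B × X) := {q | rat τ.1 (f q.1).1 (f q.1).1 q.2 = 0 ∧
    rat τ.1 (f q.1).1 η'.1 q.2 ≤ 0}
  have hbad : IsClosed bad := (isClosed_eq cA continuous_const).inter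
    (isClosed_le cB continuous_const)
  have hbad' : IsClosed (Prod.fst '' bad) := (hbad.isCompact.image continuous_fst).isClosed
  have hσ₀ : b₀ ∉ Prod.fst '' bad := by
    rintro ⟨⟨σ, x⟩, ⟨h1, h2⟩, h3⟩
    have h4 : σ = b₀ := h3
    subst h4
    exact absurd (hpos x h1) (not_lt.2 h2)
  obtain ⟨u, hu0, hu1, hu01⟩ := exists_continuous_zero_one_of_isClosed hbad'
    (isClosed_singleton : IsClosed ({b₀} : Set B))
    (Set.disjoint_singleton_right.2 hσ₀)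
  refine ⟨u, η', ⟨hηc, α, hα, hαη⟩, ?_, fun b => (hu01 b).1, fun b hb x hx => ?_⟩
  · have h1 : u b₀ = 1 := hu1 rfl
    rw [h1]
    exact one_ne_zero
  · by_contra hn
    exact hb (hu0 ⟨(b, x), ⟨hx, not_lt.1 hn⟩, rfl⟩)

/-- the perturbing family -/
theorem family {τ : SForm (ES 4) X} (hτ : Nondeg τ.1) {B : Type} [TopologicalSpace B]
    [CompactSpace B] [T2Space B] {f : B → SForm (ES 4) X} (hf : Continuous f)
    (hfN : ∀ b, f b ∈ Thin τ) :
    ∃ ρ : B → SForm (ES 4) X, Continuous ρ ∧ (∀ b, Ex (ρ b)) ∧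
      ∀ (b : B) (x : X), rat τ.1 (f b).1 (f b).1 x = 0 → 0 < rat τ.1 (f b).1 (ρ b).1 x := by
  have main : ∃ ρ : B → SForm (ES 4) X, Continuous ρ ∧ (∀ b, Ex (ρ b)) ∧
      (∀ (b : B) (x : X), rat τ.1 (f b).1 (f b).1 x = 0 → 0 ≤ rat τ.1 (f b).1 (ρ b).1 x) ∧
      ∀ b ∈ (univ : Set B), ∀ x : X, rat τ.1 (f b).1 (f b).1 x = 0 →
        0 < rat τ.1 (f b).1 (ρ b).1 x := by
    refine (isCompact_univ : IsCompact (univ : Set B)).induction_on
      (p := fun S => ∃ ρ : B → SForm (ES 4) X, Continuous ρ ∧ (∀ b, Ex (ρ b)) ∧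
        (∀ (b : B) (x : X), rat τ.1 (f b).1 (f b).1 x = 0 → 0 ≤ rat τ.1 (f b).1 (ρ b).1 x) ∧
        ∀ b ∈ S, ∀ x : X, rat τ.1 (f b).1 (f b).1 x = 0 →
          0 < rat τ.1 (f b).1 (ρ b).1 x) ?_ ?_ ?_ ?_
    · refine ⟨fun _ => zeroS, continuous_const, fun _ => ex_zero, fun b x _ => ?_,
        fun b hb => absurd hb (notMem_empty b)⟩
      rw [rat_zeroS]
    · rintro S T hST ⟨ρ, h1, h2, h3, h4⟩
      exact ⟨ρ, h1, h2, h3, fun σ hσ => h4 σ (hST hσ)⟩
    · rintro S T ⟨ρ, h1, h2, h3, h4⟩ ⟨ρ', h1', h2', h3', h4'⟩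
      refine ⟨fun b => addS (ρ b) 1 (ρ' b), addS_continuous h1 continuous_const h1',
        fun b => ex_add 1 (h2 b) (h2' b), fun b x hx => ?_, fun b hb x hx => ?_⟩
      · rw [rat_addS, one_mul]
        exact add_nonneg (h3 b x hx) (h3' b x hx)
      · rw [rat_addS, one_mul]
        rcases hb with h | h
        · exact add_pos_of_pos_of_nonneg (h4 b h x hx) (h3' b x hx)
        · exact add_pos_of_nonneg_of_pos (h3 b x hx) (h4' b h x hx)
    · intro b₀ _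
      obtain ⟨u, η, hη, hu, hu0, hgood⟩ := localFam hτ hf b₀ (hfN b₀)
      have hrat : ∀ (b : B) (x : X), rat τ.1 (f b).1 (addS zeroS (u b) η).1 x =
          u b * rat τ.1 (f b).1 η.1 x := by
        intro b x
        rw [rat_addS, rat_zeroS, zero_add]
      refine ⟨{b | u b ≠ 0}, ?_, fun b => addS zeroS (u b) η,
        addS_continuous continuous_const u.continuous continuous_const,
        fun b => ex_add _ ex_zero hη, fun b x hx => ?_, fun b hb x hx => ?_⟩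
      · exact mem_nhdsWithin_of_mem_nhds
          ((isOpen_ne_fun u.continuous continuous_const).mem_nhds hu)
      · rw [hrat]
        by_cases h : u b = 0
        · rw [h, zero_mul]
        · exact mul_nonneg (hu0 b) (hgood b h x hx).le
      · rw [hrat]
        exact mul_pos (lt_of_le_of_ne (hu0 b) (Ne.symm hb)) (hgood b hb x hx)
  obtain ⟨ρ, h1, h2, _, h4⟩ := main
  exact ⟨ρ, h1, h2, fun b => h4 b (mem_univ b)⟩

/-- Compact sets of thinly degenerate forms can be pushed into the symplectic forms. -/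
theorem push {τ : SForm (ES 4) X} (hτ : Nondeg τ.1) {C : Set (SForm (ES 4) X)}
    (hC : IsCompact C) (hCN : C ⊆ Thin τ) :
    ∃ H : ℝ × SForm (ES 4) X → SForm (ES 4) X, ContinuousOn H (Icc (0 : ℝ) 1 ×ˢ C) ∧
      (∀ σ ∈ C, H (0, σ) = σ) ∧
      (∀ s : ℝ, 0 < s → s ≤ 1 → ∀ σ ∈ C, H (s, σ) ∈ Symp τ) := by
  classical
  have hcs : CompactSpace C := isCompact_iff_compactSpace.1 hC
  have hval : Continuous fun σ : C => σ.1 := continuous_subtype_val
  obtain ⟨ρ, hρ, hEx, hpos⟩ := family (f := fun σ : C => σ.1) hτ hval (fun σ => hCN σ.2)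
  have cA : Continuous fun q : C × X => rat τ.1 q.1.1.1 q.1.1.1 q.2 := cR hτ hval hval
  have cB : Continuous fun q : C × X => rat τ.1 q.1.1.1 (ρ q.1).1 q.2 := cR hτ hval hρ
  have cD : Continuous fun q : C × X => rat τ.1 (ρ q.1).1 (ρ q.1).1 q.2 := cR hτ hρ hρ
  obtain ⟨ε, hε, hεp⟩ := compact_pos cA cB cD
    (fun q => rat_nonneg hτ (hCN q.1.2).2.1 q.2) (fun q hq => hpos q.1 q.2 hq)
  let ρ' : SForm (ES 4) X → SForm (ES 4) X := fun σ =>
    if h : σ ∈ C then ρ ⟨σ, h⟩ else zeroS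
  have hρ' : ∀ σ : C, ρ' σ.1 = ρ σ := fun σ => dif_pos σ.2
  refine ⟨fun q => addS q.2 (q.1 * ε) (ρ' q.2), ?_, fun σ _ => ?_, fun s hs0 hs1 σ hσ => ?_⟩
  · rw [continuousOn_iff_continuous_domRestrict]
    have c1 : Continuous fun q : (Icc (0 : ℝ) 1 ×ˢ C : Set (ℝ × SForm (ES 4) X)) => q.1.2 :=
      continuous_snd.comp continuous_subtype_val
    have c2 : Continuous fun q : (Icc (0 : ℝ) 1 ×ˢ C : Set (ℝ × SForm (ES 4) X)) => q.1.1 * ε :=
      (continuous_fst.comp continuous_subtype_val).mul continuous_const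
    have c3 : Continuous fun q : (Icc (0 : ℝ) 1 ×ˢ C : Set (ℝ × SForm (ES 4) X)) => ρ' q.1.2 := by
      have h1 : (fun q : (Icc (0 : ℝ) 1 ×ˢ C : Set (ℝ × SForm (ES 4) X)) => ρ' q.1.2) =
          fun q => ρ ⟨q.1.2, q.2.2⟩ := by
        funext q
        exact hρ' ⟨q.1.2, q.2.2⟩
      rw [h1]
      exact hρ.comp (c1.subtype_mk _)
    exact addS_continuous c1 c2 c3
  · refine Subtype.ext (funext fun x => ?_)
    change σ.1 x + (0 * ε) • (ρ' σ).1 x = σ.1 x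
    have h1 : (0 * ε : ℝ) = 0 := zero_mul ε
    rw [h1]
    have h2 : (0 : ℝ) • (ρ' σ).1 x = 0 := zero_smul ℝ _
    rw [h2, add_zero]
  · have h1 : ρ' σ = ρ ⟨σ, hσ⟩ := hρ' ⟨σ, hσ⟩
    have hrat : ∀ x, 0 < rat τ.1 (addS σ (s * ε) (ρ' σ)).1 (addS σ (s * ε) (ρ' σ)).1 x := by
      intro x
      have h2 := rat_sq τ.1 σ.1 (ρ ⟨σ, hσ⟩).1 (s * ε) x
      have h3 := hεp (⟨σ, hσ⟩, x) (s * ε) (mul_pos hs0 hε) (by nlinarith)
      rw [h1]
      exact lt_of_lt_of_eq h3 h2.symm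
    refine ⟨?_, nonneg_of_rat hτ fun x => (hrat x).le, nondeg_of_rat hrat⟩
    change InClass τ.1 (addS σ (s * ε) (ρ' σ)).1
    rw [h1]
    exact inClass_add _ (hCN hσ).1 (hEx _)

end

end Pool.Agent.Q235.SZ
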