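import Pool.Agent.Q235.SZ.PubW
import Pool.Agent.Q235.SZ.Hom

/-!
Project SZ: the symplectic forms in a class which weakly tame an almost complex structure.
-/

set_option autoImplicit false

open Set Filter Topology MeasureTheory
open scoped Manifold ContDiff

noncomputable section

namespace Pool.Agent.Q235.SZ

open Pool.Agent.Y501.SYP

section

variable {d : ℕ} {X : Type} [TopologicalSpace X] [ChartedSpace (ES d) X]
  [IsManifold 𝓘(ℝ, ES d) ∞ X]

theorem nondeg_of_tames {σ : Form (ES d) X 2} {J : End (ES d) X} {x : X} (h : TamesAt σ J x)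
    (v : TangentSpace 𝓘(ℝ, ES d) x) (hv : ∀ w, σ x ![v, w] = 0) : v = 0 := by
  by_contra hne
  have h1 : 0 < σ x ![v, J x v] := h v hne
  rw [hv] at h1
  exact lt_irrefl _ h1

theorem inClass_seg {τ σ σ' : SForm (ES d) X} (h : InClass τ.1 σ.1) (h' : InClass τ.1 σ'.1)
    (t : ℝ) : InClass τ.1 (addS σ t (addS σ' (-1) σ)).1 := by
  obtain ⟨hc, α, hα, hαd⟩ := h
  obtain ⟨hc', α', hα', hαd'⟩ := h'
  refine inClass_add t ⟨hc, α, hα, hαd⟩ ⟨closed_add _ hc' hc, fun x => α' x + (-1 : ℝ) • α x,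
    fun U φ hφ => ?_, fun U φ hφ p hp => ?_⟩
  · exact (hα' U φ hφ).add ((hα U φ hφ).const_smul (-1 : ℝ))
  · have h3 := ext_lin (-1 : ℝ) (diffAt hα' hφ hp) (diffAt hα hφ hp)
    rw [hαd U φ hφ p hp, hαd' U φ hφ p hp] at h3
    refine Eq.trans ?_ (h3.trans ?_)
    · rfl
    · ext m
      change (σ'.1 (φ p)) _ - (τ.1 (φ p)) _ + (-1) * ((σ.1 (φ p)) _ - (τ.1 (φ p)) _) =
        (σ'.1 (φ p)) _ + (-1) * (σ.1 (φ p)) _
      ring

theorem seg_eq' (σ σ' : SForm (ES d) X) (t : ℝ) : seg σ σ' t = addS σ t (addS σ' (-1) σ) := by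
  refine Subtype.ext (funext fun x => ?_)
  have key : ∀ a b : (ES d) [⋀^Fin 2]→L[ℝ] ℝ, 0 + (1 - t) • a + t • b =
      a + t • (b + (-1 : ℝ) • a) := by
    intro a b
    module
  exact key (σ.1 x) (σ'.1 x)

theorem seg_zero' (σ σ' : SForm (ES d) X) : seg σ σ' 0 = σ := by
  refine Subtype.ext (funext fun x => ?_)
  have key : ∀ a b : (ES d) [⋀^Fin 2]→L[ℝ] ℝ, 0 + (1 - (0 : ℝ)) • a + (0 : ℝ) • b = a := by
    intro a b
    rw [zero_smul, sub_zero, one_smul, zero_add, add_zero]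
  exact key (σ.1 x) (σ'.1 x)

theorem seg_one' (σ σ' : SForm (ES d) X) : seg σ σ' 1 = σ' := by
  refine Subtype.ext (funext fun x => ?_)
  have key : ∀ a b : (ES d) [⋀^Fin 2]→L[ℝ] ℝ, 0 + (1 - (1 : ℝ)) • a + (1 : ℝ) • b = b := by
    intro a b
    rw [sub_self, zero_smul, one_smul, zero_add, zero_add]
  exact key (σ.1 x) (σ'.1 x)

theorem seg_qd (σ σ' : SForm (ES d) X) (t : ℝ) (J : End (ES d) X) (x : X)
    (v : TangentSpace 𝓘(ℝ, ES d) x) :
    qd (seg σ σ' t).1 J x v = (1 - t) * qd σ.1 J x v + t * qd σ'.1 J x v := by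
  have key : ∀ (a b : (ES d) [⋀^Fin 2]→L[ℝ] ℝ) (m : Fin 2 → ES d),
      (0 + (1 - t) • a + t • b) m = (1 - t) * a m + t * b m := by
    intro a b m
    change 0 + (1 - t) * a m + t * b m = _
    ring
  exact key (σ.1 x) (σ'.1 x) ![v, J x v]

/-- star-shapedness -/
theorem star {τ : SForm (ES d) X} {J : End (ES d) X} {σ : SForm (ES d) X}
    (hσ : InClass τ.1 σ.1) (hσJ : ∀ x, TamesAt σ.1 J x) {w : SForm (ES d) X} (hw : w ∈ Weak τ J)
    (t : ℝ) (h0 : 0 ≤ t) (h1 : t ≤ 1) : seg w σ t ∈ Weak τ J := by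
  have htame : ∀ s : ℝ, 0 < s → s ≤ 1 → ∀ x, TamesAt (seg w σ s).1 J x := by
    intro s hs0 hs1 x v hv
    rw [seg_qd]
    have h2 := hw.2.1 x v
    have h3 : 0 < qd σ.1 J x v := hσJ x v hv
    have h4 := mul_pos hs0 h3
    have h5 : 0 ≤ (1 - s) * qd w.1 J x v := mul_nonneg (by linarith) h2
    linarith
  rcases eq_or_lt_of_le h0 with h | h
  · rw [← h, seg_zero']
    exact hw
  · refine ⟨⟨?_, fun x v hv => nondeg_of_tames (htame t h h1 x) v hv⟩, fun x v => ?_,
      fun z hz => absurd (htame t h h1 z) hz⟩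
    · rw [seg_eq']
      exact inClass_seg hw.1.1 hσ t
    · rw [seg_qd]
      have h2 := hw.2.1 x v
      have h3 : 0 ≤ qd σ.1 J x v := by
        by_cases hv : v = 0
        · subst hv
          have h6 : qd σ.1 J x 0 = 0 := (σ.1 x).map_coord_zero 0 rfl
          rw [h6]
        · exact (hσJ x v hv).le
      have h4 := mul_nonneg h0 h3
      have h5 : 0 ≤ (1 - t) * qd w.1 J x v := mul_nonneg (by linarith) h2
      linarith

variable [CompactSpace X] [T2Space X]

/-- a taming form near a weakly taming one -/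
theorem exists_taming {τ : SForm (ES d) X} {J : End (ES d) X}
    (hJ : IsAlmostComplex J) {w : SForm (ES d) X} (hw : w ∈ Weak τ J) :
    ∃ σ : SForm (ES d) X, InClass τ.1 σ.1 ∧ ∀ x, TamesAt σ.1 J x := by
  have hz : IsClosedForm (fun _ => 0 : Form (ES d) X 2) := (ex_zero (V := ES d) (X := X)).1
  have hzs : IsSmooth (fun _ => 0 : Form (ES d) X 2) := (zeroS (V := ES d) (X := X)).2
  have hcz : IsSmooth (fun _ => 0 : Form (ES d) X 1) := by
    intro U φ _
    have : pb φ (fun _ => 0 : Form (ES d) X 1) = fun _ => 0 := by funext p; rfl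
    rw [this]
    exact contDiffOn_const
  have hsub : Subsingleton (ES 0) := (inferInstance : Subsingleton (EuclideanSpace ℝ (Fin 0)))
  have hsig : SigmaCompactSpace (ES 0) :=
    (inferInstance : SigmaCompactSpace (EuclideanSpace ℝ (Fin 0)))
  have hf : ContMDiff 𝓘(ℝ, ES d) 𝓘(ℝ, ES 0) ∞ (fun _ : X => (0 : ES 0)) := contMDiff_const
  obtain ⟨α, ρ, h1, h2, h3, t₀, ht₀, h4⟩ := twoLevel (m := 0) (Y := ES 0) J hJ
    (fun _ => (0 : ES 0)) hf w.1 (fun _ => 0) w.2 hw.1.1.1 hzs hz hw.2.1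
    (fun x v _ => by rw [mfderiv_const]; rfl) (by
      intro y
      refine ⟨fun _ => 0, fun _ => 0, hcz, hzs, fun U φ hφ p hp => ?_, fun x _ v _ => ?_, ?_⟩
      · exact ext_zero U p hp
      · have h6 : qd (addF (fun _ => 0 : Form (ES d) X 2) (fun _ => 0)) J x v = 0 := by
          have key : ∀ m : Fin 2 → ES d,
              ((0 : (ES d) [⋀^Fin 2]→L[ℝ] ℝ) + 0) m = 0 := by
            intro m
            change (0 : ℝ) + 0 = 0
            norm_num
          exact key ![v, J x v]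
        rw [h6]
      · have hbad : Exc w.1 (addF (fun _ => 0 : Form (ES d) X 2) (fun _ => 0)) J
            ((fun _ : X => (0 : ES 0)) ⁻¹' {y}) = Bad w.1 J := by
          ext x
          constructor
          · rintro ⟨_, v, hv, hn, _⟩ ht
            have := ht v hv
            rw [hn] at this
            exact lt_irrefl _ this
          · intro hx
            have hx' : ∃ v : TangentSpace 𝓘(ℝ, ES d) x, v ≠ 0 ∧ ¬ 0 < qd w.1 J x v := by
              by_contra hc
              push Not at hc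
              exact hx hc
            obtain ⟨v, hv, hn⟩ := hx'
            refine ⟨?_, v, hv, le_antisymm (not_lt.1 hn) (hw.2.1 x v), ?_⟩
            · exact Subsingleton.elim _ _
            · have key : ∀ m : Fin 2 → ES d,
                  ((0 : (ES d) [⋀^Fin 2]→L[ℝ] ℝ) + 0) m = 0 := by
                intro m
                change (0 : ℝ) + 0 = 0
                norm_num
              exact key ![v, J x v]
        rw [hbad]
        intro z hz
        rcases hw.2.2 z hz with h | h | ⟨n, a, b, hab, hpos⟩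
        · exact Or.inl h
        · exact Or.inr (Or.inl h)
        · exact Or.inr (Or.inr ⟨n, a, b, hab, fun v hv hn => hpos v hv hn.1⟩))
  have hsum : ∀ t, comb w.1 t (addF (fun _ => 0 : Form (ES d) X 2) ρ) =
      (addS w t ⟨ρ, h2⟩).1 := by
    intro t
    funext x
    have key : ∀ a b : (ES d) [⋀^Fin 2]→L[ℝ] ℝ, a + t • (0 + b) = a + t • b := by
      intro a b
      rw [zero_add]
    exact key _ _
  have e1 := h4 t₀ ht₀ le_rfl
  rw [hsum t₀] at e1
  have hEx : Ex (⟨ρ, h2⟩ : SForm (ES d) X) := by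
    refine ⟨fun U φ hφ p hp => ?_, α, h1, h3⟩
    have h5 := e1.closed U φ hφ p hp
    have h6 := ext_lin t₀ (diffAt w.2 hφ hp) (diffAt h2 hφ hp)
    rw [hw.1.1.1 U φ hφ p hp, zero_add] at h6
    have h7 : t₀ • extDeriv (pb φ ρ) p = 0 := h6.symm.trans h5
    exact (smul_eq_zero.1 h7).resolve_left ht₀.ne'
  exact ⟨addS w t₀ ⟨ρ, h2⟩, inClass_add t₀ hw.1.1 hEx, e1.tames⟩

end

end Pool.Agent.Q235.SZ
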