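import Pool.Agent.Y501.SY.PairL

/-!
Project SZ: the product of two alternating two-forms, evaluated on four vectors.
-/

set_option autoImplicit false

open Set Filter Topology

noncomputable section

namespace Pool.Agent.Q235.SZ

section

variable {V : Type} [NormedAddCommGroup V] [NormedSpace ℝ V]

/-- `(a ∧ b)(v₀, v₁, v₂, v₃)` -/
def wed (a b : V [⋀^Fin 2]→L[ℝ] ℝ) (v : Fin 4 → V) : ℝ :=
  a ![v 0, v 1] * b ![v 2, v 3] - a ![v 0, v 2] * b ![v 1, v 3] + a ![v 0, v 3] * b ![v 1, v 2]
    + a ![v 1, v 2] * b ![v 0, v 3] - a ![v 1, v 3] * b ![v 0, v 2] + a ![v 2, v 3] * b ![v 0, v 1]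

theorem a_swap (a : V [⋀^Fin 2]→L[ℝ] ℝ) (v w : V) : a ![v, w] = - a ![w, v] := by
  have h := a.toAlternatingMap.map_swap ![w, v] (i := 0) (j := 1) (by decide)
  have h2 : (![w, v] ∘ Equiv.swap (0 : Fin 2) 1) = ![v, w] := by
    funext i; fin_cases i <;> simp
  rw [h2] at h
  exact h

theorem a_self (a : V [⋀^Fin 2]→L[ℝ] ℝ) (v : V) : a ![v, v] = 0 := by
  have := a_swap a v v
  linarith

theorem a_add_right (a : V [⋀^Fin 2]→L[ℝ] ℝ) (v w w' : V) :
    a ![v, w + w'] = a ![v, w] + a ![v, w'] := by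
  have h := a.toAlternatingMap.map_update_add ![v, w] 1 w w'
  have h1 : Function.update ![v, w] 1 (w + w') = ![v, w + w'] := by
    funext i; fin_cases i <;> simp
  have h2 : Function.update ![v, w] 1 w = ![v, w] := by
    funext i; fin_cases i <;> simp
  have h3 : Function.update ![v, w] 1 w' = ![v, w'] := by
    funext i; fin_cases i <;> simp
  rw [h1, h2, h3] at h
  exact h

theorem a_smul_right (a : V [⋀^Fin 2]→L[ℝ] ℝ) (c : ℝ) (v w : V) :
    a ![v, c • w] = c * a ![v, w] := by
  have h := a.toAlternatingMap.map_update_smul ![v, w] 1 c w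
  have h1 : Function.update ![v, w] 1 (c • w) = ![v, c • w] := by
    funext i; fin_cases i <;> simp
  have h2 : Function.update ![v, w] 1 w = ![v, w] := by
    funext i; fin_cases i <;> simp
  rw [h1, h2] at h
  exact h

theorem a_add_left (a : V [⋀^Fin 2]→L[ℝ] ℝ) (v v' w : V) :
    a ![v + v', w] = a ![v, w] + a ![v', w] := by
  rw [a_swap, a_add_right, a_swap a w v, a_swap a w v']
  ring

theorem a_smul_left (a : V [⋀^Fin 2]→L[ℝ] ℝ) (c : ℝ) (v w : V) :
    a ![c • v, w] = c * a ![v, w] := by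
  rw [a_swap, a_smul_right, a_swap a w v]
  ring

/-- the product on four vectors -/
def w4 (a b : V [⋀^Fin 2]→L[ℝ] ℝ) (p q r s : V) : ℝ :=
  a ![p, q] * b ![r, s] - a ![p, r] * b ![q, s] + a ![p, s] * b ![q, r]
    + a ![q, r] * b ![p, s] - a ![q, s] * b ![p, r] + a ![r, s] * b ![p, q]

theorem l01 (a b : V [⋀^Fin 2]→L[ℝ] ℝ) (p r s : V) : w4 a b p p r s = 0 := by
  unfold w4; rw [a_self, a_self]; ring

theorem l02 (a b : V [⋀^Fin 2]→L[ℝ] ℝ) (p q s : V) : w4 a b p q p s = 0 := by
  unfold w4; rw [a_self, a_self, a_swap a q p, a_swap b q p]; ring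

theorem l03 (a b : V [⋀^Fin 2]→L[ℝ] ℝ) (p q r : V) : w4 a b p q r p = 0 := by
  unfold w4; rw [a_self, a_self, a_swap a q p, a_swap b q p, a_swap a r p, a_swap b r p]; ring

theorem l12 (a b : V [⋀^Fin 2]→L[ℝ] ℝ) (p q s : V) : w4 a b p q q s = 0 := by
  unfold w4; rw [a_self, a_self]; ring

theorem l13 (a b : V [⋀^Fin 2]→L[ℝ] ℝ) (p q r : V) : w4 a b p q r q = 0 := by
  unfold w4; rw [a_self, a_self, a_swap a r q, a_swap b r q]; ring

theorem l23 (a b : V [⋀^Fin 2]→L[ℝ] ℝ) (p q r : V) : w4 a b p q r r = 0 := by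
  unfold w4; rw [a_self, a_self]; ring

/-- the product as an alternating map in four variables -/
def wedA (a b : V [⋀^Fin 2]→L[ℝ] ℝ) : V [⋀^Fin 4]→ₗ[ℝ] ℝ where
  toFun v := wed a b v
  map_update_add' := by
    intro hd v i x y
    have : hd = instDecidableEqFin 4 := Subsingleton.elim _ _
    subst this
    fin_cases i <;> simp [wed, Function.update, a_add_left, a_add_right] <;> ring
  map_update_smul' := by
    intro hd v i c x
    have : hd = instDecidableEqFin 4 := Subsingleton.elim _ _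
    subst this
    fin_cases i <;> simp [wed, Function.update, a_smul_left, a_smul_right] <;> ring
  map_eq_zero_of_eq' := by
    intro v i j h hij
    change w4 a b (v 0) (v 1) (v 2) (v 3) = 0
    fin_cases i <;> fin_cases j
    · exact absurd rfl hij
    · have h2 : v 1 = v 0 := h.symm
      rw [h2]; exact l01 a b (v 0) (v 2) (v 3)
    · have h2 : v 2 = v 0 := h.symm
      rw [h2]; exact l02 a b (v 0) (v 1) (v 3)
    · have h2 : v 3 = v 0 := h.symm
      rw [h2]; exact l03 a b (v 0) (v 1) (v 2)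
    · have h2 : v 1 = v 0 := h
      rw [h2]; exact l01 a b (v 0) (v 2) (v 3)
    · exact absurd rfl hij
    · have h2 : v 2 = v 1 := h.symm
      rw [h2]; exact l12 a b (v 0) (v 1) (v 3)
    · have h2 : v 3 = v 1 := h.symm
      rw [h2]; exact l13 a b (v 0) (v 1) (v 2)
    · have h2 : v 2 = v 0 := h
      rw [h2]; exact l02 a b (v 0) (v 1) (v 3)
    · have h2 : v 2 = v 1 := h
      rw [h2]; exact l12 a b (v 0) (v 1) (v 3)
    · exact absurd rfl hij
    · have h2 : v 3 = v 2 := h.symm
      rw [h2]; exact l23 a b (v 0) (v 1) (v 2)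
    · have h2 : v 3 = v 0 := h
      rw [h2]; exact l03 a b (v 0) (v 1) (v 2)
    · have h2 : v 3 = v 1 := h
      rw [h2]; exact l13 a b (v 0) (v 1) (v 2)
    · have h2 : v 3 = v 2 := h
      rw [h2]; exact l23 a b (v 0) (v 1) (v 2)
    · exact absurd rfl hij

@[simp] theorem wedA_apply (a b : V [⋀^Fin 2]→L[ℝ] ℝ) (v : Fin 4 → V) :
    wedA a b v = wed a b v := rfl

theorem wed_symm (a b : V [⋀^Fin 2]→L[ℝ] ℝ) (v : Fin 4 → V) : wed a b v = wed b a v := by
  unfold wed; ring

theorem wed_add_right (a b c : V [⋀^Fin 2]→L[ℝ] ℝ) (v : Fin 4 → V) :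
    wed a (b + c) v = wed a b v + wed a c v := by
  have h : ∀ w : Fin 2 → V, (b + c) w = b w + c w := fun w => rfl
  unfold wed
  simp only [h]
  ring

theorem wed_smul_right (a b : V [⋀^Fin 2]→L[ℝ] ℝ) (t : ℝ) (v : Fin 4 → V) :
    wed a (t • b) v = t * wed a b v := by
  have h : ∀ w : Fin 2 → V, (t • b) w = t * b w := fun w => rfl
  unfold wed
  simp only [h]
  ring

theorem wed_add_left (a b c : V [⋀^Fin 2]→L[ℝ] ℝ) (v : Fin 4 → V) :
    wed (b + c) a v = wed b a v + wed c a v := by
  rw [wed_symm, wed_add_right, wed_symm a b, wed_symm a c]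

theorem wed_smul_left (a b : V [⋀^Fin 2]→L[ℝ] ℝ) (t : ℝ) (v : Fin 4 → V) :
    wed (t • b) a v = t * wed b a v := by
  rw [wed_symm, wed_smul_right, wed_symm a b]

/-- expansion of a square -/
theorem wed_sq (a b : V [⋀^Fin 2]→L[ℝ] ℝ) (t : ℝ) (v : Fin 4 → V) :
    wed (a + t • b) (a + t • b) v = wed a a v + 2 * t * wed a b v + t ^ 2 * wed b b v := by
  rw [wed_add_left, wed_add_right, wed_add_right, wed_smul_left, wed_smul_right,
    wed_smul_left, wed_smul_right, wed_symm b a]
  ring

/-- the ratio of two products does not depend on the frame -/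
theorem wed_ratio (e : Module.Basis (Fin 4) ℝ V) (a b c d : V [⋀^Fin 2]→L[ℝ] ℝ)
    (v w : Fin 4 → V) : wed a b v * wed c d w = wed a b w * wed c d v := by
  have h := fun (f : V [⋀^Fin 4]→ₗ[ℝ] ℝ) (u : Fin 4 → V) =>
    congrArg (fun g : V [⋀^Fin 4]→ₗ[ℝ] ℝ => g u) (f.eq_smul_basis_det e)
  have h1 := h (wedA a b) v
  have h2 := h (wedA c d) w
  have h3 := h (wedA a b) w
  have h4 := h (wedA c d) v
  simp only [AlternatingMap.smul_apply, wedA_apply, smul_eq_mul] at h1 h2 h3 h4
  rw [h1, h2, h3, h4]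
  ring

theorem wed_frame (e : Module.Basis (Fin 4) ℝ V) (a b : V [⋀^Fin 2]→L[ℝ] ℝ)
    (v : Fin 4 → V) : wed a b v = wed a b e * e.det v := by
  have h := congrArg (fun g : V [⋀^Fin 4]→ₗ[ℝ] ℝ => g v) ((wedA a b).eq_smul_basis_det e)
  simpa using h

theorem ext_basis (e : Module.Basis (Fin 4) ℝ V) (a : V [⋀^Fin 2]→L[ℝ] ℝ) (v : V)
    (h : ∀ i, a ![v, e i] = 0) (w : V) : a ![v, w] = 0 := by
  have hs := e.sum_repr w
  have hl : ∀ (s : Finset (Fin 4)) (c : Fin 4 → ℝ), a ![v, ∑ i ∈ s, c i • e i] = 0 := by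
    intro s c
    induction s using Finset.induction_on with
    | empty =>
      have := a_smul_right a 0 v v
      simpa using this
    | insert i s hi ih =>
      rw [Finset.sum_insert hi, a_add_right, a_smul_right, h, ih]
      ring
  rw [← hs]
  exact hl _ _

/-- a two-form in dimension four is degenerate if and only if its square is zero -/
theorem degenerate_of_sq (e : Module.Basis (Fin 4) ℝ V) (a : V [⋀^Fin 2]→L[ℝ] ℝ)
    (h : wed a a e = 0) : ∃ v : V, v ≠ 0 ∧ ∀ w, a ![v, w] = 0 := by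
  set A : Fin 4 → Fin 4 → ℝ := fun i j => a ![e i, e j] with hA
  have hsw : ∀ i j, A i j = - A j i := fun i j => a_swap a _ _
  have hself : ∀ i, A i i = 0 := fun i => a_self a _
  have hpf : A 0 1 * A 2 3 - A 0 2 * A 1 3 + A 0 3 * A 1 2 = 0 := by
    have : wed a a e = A 0 1 * A 2 3 - A 0 2 * A 1 3 + A 0 3 * A 1 2 + A 1 2 * A 0 3 -
      A 1 3 * A 0 2 + A 2 3 * A 0 1 := rfl
    rw [this] at h
    linarith
  -- null vectors
  have key : ∀ c : Fin 4 → ℝ, (∀ j, ∑ i, c i * A i j = 0) → (∃ i, c i ≠ 0) →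
      ∃ v : V, v ≠ 0 ∧ ∀ w, a ![v, w] = 0 := by
    intro c hc ⟨i, hi⟩
    refine ⟨∑ i, c i • e i, ?_, ext_basis e a _ ?_⟩
    · intro h0
      have := Fintype.linearIndependent_iff.1 e.linearIndependent c h0 i
      exact hi this
    · intro j
      have hl : ∀ (s : Finset (Fin 4)), a ![∑ i ∈ s, c i • e i, e j] = ∑ i ∈ s, c i * A i j := by
        intro s
        induction s using Finset.induction_on with
        | empty =>
          have := a_smul_left a 0 (e j) (e j)
          simpa using this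
        | insert i s hi ih =>
          rw [Finset.sum_insert hi, a_add_left, a_smul_left, ih, Finset.sum_insert hi]
      rw [hl, hc]
  have s10 := hsw 1 0
  have s20 := hsw 2 0
  have s30 := hsw 3 0
  have s21 := hsw 2 1
  have s31 := hsw 3 1
  have s32 := hsw 3 2
  by_cases c0 : A 2 3 = 0 ∧ A 1 3 = 0 ∧ A 1 2 = 0
  · obtain ⟨h23, h13, h12⟩ := c0
    by_cases c1 : A 0 3 = 0 ∧ A 0 2 = 0
    · obtain ⟨h03, h02⟩ := c1
      refine key ![0, 0, 1, 0] ?_ ⟨2, by simp⟩
      intro j
      fin_cases j <;> simp [Fin.sum_univ_four, s20, s21, h02, h12, h23, hself]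
    · refine key ![0, 0, - A 0 3, A 0 2] ?_ ?_
      · intro j
        fin_cases j
        · simp [Fin.sum_univ_four, s20, s30]; ring
        · simp [Fin.sum_univ_four, s21, s31, h12, h13]
        · simp [Fin.sum_univ_four, s32, h23, hself]
        · simp [Fin.sum_univ_four, h23, hself]
      · by_contra hc
        simp only [not_exists, not_not] at hc
        have e2 := hc 2
        have e3 := hc 3
        simp at e2 e3
        exact c1 ⟨e2, e3⟩
  · refine key ![0, - A 2 3, A 1 3, - A 1 2] ?_ ?_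
    · intro j
      fin_cases j
      · simp [Fin.sum_univ_four, s10, s20, s30]; linarith
      · simp [Fin.sum_univ_four, s21, s31, hself]; ring
      · simp [Fin.sum_univ_four, s32, hself]; ring
      · simp [Fin.sum_univ_four, hself]; ring
    · by_contra hc
      simp only [not_exists, not_not] at hc
      have e1 := hc 1
      have e2 := hc 2
      have e3 := hc 3
      simp at e1 e2 e3
      exact c0 ⟨e1, e2, e3⟩

/-- conversely, the square of a degenerate form vanishes -/
theorem sq_of_degenerate (e : Module.Basis (Fin 4) ℝ V) (a : V [⋀^Fin 2]→L[ℝ] ℝ)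
    (h : ∃ v : V, v ≠ 0 ∧ ∀ w, a ![v, w] = 0) : wed a a e = 0 := by
  obtain ⟨v, hv, hw⟩ := h
  have h1 : e.repr v ≠ 0 := fun h0 => hv (by simpa using h0)
  obtain ⟨i, hi⟩ : ∃ i, e.repr v i ≠ 0 := by
    by_contra hc
    push_neg at hc
    exact h1 (Finsupp.ext hc)
  -- replace the i-th vector of the frame by v
  have h2 : wedA a a (Function.update e i v) = e.repr v i * wedA a a e := by
    have h3 : v = ∑ j, e.repr v j • e j := (e.sum_repr v).symm
    have h4 := (wedA a a).map_update_sum (m := ⇑e) (i := i) Finset.univ (fun j => e.repr v j • e j)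
    rw [← h3] at h4
    rw [h4]
    rw [Finset.sum_eq_single i]
    · rw [AlternatingMap.map_update_smul, Function.update_eq_self, smul_eq_mul]
    · intro j _ hj
      rw [AlternatingMap.map_update_smul, (wedA a a).map_eq_zero_of_eq _ (i := i) (j := j) _ hj.symm,
        smul_zero]
      rw [Function.update_self, Function.update_of_ne hj]
    · intro h; exact absurd (Finset.mem_univ i) h
  have h3 : wedA a a (Function.update e i v) = 0 := by
    rw [wedA_apply]
    have hw' : ∀ w, a ![w, v] = 0 := fun w => by rw [a_swap, hw, neg_zero]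
    unfold wed
    fin_cases i <;> simp [Function.update, hw, hw']
  rw [h3, wedA_apply] at h2
  exact (mul_eq_zero.1 h2.symm).resolve_left hi

end

end Pool.Agent.Q235.SZ
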